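import Pool.Agent.Lib.Sm.I.Mean

/-!
SMITH without rational 2-torsion (SmN), block I: cancellation over the last coordinate.

`GN` is the normal subgroup of `G` which acts trivially on `V1`. The coordinates of the last
direction are pairs `(P, g)`, `P` a prime with Frobenius element `ph P ∈ GN`, `g` in a set `R` of
representatives of `G / GN`. `ChebU` is the form of the Chebotarev theorem which is used: `f` is a
class function of `GN`, the sum over `g ∈ R` makes a class function of `G` of it. The primes are an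
abstract type `Pr` with a degree.
-/

set_option autoImplicit false

open Polynomial

namespace Pool.Agent.SmN

open Pool.Agent.Sm (Uni iterC kerχ index_le_card commutator_le_kerχ)

open Classical in
/-- Chebotarev with square root error for induced odd class functions over `k(t)`, first version.
`Br` contains the primes which are ramified in the fixed field of `GN`. -/
def ChebInd {k G : Type*} [Field k] [Group G] (NN : Set (Subgroup G)) (GN : Subgroup G)
    (Br : Finset k[X]) (sg ph : k[X] → G) (q a C f0 : ℕ) : Prop :=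
  ∀ N : Subgroup GN, N.Normal → (∃ N0 ∈ NN, ∀ s ∈ N0, ∃ h : s ∈ GN, (⟨s, h⟩ : GN) ∈ N) →
    (∀ s : GN, s ^ 4 ∈ N) →
    ∀ f : GN → ℝ, (∀ s, ∀ n ∈ N, f (s * n) = f s) → (∀ s t, f (t * s * t⁻¹) = f s) →
    (∀ s, |f s| ≤ 1) → (∃ g ∈ commutator GN, ∀ s, f (s * g) = - f s) →
    ∀ d r : ℕ, f0 ∣ d →
    ∀ B : Finset k[X], Br ⊆ B → (∀ P, P.Monic → Irreducible P →
      (¬ ∀ g : G, ∃ h : g * sg P * g⁻¹ ∈ GN, (⟨_, h⟩ : GN) ∈ N) → P ∈ B) →
    ∑ P ∈ B, P.natDegree ≤ r →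
    ∀ R : Finset G, (∀ g : G, ∃! h, h ∈ R ∧ g⁻¹ * h ∈ GN) →
    ∀ E : Finset k[X],
      (∀ P, P ∈ E ↔ P.Monic ∧ Irreducible P ∧ P.natDegree = d ∧ P ∉ B ∧ ph P ∈ GN) →
    |∑ P ∈ E, ∑ g ∈ R, (if h : g * ph P * g⁻¹ ∈ GN then f ⟨_, h⟩ else 0)| ≤
      C * ((N.index : ℝ) * (r + 1)) ^ a * (q : ℝ) ^ (d / 2)

open Classical in
/-- Chebotarev with square root error for induced odd class functions. `R` is a set of representatives
of `G / GN`. -/
def ChebU {Pr G : Type*} [Group G] (NN : Set (Subgroup G)) (GN : Subgroup G) (R : Finset G)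
    (deg : Pr → ℕ) (sg ph : Pr → G) (q a C : ℕ) : Prop :=
  ∀ N : Subgroup GN, N.Normal → (∃ N0 ∈ NN, ∀ s ∈ N0, ∃ h : s ∈ GN, (⟨s, h⟩ : GN) ∈ N) →
    ∀ f : GN → ℝ, (∀ s, ∀ n ∈ N, f (s * n) = f s) → (∀ s t, f (t * s * t⁻¹) = f s) →
    (∀ s, |f s| ≤ 1) → (∃ g ∈ commutator GN, ∀ s, f (s * g) = - f s) →
    ∀ d r : ℕ, 1 ≤ d →
    ∀ B : Finset Pr, (∀ P, (¬ ∀ g : G, ∃ h : g * sg P * g⁻¹ ∈ GN, (⟨_, h⟩ : GN) ∈ N) → P ∈ B) →
    ∑ P ∈ B, deg P ≤ r →
    ∀ E : Finset Pr, (∀ P, P ∈ E ↔ deg P = d ∧ P ∉ B ∧ ph P ∈ GN) →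
    |∑ P ∈ E, ∑ g ∈ R, (if h : g * ph P * g⁻¹ ∈ GN then f ⟨_, h⟩ else 0)| ≤
      C * ((N.index : ℝ) * (r + 1)) ^ a * √((q : ℝ) ^ d)

/-- The cocycle relations with an action `ac` on the values. -/
structure IsA {ι G A : Type*} [DecidableEq ι] [Group G] [AddCommGroup A] [Module (ZMod 2) A]
    (ac : G →* (A ≃ₗ[ZMod 2] A)) (U : Uni ι G A) : Prop where
  hdl : ∀ i s t, U.dl i (s * t) = U.dl i s + U.dl i t
  coc : ∀ T s t, U.Phi T (s * t) =
    U.Phi T s + ∑ W ∈ T.powerset, (∏ i ∈ W, U.dl i s) • ac s (U.Phi (T \ W) t)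

/-- The restriction to a subgroup. -/
def resU {ι G A : Type*} [Group G] (U : Uni ι G A) (H : Subgroup G) : Uni ι H A where
  dl i s := U.dl i s
  Phi T s := U.Phi T s

section

variable {ι G A : Type*} [DecidableEq ι] [Group G] [AddCommGroup A] [Module (ZMod 2) A]
variable {ac : G →* (A ≃ₗ[ZMod 2] A)} {U : Uni ι G A}

theorem IsA.res (h : IsA ac U) {H : Subgroup G} (hH : ∀ s ∈ H, ac s = 1) : (resU U H).Is where
  hdl i s t := h.hdl i s t
  coc T s t := by
    change U.Phi T ((s : G) * (t : G)) = _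
    rw [h.coc T s t]
    have : ac (s : G) = 1 := hH _ s.2
    rw [this]
    rfl

theorem IsA.dl_one (h : IsA ac U) (i : ι) : U.dl i 1 = 0 := by
  have := h.hdl i 1 1
  rw [mul_one] at this
  simpa using this

theorem IsA.dl_inv (h : IsA ac U) (i : ι) (s : G) : U.dl i s⁻¹ = U.dl i s := by
  have h1 := h.hdl i s s⁻¹
  rw [mul_inv_cancel, h.dl_one i] at h1
  have hz : ∀ x y : ZMod 2, 0 = x + y → y = x := by decide
  exact hz _ _ h1

theorem IsA.dl_conj (h : IsA ac U) (i : ι) (s t : G) : U.dl i (t * s * t⁻¹) = U.dl i s := by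
  rw [h.hdl, h.hdl, h.dl_inv]
  generalize U.dl i s = x
  generalize U.dl i t = y
  revert x y
  decide

/-- If all the functions vanish at `s` and `ac s = 1` then they vanish at the conjugates of `s`. -/
theorem IsA.conj_zero (h : IsA ac U) {s : G} (hs : ac s = 1) (h1 : ∀ i, U.dl i s = 0)
    (h2 : ∀ T, U.Phi T s = 0) (g : G) (T : Finset ι) : U.Phi T (g * s * g⁻¹) = 0 := by
  have e1 := h.coc T (g * s * g⁻¹) g
  have e2 := h.coc T g s
  have e3 : g * s * g⁻¹ * g = g * s := by group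
  have e4 : ac (g * s * g⁻¹) = 1 := by
    rw [map_mul, map_mul, hs, mul_one, ← map_mul, mul_inv_cancel, map_one]
  rw [e3, e2] at e1
  have e5 : ∑ W ∈ T.powerset, (∏ i ∈ W, U.dl i g) • ac g (U.Phi (T \ W) s) = 0 := by
    apply Finset.sum_eq_zero
    intro W _
    rw [h2, map_zero, smul_zero]
  have e6 : ∑ W ∈ T.powerset, (∏ i ∈ W, U.dl i (g * s * g⁻¹)) •
      ac (g * s * g⁻¹) (U.Phi (T \ W) g) = U.Phi T g := by
    rw [Finset.sum_eq_single ∅]
    · rw [e4]
      simp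
    · intro W _ hW
      obtain ⟨i, hi⟩ := Finset.nonempty_iff_ne_empty.mpr hW
      rw [Finset.prod_eq_zero hi (by rw [h.dl_conj, h1]), zero_smul]
    · intro hh
      exact absurd (Finset.empty_mem_powerset T) hh
  rw [e5, e6, add_zero] at e1
  have : U.Phi T (g * s * g⁻¹) + U.Phi T g = 0 + U.Phi T g := by rw [zero_add]; exact e1.symm
  exact add_right_cancel this

end

/-- Indices of intersections. -/
theorem index_le_card' {G A : Type*} [Group G] [Finite A] (N : Subgroup G) (F : G → A)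
    (h : ∀ s t, F s = F t → s⁻¹ * t ∈ N) : N.index ≤ Nat.card A :=
  index_le_card N F h

open Classical in
/-- Cancellation in the sum over the pairs `(P, g)` in a Chebotarev class `Q`. -/
theorem mean_ind {Pr ι G A E' : Type*} [Fintype ι] [DecidableEq ι]
    [Nonempty ι] [Group G] [AddCommGroup A] [Module (ZMod 2) A] [Finite A] [Fintype E']
    {NN : Set (Subgroup G)} {GN : Subgroup G} [GN.Normal] {R : Finset G} {deg : Pr → ℕ}
    {sg ph : Pr → G} {q a C : ℕ} (hC : ChebU NN GN R deg sg ph q a C)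
    (hinf : ∀ N ∈ NN, ∀ N' ∈ NN, N ⊓ N' ∈ NN)
    {ac : G →* (A ≃ₗ[ZMod 2] A)} (hac : ∀ s ∈ GN, ac s = 1)
    (U : E' → Uni ι G A) (hU : ∀ e, IsA ac (U e))
    (hUf : ∀ e, ∃ N ∈ NN, ∀ s, ∀ n ∈ N,
      (∀ i, (U e).dl i (s * n) = (U e).dl i s) ∧ ∀ T, (U e).Phi T (s * n) = (U e).Phi T s)
    (lam : A →+ ZMod 2)
    (M : Subgroup G) (hMn : M.Normal) (hMG : M ≤ GN) (hMN : ∃ N ∈ NN, N ≤ M)
    (K0 : ℕ) (hM0 : M.index ≠ 0) (hMK : M.index ≤ K0)
    (Q : G → Prop) (hQ1 : ∀ s ∈ GN, ∀ n ∈ M, (Q (s * n) ↔ Q s))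
    (hQ2 : ∀ s ∈ GN, ∀ t ∈ GN, (Q (t * s * t⁻¹) ↔ Q s))
    (e0 : E') (g0 : G) (hg0 : g0 ∈ M) (σ : ι → G) (hσ : ∀ i, σ i ∈ GN)
    (h1 : ∀ e i, (U e).dl i g0 = 0) (h2 : ∀ e i l, l ≠ i → (U e).dl l (σ i) = 0)
    (h3 : ∀ i, (U e0).dl i (σ i) = 1) (h4 : lam ((U e0).Phi ∅ g0) = 1)
    (h5 : ∀ e, e ≠ e0 → (∃ i, (U e).dl i (σ i) = 0) ∨ (U e).Phi ∅ g0 = 0)
    (d r : ℕ) (hd : 1 ≤ d) (B : Finset Pr)
    (hB : ∀ P, P ∉ B → sg P ∈ M ∧ (∀ e i, (U e).dl i (sg P) = 0) ∧
      ∀ e T, (U e).Phi T (sg P) = 0)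
    (hr : ∑ P ∈ B, deg P ≤ r) (hBd : ∀ P ∈ B, deg P ≠ d)
    (E : Finset Pr) (hE : ∀ P, P ∈ E ↔ deg P = d ∧ ph P ∈ GN) :
    |∑ P ∈ E, ∑ g ∈ R with Q (g * ph P * g⁻¹), ∏ e, (U e).Kt lam (g * ph P * g⁻¹)| ≤
      C * (K0 * ((2 : ℝ) ^ Fintype.card ι *
        (Nat.card A : ℝ) ^ 2 ^ Fintype.card ι) ^ Fintype.card E' * (r + 1)) ^ a *
        √((q : ℝ) ^ d) := by
  have hU' : ∀ e, (resU (U e) GN).Is := fun e => (hU e).res hac
  set M' : Subgroup GN := M.subgroupOf GN with hM'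
  have hM'n : M'.Normal := by
    rw [hM']
    infer_instance
  set N : Subgroup GN := M' ⊓ ⨅ e, (resU (U e) GN).K1 (hU' e) with hN
  have hNmem : ∀ s, s ∈ N ↔ (s : G) ∈ M ∧ ∀ e, s ∈ (resU (U e) GN).K1 (hU' e) := by
    intro s
    rw [hN, Subgroup.mem_inf, Subgroup.mem_iInf, hM', Subgroup.mem_subgroupOf]
  have hNn : N.Normal := by
    refine ⟨fun n hn g => ?_⟩
    rw [hNmem] at hn ⊢
    exact ⟨hMn.conj_mem _ hn.1 g,
      fun e => (Uni.K1_normal (resU (U e) GN) (hU' e)).conj_mem n (hn.2 e) g⟩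
  -- `N` contains an element of `NN`
  have hfin1 : ∀ (b' : ℕ) (f : Fin b' → Subgroup G), (∀ j, f j ∈ NN) →
      ∃ N0 ∈ NN, N0 ≤ M ∧ ∀ j, N0 ≤ f j := by
    intro b'
    induction b' with
    | zero =>
      intro f _
      obtain ⟨N, h, h'⟩ := hMN
      exact ⟨N, h, h', fun j => j.elim0⟩
    | succ m ih =>
      intro f hf
      obtain ⟨N1, hN1, h', h⟩ := ih (fun j => f j.succ) (fun j => hf _)
      refine ⟨f 0 ⊓ N1, hinf _ (hf 0) _ hN1, inf_le_right.trans h', fun j => ?_⟩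
      refine Fin.cases inf_le_left (fun i => ?_) j
      exact inf_le_right.trans (h i)
  choose M1 hM1 hM1' using hUf
  have hN0 : ∃ N0 ∈ NN, ∀ s ∈ N0, ∃ h : s ∈ GN, (⟨s, h⟩ : GN) ∈ N := by
    obtain ⟨N1, hN1, hN1M, h1'⟩ := hfin1 (Fintype.card E')
      (fun j => M1 ((Fintype.equivFin E').symm j)) (fun j => hM1 _)
    refine ⟨N1, hN1, fun s hs => ?_⟩
    refine ⟨hMG (hN1M hs), ?_⟩
    rw [hNmem]
    refine ⟨hN1M hs, fun e => ?_⟩
    have h3' : s ∈ M1 e := by
      have := h1' (Fintype.equivFin E' e) hs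
      rwa [Equiv.symm_apply_apply] at this
    have h4' := hM1' e 1 s h3'
    rw [one_mul] at h4'
    refine ⟨fun i => ?_, fun T => ?_⟩
    · change (U e).dl i s = 0
      rw [h4'.1 i]
      exact (hU' e).dl_one i
    · change (U e).Phi T s = 0
      rw [h4'.2 T]
      exact (hU' e).Phi_one T
  -- the class function
  let f : GN → ℝ := fun s => (if Q s then 1 else 0) * ∏ e, (resU (U e) GN).Kt lam s
  have hf1 : ∀ s, ∀ n ∈ N, f (s * n) = f s := by
    intro s n hn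
    rw [hNmem] at hn
    change (if Q ((s : G) * (n : G)) then (1 : ℝ) else 0) *
      ∏ e, (resU (U e) GN).Kt lam (s * n) = _
    have e1 : Q ((s : G) * (n : G)) ↔ Q s := hQ1 s s.2 n hn.1
    have e2 : ∀ e, (resU (U e) GN).Kt lam (s * n) = (resU (U e) GN).Kt lam s :=
      fun e => (hU' e).Kt_K1 lam s (hn.2 e)
    simp only [e1, e2]
    rfl
  have hf2 : ∀ s t, f (t * s * t⁻¹) = f s := by
    intro s t
    change (if Q ((t : G) * (s : G) * (t : G)⁻¹) then (1 : ℝ) else 0) *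
      ∏ e, (resU (U e) GN).Kt lam (t * s * t⁻¹) = _
    have e1 : Q ((t : G) * (s : G) * (t : G)⁻¹) ↔ Q s := hQ2 s s.2 t t.2
    have e2 : ∀ e, (resU (U e) GN).Kt lam (t * s * t⁻¹) = (resU (U e) GN).Kt lam s :=
      fun e => (hU' e).Kt_conj lam s t
    simp only [e1, e2]
    rfl
  have hf3 : ∀ s, |f s| ≤ 1 := by
    intro s
    change |(if Q s then (1 : ℝ) else 0) * ∏ e, (resU (U e) GN).Kt lam s| ≤ 1
    rw [abs_mul, Finset.abs_prod]
    have e1 : |if Q s then (1 : ℝ) else 0| ≤ 1 := by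
      split_ifs <;> simp
    have e2 : ∏ e, |(resU (U e) GN).Kt lam s| ≤ 1 :=
      Finset.prod_le_one (fun e _ => abs_nonneg _) (fun e _ => Uni.Kt_abs _ _ _)
    exact mul_le_one₀ e1 (Finset.prod_nonneg fun e _ => abs_nonneg _) e2
  have hf4 : ∃ g ∈ commutator GN, ∀ s, f (s * g) = - f s := by
    let g0' : GN := ⟨g0, hMG hg0⟩
    let σ' : ι → GN := fun i => ⟨σ i, hσ i⟩
    refine ⟨iterC g0' (Finset.univ.toList.map σ'), Uni.iterC_mem g0' σ', fun s => ?_⟩
    set g := iterC g0' (Finset.univ.toList.map σ') with hg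
    -- the iterated commutator is in `M'`
    have hgM : g ∈ M' := by
      have key : ∀ (l : List GN) (x : GN), x ∈ M' → iterC x l ∈ M' := by
        intro l
        induction l with
        | nil => intro x hx; exact hx
        | cons y l ih =>
          intro x hx
          refine ih _ ?_
          have h6 := M'.mul_mem hx (hM'n.conj_mem _ (M'.inv_mem hx) y)
          simpa [commutatorElement_def, mul_assoc] using h6
      exact key _ _ (by rw [hM', Subgroup.mem_subgroupOf]; exact hg0)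
    have e1 : Q ((s : G) * (g : G)) ↔ Q s := hQ1 s s.2 g (by
      rwa [hM', Subgroup.mem_subgroupOf] at hgM)
    have e2 : ∀ e, (resU (U e) GN).Kt lam (s * g) =
        (if e = e0 then -1 else 1) * (resU (U e) GN).Kt lam s := by
      intro e
      obtain ⟨e3, e4⟩ := (hU' e).iter_univ (g := g0') (sg := σ') (h1 e) (h2 e)
      rw [(hU' e).Kt_mul lam s (g := g) e3, e4]
      congr 1
      by_cases he : e = e0
      · subst he
        have h6 : ∏ i, (resU (U e) GN).dl i (σ' i) = 1 := Finset.prod_eq_one fun i _ => h3 i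
        have h7 : lam ((resU (U e) GN).Phi ∅ g0') = 1 := h4
        rw [if_pos rfl, h6, one_smul, h7, if_neg one_ne_zero]
      · rw [if_neg he]
        rcases h5 e he with ⟨i, hi⟩ | h6
        · have h7 : ∏ i, (resU (U e) GN).dl i (σ' i) = 0 :=
            Finset.prod_eq_zero (Finset.mem_univ i) hi
          rw [h7, zero_smul, map_zero, if_pos rfl]
        · have h7 : (resU (U e) GN).Phi ∅ g0' = 0 := h6
          rw [h7, smul_zero, map_zero, if_pos rfl]
    change (if Q ((s : G) * (g : G)) then (1 : ℝ) else 0) *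
        ∏ e, (resU (U e) GN).Kt lam (s * g) =
      - ((if Q s then (1 : ℝ) else 0) * ∏ e, (resU (U e) GN).Kt lam s)
    simp only [e1, e2]
    rw [Finset.prod_mul_distrib, Finset.prod_ite_eq' Finset.univ e0]
    simp
  have hnot : ∀ P, P ∉ B → ∀ g : G, ∃ h : g * sg P * g⁻¹ ∈ GN, (⟨_, h⟩ : GN) ∈ N := by
    intro P hP3 g
    obtain ⟨p1, p3, p4⟩ := hB P hP3
    have p5 : g * sg P * g⁻¹ ∈ M := hMn.conj_mem _ p1 g
    refine ⟨hMG p5, ?_⟩
    rw [hNmem]
    refine ⟨p5, fun e => ⟨fun i => ?_, fun T => ?_⟩⟩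
    · change (U e).dl i (g * sg P * g⁻¹) = 0
      rw [(hU e).dl_conj]
      exact p3 e i
    · exact (hU e).conj_zero (hac _ (hMG p1)) (p3 e) (p4 e) g T
  have key := hC N hNn hN0 f hf1 hf2 hf3 hf4 d r hd B (by
    intro P hP4
    by_contra hP3
    exact hP4 (hnot P hP3)) hr E (by
    intro P
    rw [hE P]
    constructor
    · rintro ⟨p3, p4⟩
      exact ⟨p3, fun h => hBd P h p3, p4⟩
    · rintro ⟨p3, -, p4⟩
      exact ⟨p3, p4⟩)
  have hsum : ∑ P ∈ E, ∑ g ∈ R, (if h : g * ph P * g⁻¹ ∈ GN then f ⟨_, h⟩ else 0) =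
      ∑ P ∈ E, ∑ g ∈ R with Q (g * ph P * g⁻¹), ∏ e, (U e).Kt lam (g * ph P * g⁻¹) := by
    refine Finset.sum_congr rfl fun P hP => ?_
    rw [Finset.sum_filter]
    refine Finset.sum_congr rfl fun g _ => ?_
    have h6 : g * ph P * g⁻¹ ∈ GN :=
      (inferInstance : GN.Normal).conj_mem _ ((hE P).1 hP).2 g
    rw [dif_pos h6]
    change (if Q (g * ph P * g⁻¹) then (1 : ℝ) else 0) *
      ∏ e, (U e).Kt lam (g * ph P * g⁻¹) = _
    split_ifs <;> simp
  rw [hsum] at key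
  refine key.trans ?_
  -- the index
  have hM'0 : M'.index ≠ 0 ∧ M'.index ≤ K0 := by
    have h6 : M.relIndex GN * GN.index = M.index := Subgroup.relIndex_mul_index hMG
    have h7 : M'.index = M.relIndex GN := rfl
    rw [h7]
    constructor
    · intro h8
      rw [h8, zero_mul] at h6
      exact hM0 h6.symm
    · have h8 : GN.index ≠ 0 := by
        intro h9
        rw [h9, mul_zero] at h6
        exact hM0 h6.symm
      calc M.relIndex GN ≤ M.relIndex GN * GN.index :=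
            Nat.le_mul_of_pos_right _ (Nat.pos_of_ne_zero h8)
        _ = M.index := h6
        _ ≤ K0 := hMK
  have hfinM : Finite (GN ⧸ M') := by
    have : M'.FiniteIndex := ⟨hM'0.1⟩
    infer_instance
  have hidx : (N.index : ℝ) ≤ K0 * ((2 : ℝ) ^ Fintype.card ι *
        (Nat.card A : ℝ) ^ 2 ^ Fintype.card ι) ^ Fintype.card E' := by
    have h6 := index_le_card' N
      (fun s => (((s : GN ⧸ M'), fun e => (fun i => (resU (U e) GN).dl i s,
        fun T => (resU (U e) GN).Phi T s)) :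
        (GN ⧸ M') × (E' → (ι → ZMod 2) × (Finset ι → A)))) (by
      intro s t hst
      rw [Prod.ext_iff] at hst
      obtain ⟨e1, e2⟩ := hst
      rw [hNmem]
      refine ⟨?_, fun e => ?_⟩
      · have e3 : s⁻¹ * t ∈ M' := QuotientGroup.eq.1 e1
        rwa [hM', Subgroup.mem_subgroupOf] at e3
      · have e3 := congrFun e2 e
        simp only [Prod.mk.injEq] at e3
        exact (hU' e).mem_K1 (fun i => congrFun e3.1 i) (fun T => congrFun e3.2 T))
    rw [Nat.card_prod, Nat.card_fun, Nat.card_prod, Nat.card_fun,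
      Nat.card_fun] at h6
    have e5 : Nat.card (ZMod 2) = 2 := by simp
    have e6 : Nat.card ι = Fintype.card ι := Nat.card_eq_fintype_card
    have e7 : Nat.card (Finset ι) = 2 ^ Fintype.card ι := by
      rw [Nat.card_eq_fintype_card, Fintype.card_finset]
    have e8 : Nat.card E' = Fintype.card E' := Nat.card_eq_fintype_card
    rw [e5, e6, e7, e8] at h6
    have h7 : ((N.index : ℕ) : ℝ) ≤ ((K0 * (2 ^ Fintype.card ι *
        Nat.card A ^ 2 ^ Fintype.card ι) ^ Fintype.card E' : ℕ) : ℝ) := by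
      have h8 : N.index ≤ K0 * (2 ^ Fintype.card ι *
          Nat.card A ^ 2 ^ Fintype.card ι) ^ Fintype.card E' :=
        h6.trans (Nat.mul_le_mul_right _ hM'0.2)
      exact_mod_cast h8
    refine h7.trans (le_of_eq ?_)
    push_cast
    rfl
  gcongr

end Pool.Agent.SmN
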