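import Pool.Agent.Lib.SmN.Cnt.Defs
import Pool.Agent.Lib.SmN.I.MeanN
import Pool.Agent.Lib.SmBn.Grp

/-!
SmN, block I: Chebotarev for induced odd class functions (`ChebU`) from the full form `CData.Cheb`.
-/

set_option autoImplicit false

open Finset

namespace Pool.Agent.SmN.IC2

open Pool.Agent.SmBn

variable {G : Type*} [Group G]

/-- Representatives of `Geo / Geo ∩ K`. -/
theorem exists_reps (Geo K : Subgroup G) [Finite (G ⧸ K)] :
    ∃ T : Finset G, (∀ t ∈ T, t ∈ Geo) ∧ ∀ g ∈ Geo, ∃! t, t ∈ T ∧ t⁻¹ * g ∈ K := by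
  classical
  let A := {c : G ⧸ K // ∃ g ∈ Geo, (g : G ⧸ K) = c}
  have h1 : ∀ c : A, ∃ g ∈ Geo, (g : G ⧸ K) = c.1 := fun c => c.2
  choose r hr hr' using h1
  have hfin : (Set.range r).Finite := Set.finite_range r
  refine ⟨hfin.toFinset, fun t ht => ?_, fun g hg => ?_⟩
  · obtain ⟨c, rfl⟩ := hfin.mem_toFinset.1 ht
    exact hr c
  · let c0 : A := ⟨(g : G ⧸ K), g, hg, rfl⟩
    refine ⟨r c0, ⟨hfin.mem_toFinset.2 ⟨c0, rfl⟩, QuotientGroup.eq.1 (hr' c0)⟩, ?_⟩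
    rintro t ⟨ht, ht'⟩
    obtain ⟨c, rfl⟩ := hfin.mem_toFinset.1 ht
    have h2 : ((r c : G) : G ⧸ K) = (g : G ⧸ K) := QuotientGroup.eq.2 ht'
    rw [hr'] at h2
    have h3 : c = c0 := Subtype.ext h2
    rw [h3]

/-- Sums over representatives are invariant under translations by elements of `Geo`. -/
theorem sum_shift {Geo K : Subgroup G} (hK : K.Normal) {T : Finset G} (hT : ∀ t ∈ T, t ∈ Geo)
    (hT' : ∀ g ∈ Geo, ∃! t, t ∈ T ∧ t⁻¹ * g ∈ K) (φ : G → ℝ)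
    (hφ : ∀ s, ∀ n ∈ K, φ (s * n) = φ s) {g1 : G} (hg : g1 ∈ Geo) :
    ∑ t ∈ T, φ (t * g1) = ∑ t ∈ T, φ t := by
  have hch : ∀ t ∈ T, ∃ t', (t' ∈ T ∧ t'⁻¹ * (t * g1) ∈ K) := fun t ht =>
    (hT' (t * g1) (Geo.mul_mem (hT t ht) hg)).exists
  have huq : ∀ t1 ∈ T, ∀ t2 ∈ T, t1⁻¹ * t2 ∈ K → t1 = t2 := by
    intro t1 ht1 t2 ht2 h
    obtain ⟨h0, -, h2⟩ := hT' t2 (hT t2 ht2)
    rw [h2 t1 ⟨ht1, h⟩, h2 t2 ⟨ht2, by rw [inv_mul_cancel]; exact K.one_mem⟩]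
  choose! σ hσ1 hσ2 using hch
  refine sum_bij (fun t _ => σ t) (fun t ht => hσ1 t ht) ?_ ?_ ?_
  · intro t1 ht1 t2 ht2 h
    apply huq t1 ht1 t2 ht2
    have h1 := hσ2 t1 ht1
    have h2 := hσ2 t2 ht2
    have h' : σ t1 = σ t2 := h
    rw [h'] at h1
    have h3 := K.mul_mem (K.inv_mem h1) h2
    have h4 := hK.conj_mem _ h3 g1
    have h5 : g1 * (((σ t2)⁻¹ * (t1 * g1))⁻¹ * ((σ t2)⁻¹ * (t2 * g1))) * g1⁻¹ = t1⁻¹ * t2 := by
      group
    rwa [h5] at h4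
  · intro t' ht'
    obtain ⟨t, ⟨ht, h1⟩, -⟩ := hT' (t' * g1⁻¹) (Geo.mul_mem (hT t' ht') (Geo.inv_mem hg))
    refine ⟨t, ht, ?_⟩
    apply huq _ (hσ1 t ht) _ ht'
    have h2 := hσ2 t ht
    -- `(σ t)⁻¹ t g1 ∈ K`, `t⁻¹ t' g1⁻¹ ∈ K`
    have h3 := hK.conj_mem _ h1 g1⁻¹
    have h4 := K.mul_mem h2 h3
    have h5 : (σ t)⁻¹ * (t * g1) * (g1⁻¹ * (t⁻¹ * (t' * g1⁻¹)) * g1⁻¹⁻¹) = (σ t)⁻¹ * t' := by
      group
    rwa [h5] at h4
  · intro t ht
    have h2 := hσ2 t ht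
    have h3 : t * g1 = σ t * ((σ t)⁻¹ * (t * g1)) := by group
    rw [h3, hφ _ _ h2]

end Pool.Agent.SmN.IC2

namespace Pool.Agent.SmN.CData

open Pool.Agent.SmBn Pool.Agent.SmN.IC2

variable {G V V1 Pl : Type} [Group G] [AddCommGroup V] [DistribMulAction G V]
  [AddCommGroup V1] [Module (ZMod 2) V1] {S : Sys G V V1 Pl} {X : PSys}

/-- `G / ker ac` is finite. -/
theorem finite_quot (cd : CData S X) (hc : cd.Ok) : Finite (G ⧸ S.ac.ker) := by
  have hsurj : Function.Surjective (fun h : {h : G // h ∈ cd.R} =>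
      ((h : G) : G ⧸ S.ac.ker)) := by
    intro c
    obtain ⟨g, rfl⟩ := QuotientGroup.mk_surjective c
    obtain ⟨h, ⟨h1, h2⟩, -⟩ := hc.rep g
    exact ⟨⟨h, h1⟩, (QuotientGroup.eq.2 h2).symm⟩
  exact Finite.of_surjective _ hsurj

open Classical in
/-- Chebotarev for induced odd class functions. -/
theorem chebU (cd : CData S X) (hS : S.Ok) (hc : cd.Ok) (hX : ∀ d, Finite (X.Of d))
    (hNf : ∀ N ∈ S.NN, N.index ≠ 0) {Geo : Subgroup G} {fr : G} (hG : GeoOk (S := S) Geo fr)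
    {q a C : ℕ} (hC : cd.Cheb Geo fr q a C) :
    ChebU S.NN S.ac.ker cd.R X.deg (fun P => S.sg (cd.pl P)) (fun P => S.phi (cd.pl P)) q
      (a * S.ac.ker.index) (S.ac.ker.index ^ (a + 1) * C) := by
  intro N hNn hN0 f hf1 hf2 hf3 hg d r hd B hB hr E hE
  obtain ⟨N0, hN0m, hN0N⟩ := hN0
  obtain ⟨g0, hg0, hgf⟩ := hg
  have hfq := finite_quot cd hc
  have hfi : S.ac.ker.FiniteIndex := Subgroup.finiteIndex_of_finite_quotient
  have hftG : Fintype (G ⧸ S.ac.ker) := Fintype.ofFinite _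
  -- the core
  have hN0c : N0 ≤ core N := by
    have h1 : N0 ≤ N.map (Subgroup.subtype S.ac.ker) := by
      intro s hs
      obtain ⟨h, hN⟩ := hN0N s hs
      exact ⟨_, hN, rfl⟩
    have := hS.normal N0 hN0m
    exact Subgroup.normal_le_normalCore.2 h1
  have hfc : (core N).FiniteIndex := by
    have : N0.FiniteIndex := ⟨hNf N0 hN0m⟩
    exact Subgroup.finiteIndex_of_le hN0c
  have hfiN : N.FiniteIndex := by
    have h5 : (core N).subgroupOf S.ac.ker ≤ N := by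
      intro s hs
      exact mem_of_core hs
    have h6 : ((core N).subgroupOf S.ac.ker).FiniteIndex := inferInstance
    exact Subgroup.finiteIndex_of_le h5
  have hfq2 : Finite (G ⧸ core N) := Subgroup.finite_quotient_of_finiteIndex
  obtain ⟨T, hT1, hT2⟩ := exists_reps Geo (core N)
  set w : ℕ := S.ac.ker.index with hw
  have hw1 : 1 ≤ w := Nat.one_le_iff_ne_zero.2 hfi.index_ne_zero
  have hwR : (1 : ℝ) ≤ w := by exact_mod_cast hw1
  have hwR0 : (0 : ℝ) < w := lt_of_lt_of_le zero_lt_one hwR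
  let F : G → ℝ := fun s => ind f s / w
  have hF1 : ∀ s, ∀ n ∈ core N, F (s * n) = F s := by
    intro s n hn
    change ind f (s * n) / w = ind f s / w
    rw [ind_mul hf1 s hn]
  have hF2 : ∀ s t, F (t * s * t⁻¹) = F s := by
    intro s t
    change ind f (t * s * t⁻¹) / w = ind f s / w
    rw [ind_conj hf2]
  have hF3 : ∀ s, |F s| ≤ 1 := by
    intro s
    change |ind f s / w| ≤ 1
    rw [abs_div, Nat.abs_cast, div_le_one hwR0]
    exact ind_abs hf3 _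
  -- the mean value is zero
  have hmean : ∑ t ∈ T, F (fr ^ d * t) = 0 := by
    have h0 : ∑ t ∈ T, F (fr ^ d * t) =
        (∑ c : G ⧸ S.ac.ker, ∑ t ∈ T, ext f (c.out * (fr ^ d * t) * c.out⁻¹)) / w := by
      rw [sum_comm, sum_div]
      rfl
    rw [h0, sum_eq_zero, zero_div]
    intro c _
    set g1 : G := c.out⁻¹ * (g0 : G) * c.out with hg1
    have hg1c : g1 ∈ Geo := by
      apply hG.comm
      have h1 := Subgroup.Normal.conj_mem (H := commutator G) inferInstance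
        _ (commutator_sub hg0) c.out⁻¹
      rwa [inv_inv] at h1
    have h1 := sum_shift (core_normal N) hT1 hT2
      (fun t => ext f (c.out * (fr ^ d * t) * c.out⁻¹)) (fun s n hn => by
        have h2 : c.out * (fr ^ d * (s * n)) * c.out⁻¹ =
            (c.out * (fr ^ d * s) * c.out⁻¹) * (c.out * n * c.out⁻¹) := by group
        rw [h2, ext_mul hf1 _ (Subgroup.Normal.conj_mem inferInstance n hn _)]) hg1c
    have h2 : ∀ t ∈ T, ext f (c.out * (fr ^ d * (t * g1)) * c.out⁻¹) =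
        - ext f (c.out * (fr ^ d * t) * c.out⁻¹) := by
      intro t _
      have h3 : c.out * (fr ^ d * (t * g1)) * c.out⁻¹ =
          (c.out * (fr ^ d * t) * c.out⁻¹) * (g0 : G) := by
        rw [hg1]
        group
      rw [h3, ext_odd hgf]
    rw [sum_congr rfl h2, sum_neg_distrib] at h1
    linarith
  -- the set of the primes of degree `d`
  have hEf : {P : X.Pr | X.deg P = d}.Finite := Set.finite_coe_iff.1 (hX d)
  let E' : Finset X.Pr := {P ∈ hEf.toFinset | P ∉ B}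
  have hE' : ∀ P, P ∈ E' ↔ X.deg P = d ∧ P ∉ B := by
    intro P
    rw [mem_filter, Set.Finite.mem_toFinset]
    rfl
  have key := hC (core N) (core_normal N) ⟨N0, hN0m, hN0c⟩ F hF1 hF2 hF3 T hT1 hT2 d r hd B
    (fun P hP => hB P fun h => hP (mem_core.2 h)) hr E' hE'
  rw [hmean, zero_div, mul_zero, sub_zero] at key
  have hEsum : ∑ P ∈ E, ∑ g ∈ cd.R, ext f (g * S.phi (cd.pl P) * g⁻¹) =
      w * ∑ P ∈ E', F (S.phi (cd.pl P)) := by
    have h1 : ∀ P, ∑ g ∈ cd.R, ext f (g * S.phi (cd.pl P) * g⁻¹) = ind f (S.phi (cd.pl P)) :=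
      fun P => sum_rep hf2 hc.rep _
    have h3 : ∑ P ∈ E, ind f (S.phi (cd.pl P)) = ∑ P ∈ E', ind f (S.phi (cd.pl P)) := by
      refine sum_subset ?_ ?_
      · intro P hP
        obtain ⟨p1, p2, -⟩ := (hE P).1 hP
        exact (hE' P).2 ⟨p1, p2⟩
      · intro P hP hPE
        obtain ⟨p1, p2⟩ := (hE' P).1 hP
        exact ind_of_notMem fun h5 => hPE ((hE P).2 ⟨p1, p2, h5⟩)
    rw [sum_congr rfl fun P _ => h1 P, h3, mul_sum]
    refine sum_congr rfl fun P _ => ?_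
    change _ = (w : ℝ) * (ind f (S.phi (cd.pl P)) / w)
    rw [mul_div_cancel₀ _ hwR0.ne']
  change |∑ P ∈ E, ∑ g ∈ cd.R, ext f (g * S.phi (cd.pl P) * g⁻¹)| ≤ _
  rw [hEsum, abs_mul, Nat.abs_cast]
  -- numerics
  have hI1 : (1 : ℝ) ≤ N.index := by
    exact_mod_cast Nat.one_le_iff_ne_zero.2 hfiN.index_ne_zero
  have hr1 : (1 : ℝ) ≤ (r : ℝ) + 1 := by
    have : (0 : ℝ) ≤ r := Nat.cast_nonneg r
    linarith
  have hcI : ((core N).index : ℝ) ≤ w * (N.index : ℝ) ^ w := by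
    exact_mod_cast core_index_le (N := N)
  have h7 : (((core N).index : ℝ) * (r + 1)) ^ a ≤
      (w : ℝ) ^ a * ((N.index : ℝ) * (r + 1)) ^ (a * w) := by
    calc (((core N).index : ℝ) * (r + 1)) ^ a
        ≤ ((w * (N.index : ℝ) ^ w) * ((r : ℝ) + 1) ^ w) ^ a := by
          have h8 : (r : ℝ) + 1 ≤ ((r : ℝ) + 1) ^ w := le_self_pow₀ hr1 (by omega)
          gcongr
      _ = (w : ℝ) ^ a * ((N.index : ℝ) * (r + 1)) ^ (a * w) := by
          rw [mul_assoc, ← mul_pow, mul_pow (w : ℝ), ← pow_mul, mul_comm w a]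
  calc (w : ℝ) * |∑ P ∈ E', F (S.phi (cd.pl P))|
      ≤ w * (C * (((core N).index : ℝ) * (r + 1)) ^ a * √((q : ℝ) ^ d)) := by gcongr
    _ ≤ w * (C * ((w : ℝ) ^ a * ((N.index : ℝ) * (r + 1)) ^ (a * w)) * √((q : ℝ) ^ d)) := by
        gcongr
    _ = ((w ^ (a + 1) * C : ℕ) : ℝ) * ((N.index : ℝ) * (r + 1)) ^ (a * w) * √((q : ℝ) ^ d) := by
        push_cast
        ring

end Pool.Agent.SmN.CData
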