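import Pool.Agent.Lib.SmN.I.UniInst

/-!
SmN, block I: cancellation over the last coordinate (the hypothesis `hBd` of `grid_abs`) for an
abstract grid. The points of the last direction are the pairs `(P, g)` of a prime `P` of degree `D`,
split in the field of the 2-torsion, and `g ∈ R` such that the Frobenius element `g (phi P) g⁻¹` is in
a class `Q`.
-/

set_option autoImplicit false

open Finset

namespace Pool.Agent.SmN.CA

open Pool.Agent.Sm (Uni)

open Pool.Agent.SmN Pool.Agent.SmN.IT Pool.Agent.SmA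

variable {G V V1 Pl : Type*} [Group G] [AddCommGroup V] [DistribMulAction G V]
  [AddCommGroup V1] [Module (ZMod 2) V1] {S : Sys G V V1 Pl}
variable {m r : ℕ} {X : Option (Option (Fin m)) → Type*} {Γ : Grid S X}
variable {τ : Twr G V1 (Option (Option (Fin m))) r} {x0 : ∀ i, X i}

open Classical in
/-- The function `h` of `grid_abs`. -/
noncomputable def hh (τ : Twr G V1 (Option (Option (Fin m))) r) (Γ : Grid S X) (lam : V1 →+ ZMod 2)
    (x0 : ∀ i, X i) (x' : ∀ i : Option (Fin m), X (some i)) (P : X none) : ℝ :=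
  if τ.FG Γ x0 x' then (τ.UU Γ x0 x').Kt lam (Γ.phx none P) else 0

theorem hh_abs (lam : V1 →+ ZMod 2) (x' : ∀ i : Option (Fin m), X (some i)) (P : X none) :
    |hh τ Γ lam x0 x' P| ≤ 1 := by
  unfold hh
  split_ifs
  · exact Uni.Kt_abs _ _ _
  · simp

private theorem sum_biUnion_le' {α β : Type*} [DecidableEq α] [DecidableEq β] (s : Finset α)
    (t : α → Finset β) (f : β → ℕ) : ∑ x ∈ s.biUnion t, f x ≤ ∑ i ∈ s, ∑ x ∈ t i, f x := by
  induction s using Finset.induction_on with
  | empty => simp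
  | insert a s ha ih =>
    rw [biUnion_insert, sum_insert ha]
    have := sum_union_inter (s₁ := t a) (s₂ := s.biUnion t) (f := f)
    omega

private theorem sum_insert_le' {β : Type*} [DecidableEq β] (a : β) (s : Finset β) (f : β → ℕ) :
    ∑ x ∈ insert a s, f x ≤ f a + ∑ x ∈ s, f x := by
  by_cases h : a ∈ s
  · rw [insert_eq_of_mem h]
    exact Nat.le_add_left _ _
  · rw [sum_insert h]

variable [Fintype (X none)]

/-- The hypothesis `hBd` of `grid_abs`. -/
theorem hBd_abs {Pr : Type*} (hS : S.Ok) (hΓ : Γ.Ok) (hτ : τ.Ok Γ m) (hm : 1 ≤ m)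
    (hσ : τ.sig 0 = {some none}) {e : V1} (he : (τ.c 0).2 (some none) = e)
    (lam : V1 →+ ZMod 2) (hlam : lam e = 1) (pl : Pr → Pl) (deg : Pr → ℕ) {q a C : ℕ}
    (hC : ChebU S.NN S.ac.ker Γ.R deg (fun P => S.sg (pl P)) (fun P => S.phi (pl P)) q a C)
    (pr : ∀ i, X i → Pr) (hpl : ∀ i x, Γ.pl i x = pl (pr i x))
    (hinj : Function.Injective pl)
    (M : Subgroup G) (hMn : M.Normal) (hMG : M ≤ S.ac.ker) (hMN : ∃ N ∈ S.NN, N ≤ M)
    (hMs : ∀ v, v ∉ Γ.bad → S.sg v ∈ M)
    (K0 : ℕ) (hM0 : M.index ≠ 0) (hMK : M.index ≤ K0)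
    (Q : G → Prop) (hQ1 : ∀ s ∈ S.ac.ker, ∀ n ∈ M, (Q (s * n) ↔ Q s))
    (hQ2 : ∀ s ∈ S.ac.ker, ∀ t ∈ S.ac.ker, (Q (t * s * t⁻¹) ↔ Q s))
    (D R : ℕ) (hD : 1 ≤ D)
    (hX : ∀ P g, (∃ x : X none, pr none x = P ∧ Γ.cj none x = g) ↔
      deg P = D ∧ g ∈ Γ.R ∧ S.phi (pl P) ∈ S.ac.ker ∧ Q (g * S.phi (pl P) * g⁻¹))
    (E : Finset Pr) (hE : ∀ P, P ∈ E ↔ deg P = D ∧ S.phi (pl P) ∈ S.ac.ker)
    (B0 : Finset Pr) (hB0 : ∀ P, pl P ∈ Γ.bad → P ∈ B0)
    (hB0d : ∀ P ∈ B0, deg P ≠ D)
    (hDgD : ∀ i x, deg (pr (some i) x) ≠ D)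
    (hR : ∀ x y z : ∀ i : Option (Fin m), X (some i), ∑ P ∈ B0, deg P +
      ∑ i, (deg (pr (some i) (x i)) + deg (pr (some i) (y i)) +
        deg (pr (some i) (z i))) ≤ R)
    (x0 : ∀ i, X i) (ya yb : ∀ i : Option (Fin m), X (some i))
    (hab : ∀ i, ¬ Γ.pl (some i) (ya i) = Γ.pl (some i) (yb i) ∧
      ¬ Γ.pl (some i) (ya i) = Γ.pl (some i) (x0 (some i)) ∧
      ¬ Γ.pl (some i) (yb i) = Γ.pl (some i) (x0 (some i))) :
    |∑ P : X none, ∏ W : Finset (Option (Fin m)), hh τ Γ lam x0 (mix W ya yb) P| ≤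
      C * (K0 * ((2 : ℝ) ^ m * (Nat.card V1 : ℝ) ^ 2 ^ m) ^ 2 ^ (m + 1) * (R + 1)) ^ a *
        √((q : ℝ) ^ D) := by
  classical
  have := hS.fin1
  by_cases hFG : ∀ W, τ.FG Γ x0 (mix W ya yb)
  swap
  · push Not at hFG
    obtain ⟨W, hW⟩ := hFG
    have h0 : ∀ P : X none, ∏ W : Finset (Option (Fin m)), hh τ Γ lam x0 (mix W ya yb) P = 0 :=
      fun P => prod_eq_zero (mem_univ W) (if_neg hW)
    rw [sum_congr rfl fun P _ => h0 P, sum_const_zero, abs_zero]
    positivity
  have hne : Nonempty (Fin m) := ⟨⟨0, hm⟩⟩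
  let U : Finset (Option (Fin m)) → Uni (Fin m) G V1 := fun W => τ.UU Γ x0 (mix W ya yb)
  let B : Finset Pr := B0 ∪ univ.biUnion fun i : Option (Fin m) =>
    {pr (some i) (x0 (some i)), pr (some i) (ya i), pr (some i) (yb i)}
  have hsgM : ∀ (i : Option (Option (Fin m))) (x : X i), Γ.sgx i x ∈ M := fun i x =>
    hMn.conj_mem _ (hMs _ (hΓ.pl_bad i x)) _
  -- characters at the generators of the other directions
  have hdir : ∀ (i j : Option (Option (Fin m))) (x : X i) (y : X j), i ≠ j →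
      Γ.th i x (Γ.sgx j y) = 0 := fun i j x y hij =>
    Grid.th_sgx hΓ (Grid.ne_dir hΓ hij x y)
  have hmemB : ∀ i, pr (some i) (x0 (some i)) ∈ B ∧ pr (some i) (ya i) ∈ B ∧
      pr (some i) (yb i) ∈ B := by
    intro i
    have h1 : ∀ P ∈ ({pr (some i) (x0 (some i)), pr (some i) (ya i), pr (some i) (yb i)} :
        Finset Pr), P ∈ B := fun P hP =>
      mem_union_right _ (mem_biUnion.2 ⟨i, mem_univ i, hP⟩)
    exact ⟨h1 _ (by simp), h1 _ (by simp), h1 _ (by simp)⟩
  have key := mean_ind hC hS.inf_mem (ac := S.ac) (fun s hs => hs) U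
    (fun W => UU_is hS hΓ hτ hσ (hFG W))
    (fun W => UU_tf hS hΓ hτ (hFG W)) lam M hMn hMG hMN K0 hM0 hMK Q hQ1 hQ2
    (univ : Finset (Option (Fin m))) (Γ.sgx (some none) (yb none)) (hsgM _ _)
    (fun i => Γ.sgx (some (some i)) (yb (some i)))
    (fun i => hMG (hsgM _ _))
    (fun W i => by
      change Γ.th (some (some i)) _ _ + Γ.th (some (some i)) _ _ = 0
      rw [hdir _ _ _ _ (by simp), hdir _ _ _ _ (by simp), add_zero])
    (fun W i l hl => by
      change Γ.th (some (some l)) _ _ + Γ.th (some (some l)) _ _ = 0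
      rw [hdir _ _ _ _ (by simpa using hl), hdir _ _ _ _ (by simpa using hl), add_zero])
    (fun i => by
      change Γ.th (some (some i)) _ _ + Γ.th (some (some i)) (mix univ ya yb (some i)) _ = 1
      rw [Grid.th_sgx hΓ (hab (some i)).2.2, zero_add]
      have : mix univ ya yb (some i) = yb (some i) := by simp [mix]
      rw [this]
      exact Grid.th_sgx_self hΓ _ _)
    (by
      change lam ((τ.UU Γ x0 (mix univ ya yb)).Phi ∅ _) = 1
      rw [UU_empty hτ hS hm he (hFG univ), Grid.be_sgx hS hΓ (hab none).2.2, zero_add]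
      have : mix univ ya yb none = yb none := by simp [mix]
      rw [this, hΓ.be_self, hlam])
    (fun W hW => by
      obtain ⟨i, hi⟩ : ∃ i, i ∉ W := by
        by_contra hc
        push Not at hc
        exact hW (eq_univ_of_forall hc)
      have hmix : mix W ya yb i = ya i := by simp [mix, hi]
      cases i with
      | none =>
        right
        change (τ.UU Γ x0 (mix W ya yb)).Phi ∅ _ = 0
        rw [UU_empty hτ hS hm he (hFG W), Grid.be_sgx hS hΓ (hab none).2.2, hmix,
          Grid.be_sgx hS hΓ (Ne.symm (hab none).1), add_zero]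
      | some i =>
        left
        refine ⟨i, ?_⟩
        change Γ.th (some (some i)) _ _ + Γ.th (some (some i)) (mix W ya yb (some i)) _ = 0
        rw [Grid.th_sgx hΓ (hab (some i)).2.2, hmix,
          Grid.th_sgx hΓ (Ne.symm (hab (some i)).1), add_zero])
    D R hD B
    (by
      intro P hPB
      have hbad : pl P ∉ Γ.bad := fun h => hPB (mem_union_left _ (hB0 P h))
      have hx0 : ∀ i, pl P ≠ Γ.pl (some i) (x0 (some i)) := by
        intro i h
        rw [hpl] at h
        exact hPB ((hinj h) ▸ (hmemB i).1)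
      have hx1 : ∀ W i, pl P ≠ Γ.pl (some i) (mix W ya yb i) := by
        intro W i h
        rw [hpl] at h
        have h1 := hinj h
        by_cases hi : i ∈ W
        · have hmix : mix W ya yb i = yb i := by simp [mix, hi]
          rw [hmix] at h1
          exact hPB (h1 ▸ (hmemB i).2.2)
        · have hmix : mix W ya yb i = ya i := by simp [mix, hi]
          rw [hmix] at h1
          exact hPB (h1 ▸ (hmemB i).2.1)
      have hz := fun W => UU_sg hS hΓ hτ hσ (hFG W) hbad hx0 (hx1 W)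
      exact ⟨hMs _ hbad, fun W => (hz W).1, fun W => (hz W).2⟩)
    (by
      refine le_trans ?_ (hR (fun i => x0 (some i)) ya yb)
      have e1 := sum_union_inter (s₁ := B0) (s₂ := univ.biUnion fun i : Option (Fin m) =>
        {pr (some i) (x0 (some i)), pr (some i) (ya i), pr (some i) (yb i)})
        (f := fun P : Pr => deg P)
      have e2 := sum_biUnion_le' (univ : Finset (Option (Fin m))) (fun i : Option (Fin m) =>
        ({pr (some i) (x0 (some i)), pr (some i) (ya i), pr (some i) (yb i)} : Finset Pr))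
        (fun P : Pr => deg P)
      have e3 : ∀ i ∈ (univ : Finset (Option (Fin m))),
          ∑ P ∈ ({pr (some i) (x0 (some i)), pr (some i) (ya i), pr (some i) (yb i)} :
            Finset Pr), deg P ≤ deg (pr (some i) (x0 (some i))) +
              deg (pr (some i) (ya i)) + deg (pr (some i) (yb i)) := by
        intro i _
        have f1 := sum_insert_le' (pr (some i) (x0 (some i)))
          {pr (some i) (ya i), pr (some i) (yb i)} (fun P : Pr => deg P)
        have f2 := sum_insert_le' (pr (some i) (ya i)) {pr (some i) (yb i)}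
          (fun P : Pr => deg P)
        rw [sum_singleton] at f2
        omega
      have e4 := sum_le_sum e3
      have e5 : ∑ P ∈ B, deg P ≤ ∑ P ∈ B0, deg P +
          ∑ P ∈ univ.biUnion fun i : Option (Fin m) =>
            ({pr (some i) (x0 (some i)), pr (some i) (ya i), pr (some i) (yb i)} :
              Finset Pr), deg P := by
        rw [← e1]
        exact Nat.le_add_right _ _
      omega)
    (by
      intro P hP
      rcases mem_union.1 hP with h | h
      · exact hB0d P h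
      · obtain ⟨i, -, hi⟩ := mem_biUnion.1 h
        simp only [mem_insert, mem_singleton] at hi
        rcases hi with rfl | rfl | rfl <;> exact hDgD i _)
    E hE
  have hsum : ∑ P : X none, ∏ W : Finset (Option (Fin m)), hh τ Γ lam x0 (mix W ya yb) P =
      ∑ P ∈ E, ∑ g ∈ Γ.R with Q (g * S.phi (pl P) * g⁻¹),
        ∏ W, (U W).Kt lam (g * S.phi (pl P) * g⁻¹) := by
    rw [sum_sigma']
    refine sum_bij (fun x _ => ⟨pr none x, Γ.cj none x⟩) ?_ ?_ ?_ ?_
    · intro x _
      obtain ⟨h1, h2, h3, h4⟩ := (hX _ _).1 ⟨x, rfl, rfl⟩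
      exact mem_sigma.2 ⟨(hE _).2 ⟨h1, h3⟩, mem_filter.2 ⟨h2, h4⟩⟩
    · intro x _ y _ hxy
      simp only [Sigma.mk.injEq, heq_eq_eq] at hxy
      apply hΓ.pl_inj none
      · rw [hpl, hpl, hxy.1]
      · exact hxy.2
    · rintro ⟨P, g⟩ hP
      obtain ⟨h1, h2⟩ := mem_sigma.1 hP
      obtain ⟨h3, h4⟩ := (hE _).1 h1
      obtain ⟨h5, h6⟩ := mem_filter.1 h2
      obtain ⟨x, hx, hx'⟩ := (hX P g).2 ⟨h3, h5, h4, h6⟩
      exact ⟨x, mem_univ x, by rw [hx, hx']⟩
    · intro x _
      refine prod_congr rfl fun W _ => ?_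
      unfold hh
      rw [if_pos (hFG W)]
      unfold Grid.phx
      rw [hpl]
  rw [hsum]
  refine key.trans (le_of_eq ?_)
  rw [Fintype.card_fin, Fintype.card_finset, Fintype.card_option, Fintype.card_fin]

end Pool.Agent.SmN.CA
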