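import Pool.Agent.Lib.SmN.I.GridAbs
import Pool.Agent.Lib.SmN.I.UData
import Pool.Agent.Lib.SmN.I.Cancel
import Pool.Agent.Lib.SmN.I.Many

/-!
SmN, block I: the theorem over the abstract grid (grid_abs, I4, I5, cancellation).
-/

set_option autoImplicit false

open Finset

namespace Pool.Agent.SmN

open Pool.Agent.Sm (Uni)

open Pool.Agent.SmN.IT Pool.Agent.SmA

/-- The density constant of I4 (`M = #V1`, `g = #R`). -/
noncomputable def cGr (M g m r N : ℕ) (δ : ℝ) : ℝ :=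
  (δ / nCol M m r (m + 2)) ^ (2 ^ (m + 2)) / (nCls M g N r (m + 2) : ℝ) ^ (2 ^ (m + 2))

/-- The bound for the sums over the last coordinate (`M = #V1`). -/
noncomputable def bGr (M m K0 R a q C D : ℕ) : ℝ :=
  C * (K0 * ((2 : ℝ) ^ m * (M : ℝ) ^ 2 ^ m) ^ 2 ^ (m + 1) * (R + 1)) ^ a * √((q : ℝ) ^ D)

variable {G V V1 Pl : Type*} [Group G] [AddCommGroup V] [DistribMulAction G V]
  [AddCommGroup V1] [Module (ZMod 2) V1] {S : Sys G V V1 Pl}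
variable {m r : ℕ} {X : Option (Option (Fin m)) → Type*} {Γ : Grid S X}
variable {τ : Twr G V1 (Option (Option (Fin m))) r}
variable [∀ i, Fintype (X i)] [∀ i, Nonempty (X i)]

/-- The hypotheses on the last direction: the points of `X none` are the pairs `(P, g)`, `deg P = D`,
`phi P` acts trivially on the 2-torsion, `g ∈ R` and `g (phi P) g⁻¹` is in the class `Q`, which is
invariant under `M` and conjugation by elements of the kernel of the action on the 2-torsion. -/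
structure LastOk {Pr : Type*} (Γ : Grid S X) (pl : Pr → Pl) (deg : Pr → ℕ)
    (po : ∀ i, X i → Pr) (M : Subgroup G) (K0 : ℕ) (Q : G → Prop) (D : ℕ) (E B0 : Finset Pr)
    (rr : ℕ) : Prop where
  hpo : ∀ i x, Γ.pl i x = pl (po i x)
  inj : Function.Injective pl
  Mn : M.Normal
  MG : M ≤ S.ac.ker
  MN : ∃ N ∈ S.NN, N ≤ M
  Ms : ∀ v, v ∉ Γ.bad → S.sg v ∈ M
  M0 : M.index ≠ 0
  MK : M.index ≤ K0
  Q1 : ∀ s ∈ S.ac.ker, ∀ n ∈ M, (Q (s * n) ↔ Q s)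
  Q2 : ∀ s ∈ S.ac.ker, ∀ t ∈ S.ac.ker, (Q (t * s * t⁻¹) ↔ Q s)
  D1 : 1 ≤ D
  hX : ∀ P g, (∃ x : X none, po none x = P ∧ Γ.cj none x = g) ↔
    deg P = D ∧ g ∈ Γ.R ∧ S.phi (pl P) ∈ S.ac.ker ∧ Q (g * S.phi (pl P) * g⁻¹)
  hE : ∀ P, P ∈ E ↔ deg P = D ∧ S.phi (pl P) ∈ S.ac.ker
  hB0 : ∀ P, pl P ∈ Γ.bad → P ∈ B0
  hB0D : ∀ P ∈ B0, deg P ≠ D
  hpoD : ∀ i x, deg (po (some i) x) ≠ D
  hrr : ∀ x y z : ∀ i : Option (Fin m), X (some i), ∑ P ∈ B0, deg P +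
      ∑ i, (deg (po (some i) (x i)) + deg (po (some i) (y i)) +
        deg (po (some i) (z i))) ≤ rr

open Classical in
/-- Theorem I over an abstract grid. -/
theorem grid_end' {Pr : Type*} (hS : S.Ok) (hΓ : Γ.Ok) (hτ : τ.Ok Γ m) (hm : 1 ≤ m)
    (hσ : τ.sig 0 = {some none}) (hb : ∀ i, i ≠ none → τ.b.2 i = 0)
    (hee : S.e ((τ.c 0).2 (some none)) (τ.b.2 none) = 1)
    (N0 : ℕ) (hN0 : 0 < N0) (hsel : ∀ x ∈ τ.Y Γ m, {b | S.IsSel1 (Γ.chi x) b}.Finite ∧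
      {b | S.IsSel1 (Γ.chi x) b}.ncard ≤ N0)
    (hR : 0 < Γ.R.card)
    (pl : Pr → Pl) (deg : Pr → ℕ) {q a C : ℕ}
    (hC : ChebU S.NN S.ac.ker Γ.R deg (fun P => S.sg (pl P)) (fun P => S.phi (pl P)) q a C)
    (po : ∀ i, X i → Pr) (M : Subgroup G) (K0 : ℕ) (Q : G → Prop) (D : ℕ) (E B0 : Finset Pr)
    (rr : ℕ) (hL : LastOk Γ pl deg po M K0 Q D E B0 rr)
    (γ : ℝ) (hγ0 : 0 ≤ γ)
    (hγ : bGr (Nat.card V1) m K0 rr a q C D ^ 2 / (Fintype.card (X none) : ℝ) ^ 2 +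
      3 * Γ.R.card * ∑ i : Option (Fin m), 1 / (Fintype.card (X (some i)) : ℝ) ≤ γ ^ 2 ^ (m + 2))
    (δ c : ℝ) (hδ : 0 ≤ δ)
    (hc' : c ≤ cGr (Nat.card V1) Γ.R.card m r N0 δ)
    (hc : ∑ i, 1 / (Fintype.card (X i) : ℝ) ≤ c / 2) (N : ℕ) (hN : 2 ≤ c * N) :
    |∑ x ∈ univ with x ∈ τ.Y Γ m, (if τ.Fab Γ m x = 0 then (1 : ℝ) else -1)| ≤
      (δ + 2 ^ N * γ) * Fintype.card (∀ i, X i) := by
  have hcard : Fintype.card (Option (Option (Fin m))) = m + 2 := by simp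
  refine grid_abs (fun i a b => Γ.pl (some i) a = Γ.pl (some i) b)
    (fun i a b h => h.symm) Γ.R.card (fun i c => ?_) _
    (fun x => if τ.Fab Γ m x = 0 then (1 : ℝ) else -1) (fun x => ?_)
    (fun x0 x => τ.Good Γ m x0 x)
    (fun x0 x h => mem_filter.2 ⟨mem_univ x, IC.good_Y hS hΓ hτ hm hcard h⟩)
    (fun x0 => UD.hfac τ Γ m x0)
    (fun x0 x' P => CA.hh τ Γ (S.e.flip (τ.b.2 none)).toAddMonoidHom x0 x' P)
    (fun x0 x' P => CA.hh_abs _ _ _) (fun x0 => ?_)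
    (bGr (Nat.card V1) m K0 rr a q C D)
    (fun x0 ya yb hab => ?_) γ hγ0 ?_ δ c hδ (fun B hB hBδ => ?_) hc N hN
  · refine card_le_card_of_injOn (fun b => Γ.cj (some i) b) (fun b _ => hΓ.cj_mem _ b) ?_
    intro b hb b' hb' hbb
    have h1 := (mem_filter.1 hb).2
    have h2 := (mem_filter.1 hb').2
    exact hΓ.pl_inj (some i) b b' (h1.trans h2.symm) hbb
  · beta_reduce
    split_ifs <;> simp
  · obtain ⟨ψ, hψ1, hψ2⟩ := UD.form hS hΓ hτ hm hσ hb (S.e.flip (τ.b.2 none)).toAddMonoidHom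
      (fun w => rfl) x0
    refine ⟨ψ, hψ1, fun x hx => ?_⟩
    have h1 : CA.hh τ Γ (S.e.flip (τ.b.2 none)).toAddMonoidHom x0 (fun i => x (some i)) (x none) =
        (τ.UU Γ x0 (fun i => x (some i))).Kt (S.e.flip (τ.b.2 none)).toAddMonoidHom
          (Γ.phx none (x none)) :=
      if_pos (UD.good_FG hx)
    rw [h1]
    exact hψ2 x hx
  · exact CA.hBd_abs hS hΓ hτ hm hσ rfl (S.e.flip (τ.b.2 none)).toAddMonoidHom hee pl deg hC po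
      hL.hpo hL.inj M hL.Mn hL.MG hL.MN hL.Ms K0 hL.M0 hL.MK Q hL.Q1 hL.Q2 D rr hL.D1 hL.hX E hL.hE
      B0 hL.hB0 hL.hB0D hL.hpoD hL.hrr x0 ya yb hab
  · have h1 : Fintype.card (Option (Fin m)) + 1 = m + 2 := by simp
    rw [h1]
    exact hγ
  · have h1 := many_good hS hΓ hτ N0 hN0 hsel hR B (fun x hx => (mem_filter.1 (hB hx)).2) δ hδ hBδ
    rw [hcard] at h1
    refine le_trans ?_ h1
    unfold cGr at hc'
    gcongr

/-- The same with explicit constants. -/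
theorem grid_end {Pr : Type*} (hS : S.Ok) (hΓ : Γ.Ok) (hτ : τ.Ok Γ m) (hm : 1 ≤ m)
    (hσ : τ.sig 0 = {some none}) (hb : ∀ i, i ≠ none → τ.b.2 i = 0)
    (hee : S.e ((τ.c 0).2 (some none)) (τ.b.2 none) = 1)
    (N0 : ℕ) (hN0 : 0 < N0) (hsel : ∀ x ∈ τ.Y Γ m, {b | S.IsSel1 (Γ.chi x) b}.Finite ∧
      {b | S.IsSel1 (Γ.chi x) b}.ncard ≤ N0)
    (hR : 0 < Γ.R.card)
    (pl : Pr → Pl) (deg : Pr → ℕ) {q a C : ℕ}
    (hC : ChebU S.NN S.ac.ker Γ.R deg (fun P => S.sg (pl P)) (fun P => S.phi (pl P)) q a C)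
    (po : ∀ i, X i → Pr) (M : Subgroup G) (K0 : ℕ) (Q : G → Prop) (D : ℕ) (E B0 : Finset Pr)
    (rr : ℕ) (hL : LastOk Γ pl deg po M K0 Q D E B0 rr)
    (Y : Finset (∀ i, X i)) (hY : ∀ x, x ∈ Y ↔ x ∈ τ.Y Γ m)
    (γ : ℝ) (hγ0 : 0 ≤ γ)
    (hγ : bGr (Nat.card V1) m K0 rr a q C D ^ 2 / (Fintype.card (X none) : ℝ) ^ 2 +
      3 * Γ.R.card * ∑ i : Option (Fin m), 1 / (Fintype.card (X (some i)) : ℝ) ≤ γ ^ 2 ^ (m + 2))
    (δ : ℝ) (hδ : 0 ≤ δ)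
    (hc : ∑ i, 1 / (Fintype.card (X i) : ℝ) ≤ cGr (Nat.card V1) Γ.R.card m r N0 δ / 2) (N : ℕ)
    (hN : 2 ≤ cGr (Nat.card V1) Γ.R.card m r N0 δ * N) :
    |∑ x ∈ Y, (if τ.Fab Γ m x = 0 then (1 : ℝ) else -1)| ≤
      (δ + 2 ^ N * γ) * Fintype.card (∀ i, X i) := by
  classical
  have h1 := grid_end' hS hΓ hτ hm hσ hb hee N0 hN0 hsel hR pl deg hC po M K0 Q D E B0 rr hL
    γ hγ0 hγ δ (cGr (Nat.card V1) Γ.R.card m r N0 δ) hδ le_rfl hc N hN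
  have h2 : Y = univ.filter fun x => x ∈ τ.Y Γ m := by
    ext x
    rw [hY]
    simp
  rw [h2]
  exact h1

end Pool.Agent.SmN
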