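import Pool.Agent.Lib.SmN.I.CodeN
import Pool.Agent.Lib.SmN.I.Delta
import Pool.Agent.Lib.SmN.G6.TowerN
import Pool.Agent.Lib.Sm.G.TowerC

/-!
# SMITH-U (SmN), block I (I2, I3): the type data of a grid of marked primes
-/

set_option autoImplicit false

open Finset

namespace Pool.Agent.SmN.CData

open Pool.Agent.Sm (Tower Adapted)
open Pool.Agent.SmN.IT

variable {G V V1 Pl : Type} [Group G] [AddCommGroup V] [DistribMulAction G V]
  [AddCommGroup V1] [Module (ZMod 2) V1] {S : Sys G V V1 Pl} {X : PSys} {cd : CData S X}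
  {J : Type} [Fintype J] {m : ℕ} {p : J → cd.Mk} {dir : Dir m ↪ J}

omit [Fintype J] in
theorem hUp (p : J → cd.Mk) : ∀ c, c ∈ cd.VF p ↔ cd.ValidN p c := fun _ => Iff.rfl

theorem hUx (hc : cd.Ok) (hd : cd.DirOk p dir) (x : ∀ i, cd.XB p dir i) :
    ∀ c, c ∈ cd.VF p ↔ cd.ValidN (rxN p dir x) c := fun c => (valid_rxN hc hd x c).symm

/-- The code over the grid of a valid code. -/
noncomputable def gcU (p : J → cd.Mk) (dir : Dir m ↪ J) (c : cd.VF p) : GCode G V1 (Dir m) :=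
  gcodeN p dir c.1

theorem gcU_inj (hc : cd.Ok) (hd : cd.DirOk p dir) : Function.Injective (gcU p dir) :=
  fun c c' h => Subtype.ext (gcodeN_inj hc hd c.2 c'.2 h)

/-- The type data over the grid from the data over `J`. -/
noncomputable def mkTwrN (p : J → cd.Mk) (dir : Dir m ↪ J) {n : ℕ} (c : Fin (n + 1) → cd.VF p)
    (jl : Fin (n + 1) → ℕ) (f : Fin (n + 1) → cd.VF p → ZMod 2)
    (sig : Fin (n + 1) → Finset (Dir m)) (b : cd.CodeN J) : Twr G V1 (Dir m) n where
  c l := gcU p dir (c l)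
  jl := jl
  fl l g := f l (Function.invFun (gcU p dir) g)
  sig := sig
  b := gcodeN p dir b

/-- Towers over the grid and over `J`. -/
theorem isTowN_iff (hS : S.Ok) (hc : cd.Ok) (hd : cd.DirOk p dir) (hΓ : (cd.gridN p dir).Ok)
    {n : ℕ} {c : Fin (n + 1) → cd.VF p} {jl : Fin (n + 1) → ℕ}
    {f : Fin (n + 1) → cd.VF p → ZMod 2} {sig : Fin (n + 1) → Finset (Dir m)} {b : cd.CodeN J}
    {x : ∀ i, cd.XB p dir i} (hx : x ∈ (cd.gridN p dir).Xs) (l : Fin (n + 1)) (Psi : G → V) :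
    (mkTwrN p dir c jl f sig b).IsTow (cd.gridN p dir) m x l Psi ↔
      cd.AbvN (rxN p dir x) (jl l) (c l).1 Psi ∧
        (jl l < m → ∀ c' : cd.VF p, c'.1 ∈ cd.FN p →
          S.CT (cd.chiN (rxN p dir x)) Psi (cd.homN (rxN p dir x) c'.1) = f l c') := by
  have hinv : ∀ c' : cd.VF p, Function.invFun (gcU p dir) (gcU p dir c') = c' :=
    Function.leftInverse_invFun (gcU_inj hc hd)
  constructor
  · intro ht
    have h1 := ht.sel
    have h2 := ht.base
    rw [chi_gridN] at h1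
    refine ⟨⟨h1, fun s => ?_⟩, fun hl c' hc' => ?_⟩
    · rw [← ch_gridN]
      exact h2 s
    · have h3 := ht.val hl (gcU p dir c') (by
        rw [gcU, gcodeN_mem_FF hS hc hΓ hd hx c'.2, FN_rxN hS hc hd hx]
        exact hc')
      rw [chi_gridN, gcU, ch_gridN] at h3
      rw [h3]
      change f l (Function.invFun (gcU p dir) (gcU p dir c')) = f l c'
      rw [hinv]
  · rintro ⟨⟨h1, h2⟩, h3⟩
    refine ⟨?_, fun s => ?_, fun hl g hg => ?_⟩
    · rw [chi_gridN]
      exact h1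
    · change _ = S.iota ((cd.gridN p dir).ch (gcodeN p dir (c l).1) x s)
      rw [ch_gridN]
      exact h2 s
    · obtain ⟨c', hv, rfl⟩ := exists_gcodeN hS hc hd hΓ hg.1
      have hc' : c' ∈ cd.FN p := by
        rw [gcodeN_mem_FF hS hc hΓ hd hx hv, FN_rxN hS hc hd hx] at hg
        exact hg
      rw [chi_gridN, ch_gridN]
      change _ = f l (Function.invFun (gcU p dir) (gcU p dir ⟨c', hv⟩))
      rw [hinv]
      exact h3 hl ⟨c', hv⟩ hc'

/-! ### The basis -/

/-- The basis as a family of valid codes. -/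
def basU {a b : cd.CodeN J}
    (su : cd.SuppN (cd.FN p) (cd.LflN (cd.FN p) (cd.LamN p)) m a b dir) (l : Fin su.r) :
    cd.VF p := ⟨su.c l, FN_le (hUp p) (su.mem l)⟩

omit [Fintype J] in
theorem sum_coe {n : ℕ} (U : Submodule (ZMod 2) (cd.CodeN J)) (α : Fin n → ZMod 2)
    (c : Fin n → U) : ((∑ l, α l • c l : U) : cd.CodeN J) = ∑ l, α l • (c l).1 := by
  rw [Submodule.coe_sum]
  rfl

/-- The basis of `SuppN` is adapted in the sense of the tower. -/
theorem adapted_of_suppN [Nonempty J] (hS : S.Ok) (hc : cd.Ok) (hp : cd.PVecN p)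
    {a b : cd.CodeN J}
    (su : cd.SuppN (cd.FN p) (cd.LflN (cd.FN p) (cd.LamN p)) m a b dir) :
    Adapted (twN cd hS hc p (cd.VF p) (hUp p)).Fs (twN cd hS hc p (cd.VF p) (hUp p)).L
      (twN cd hS hc p (cd.VF p) (hUp p)).Kp m (basU su) where
  mem i := (mem_twN_Fs hS hc (hUp p) _).2 (su.mem i)
  indep x hx := by
    obtain ⟨w, hw⟩ := (mem_twN_Kp hS hc (hUp p) hp _).1 hx
    rw [sum_coe] at hw
    exact su.indep x w hw
  span a ha := by
    obtain ⟨α, w, hw⟩ := su.span a.1 ((mem_twN_Fs hS hc (hUp p) a).1 ha)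
    refine ⟨α, (mem_twN_Kp hS hc (hUp p) hp _).2 ⟨w, ?_⟩⟩
    have h1 : ((a - ∑ i, α i • basU su i : cd.VF p) : cd.CodeN J) =
        a.1 - ∑ l, α l • su.c l := by
      rw [AddSubgroupClass.coe_sub, sum_coe]
      rfl
    rw [h1, hw, add_sub_cancel_right]
  adapt j hj hjm x hx i hi := by
    have h1 : ∑ i, x i • su.c i ∈ cd.LflN (cd.FN p) (cd.LamN p) j := by
      have := (mem_LflN_iff_tw hS hc (hUp p) hp hj _).2 hx
      rwa [sum_coe] at this
    obtain ⟨α, w, hw, hα⟩ := su.adapted j hj hjm _ h1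
    have h2 : ∑ i, (x i - α i) • su.c i = cd.kapN J w := by
      simp only [sub_smul, sum_sub_distrib]
      rw [hw, add_sub_cancel_right]
    have h3 := congrFun (su.indep (fun i => x i - α i) w h2) i
    have h4 : x i = α i := sub_eq_zero.1 h3
    rw [← mem_LflN_iff_tw hS hc (hUp p) hp hj]
    exact hα i (h4 ▸ hi)

/-- The number of elements of the basis. -/
theorem suppN_r_le (hS : S.Ok) (hc : cd.Ok) {a b : cd.CodeN J}
    (su : cd.SuppN (cd.FN p) (cd.LflN (cd.FN p) (cd.LamN p)) m a b dir) :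
    2 ^ su.r ≤ Nat.card (cd.FN p) := by
  have := hS.fin1
  let f : (Fin su.r → ZMod 2) → cd.FN p := fun x => ⟨∑ l, x l • su.c l, by
    have h1 : (∑ l, x l • basU su l : cd.VF p) ∈ (twN cd hS hc p (cd.VF p) (hUp p)).Fs :=
      Submodule.sum_mem _ fun l _ => Submodule.smul_mem _ _
        ((mem_twN_Fs hS hc (hUp p) _).2 (su.mem l))
    have h2 := (mem_twN_Fs hS hc (hUp p) _).1 h1
    rwa [sum_coe] at h2⟩
  have hf : Function.Injective f := by
    intro x y hxy
    have h1 : ∑ l, x l • su.c l = ∑ l, y l • su.c l := congrArg Subtype.val hxy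
    have h2 : ∑ l, (x l - y l) • su.c l = cd.kapN J 0 := by
      simp only [sub_smul, sum_sub_distrib]
      rw [h1, sub_self, kapN_zero]
    have h3 := su.indep (fun l => x l - y l) 0 h2
    funext l
    exact sub_eq_zero.1 (congrFun h3 l)
  have h1 := Nat.card_le_card_of_injective f hf
  rwa [Nat.card_fun, Nat.card_zmod, Nat.card_eq_fintype_card, Fintype.card_fin] at h1

/-- The points of a type. -/
theorem typN_iff [Nonempty J] (hS : S.Ok) (hc : cd.Ok) (hd : cd.DirOk p dir)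
    (hm : 1 ≤ m) {r : ℕ} {c : Fin r → cd.VF p} {jl : Fin r → ℕ} {f : Fin r → cd.VF p → ZMod 2}
    (had : Adapted (twN cd hS hc p (cd.VF p) (hUp p)).Fs (twN cd hS hc p (cd.VF p) (hUp p)).L
      (twN cd hS hc p (cd.VF p) (hUp p)).Kp m c)
    (h1 : ∀ l, 1 ≤ jl l) (h2 : ∀ l, jl l ≤ m)
    (h3 : ∀ l, c l ∈ (twN cd hS hc p (cd.VF p) (hUp p)).L (jl l))
    (h4 : ∀ l, jl l < m → c l ∉ (twN cd hS hc p (cd.VF p) (hUp p)).L (jl l + 1))
    (h5 : ∀ l, jl l < m → (c l, f l) ∈ (twN cd hS hc p (cd.VF p) (hUp p)).Lam (jl l))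
    {x : ∀ i, cd.XB p dir i} (hx : x ∈ (cd.gridN p dir).Xs) :
    (∀ l, ∃ Psi, cd.AbvN (rxN p dir x) (jl l) (c l).1 Psi ∧
        (jl l < m → ∀ c' : cd.VF p, c'.1 ∈ cd.FN p →
          S.CT (cd.chiN (rxN p dir x)) Psi (cd.homN (rxN p dir x) c'.1) = f l c')) ↔
      ∀ i, 1 ≤ i → i < m → cd.LamN (rxN p dir x) i = cd.LamN p i := by
  have hF := FN_rxN hS hc hd hx
  have hp := hd.vec
  have hq := pvec_rxN hd x
  have hUq := hUx hc hd x
  set q := rxN p dir x with hqd
  have hFs : (twN cd hS hc q (cd.VF p) hUq).Fs = (twN cd hS hc p (cd.VF p) (hUp p)).Fs := by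
    ext a
    rw [mem_twN_Fs, mem_twN_Fs, hF]
  have hKp : (twN cd hS hc q (cd.VF p) hUq).Kp = (twN cd hS hc p (cd.VF p) (hUp p)).Kp := by
    ext a
    rw [mem_twN_Kp hS hc hUq hq, mem_twN_Kp hS hc (hUp p) hp]
  constructor
  · intro ht i hi him
    choose Psi hP1 hP2 using ht
    obtain ⟨Psi0, e1, e2, e3⟩ := Tower.exists_Psi (W := twN cd hS hc p (cd.VF p) (hUp p))
      (k := m) (jl := jl) (f := f) h5 (fun l _ => h3 l)
    rw [LamN_congr hS hc hUq hq (hUp p) hp hi]
    refine Tower.lam_same (twN_ok hS hc hUq hq) (twN_ok hS hc (hUp p) hp) hFs hKp (k := m)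
      (cc := c) ?_ (jl := jl) (f := f) ?_ (Psi := Psi)
      (fun l => ((abvN_iff hS hc hUq).1 (hP1 l)).1)
      (fun l => ((abvN_iff hS hc hUq).1 (hP1 l)).2) ?_ (Psi' := Psi0) e1 e2 e3 hi him
    · intro a ha
      rw [hFs] at ha
      obtain ⟨y, hy⟩ := had.span a ha
      exact ⟨y, by rw [hKp]; exact hy⟩
    · intro y hy h0
      exact Tower.f_indep (twN_ok hS hc (hUp p) hp) had h1 h4 h5 y hy
        (fun D hD => h0 D (hFs ▸ hD))
    · intro l hl D hD
      rw [twN_PV hS hc hUq]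
      refine hP2 l hl D ?_
      rw [hFs] at hD
      exact (mem_twN_Fs hS hc (hUp p) D).1 hD
  · intro ht l
    by_cases hl : jl l < m
    · have e1 : ((c l).1, extU (cd.VF p) (f l)) ∈ cd.LamN q (jl l) := by
        rw [ht _ (h1 l) hl, mem_LamN_iff hS hc (hUp p) hp (h1 l)]
        exact ⟨(c l, f l), h5 l hl, rfl, rfl⟩
      obtain ⟨-, Psi, e2, e3, -⟩ := e1
      refine ⟨Psi, e2, fun _ c' hc' => ?_⟩
      have e4 := e3 c'.1 (by rw [hF]; exact hc')
      rw [← e4]
      exact extU_mem (f l) c'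
    · have hjl : jl l = m := le_antisymm (h2 l) (not_lt.1 hl)
      have e0 : cd.LflN (cd.FN q) (cd.LamN q) m = cd.LflN (cd.FN p) (cd.LamN p) m := by
        rw [hF]
        obtain ⟨m', rfl⟩ := Nat.exists_eq_add_of_le' hm
        cases m' with
        | zero => rfl
        | succ m' =>
          change {a | (a, 0) ∈ cd.LamN q (m' + 1)} = {a | (a, 0) ∈ cd.LamN p (m' + 1)}
          rw [ht (m' + 1) (by omega) (by omega)]
      have e1 : (c l).1 ∈ cd.LflN (cd.FN q) (cd.LamN q) m := by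
        rw [e0, mem_LflN_iff_tw hS hc (hUp p) hp hm, ← hjl]
        exact h3 l
      obtain ⟨Psi, e2⟩ := (mem_LflN_iff hS hc hUq hq hm _).1 e1
      rw [hjl]
      exact ⟨Psi, e2, fun hh => absurd hh (lt_irrefl m)⟩

/-- The type data of a grid. -/
theorem exists_twrN (hS : S.Ok) (hc : cd.Ok) (hd : cd.DirOk p dir)
    (hΓ : (cd.gridN p dir).Ok) (hm : 1 ≤ m) {a b : cd.CodeN J}
    (ha : a ∈ cd.LflN (cd.FN p) (cd.LamN p) m) (hb : b ∈ cd.FN p)
    (hP : cd.PerpN (cd.LamN p) (m - 1) b)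
    (su : cd.SuppN (cd.FN p) (cd.LflN (cd.FN p) (cd.LamN p)) m a b dir) :
    ∃ (n : ℕ) (τ : Twr G V1 (Dir m) n), n + 1 = su.r ∧ τ.Ok (cd.gridN p dir) m ∧
      τ.sig 0 = {some none} ∧ (τ.c 0).2 (some none) = su.e ∧ (∀ i, i ≠ none → τ.b.2 i = 0) ∧
      τ.b.2 none = su.e' ∧
      (∀ x, x ∈ τ.Y (cd.gridN p dir) m ↔ cd.TypEqN dir (rxN p dir x) p) ∧
      ∀ x ∈ τ.Y (cd.gridN p dir) m, τ.Fab (cd.gridN p dir) m x =
        cd.FFN (rxN p dir x) m a b := by
  classical
  have hJ : Nonempty J := ⟨dir none⟩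
  have hp := hd.vec
  -- the order of the basis
  obtain ⟨n, hn⟩ : ∃ n, n + 1 = su.r := ⟨su.r - 1, by
    have := su.l1.2
    omega⟩
  obtain ⟨e, he⟩ : ∃ e : Fin (n + 1) ≃ Fin su.r, e 0 = su.l1 :=
    ⟨(finCongr hn).trans (Equiv.swap (finCongr hn 0) su.l1), by
      rw [Equiv.trans_apply, Equiv.swap_apply_left]⟩
  have had := adapted_of_suppN hS hc hp su
  have had' : Adapted (twN cd hS hc p (cd.VF p) (hUp p)).Fs
      (twN cd hS hc p (cd.VF p) (hUp p)).L (twN cd hS hc p (cd.VF p) (hUp p)).Kp m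
      (fun l => basU su (e l)) := by
    have hsum : ∀ x : Fin (n + 1) → ZMod 2,
        ∑ l, x l • basU su (e l) = ∑ l, x (e.symm l) • basU su l := by
      intro x
      rw [← Equiv.sum_comp e (fun l => x (e.symm l) • basU su l)]
      exact sum_congr rfl fun l _ => by rw [Equiv.symm_apply_apply]
    refine ⟨fun i => had.mem _, fun x hx => ?_, fun a ha => ?_, fun j hj hjm x hx i hi => ?_⟩
    · rw [hsum] at hx
      have h1 := had.indep (fun l => x (e.symm l)) hx
      funext l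
      have h2 := congrFun h1 (e l)
      rwa [Equiv.symm_apply_apply] at h2
    · obtain ⟨y, hy⟩ := had.span a ha
      refine ⟨fun l => y (e l), ?_⟩
      rw [hsum]
      simp only [Equiv.apply_symm_apply]
      exact hy
    · rw [hsum] at hx
      have h1 := had.adapt j hj hjm (fun l => x (e.symm l)) hx (e i)
      rw [Equiv.symm_apply_apply] at h1
      exact h1 hi
  obtain ⟨jl, f, h1, h2, h3, h4, h5, h6⟩ := Tower.exists_jl (twN_ok hS hc (hUp p) hp) hm
    (cc := fun l => basU su (e l)) had'.mem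
  set sig : Fin (n + 1) → Finset (Dir m) := fun l =>
    if l = 0 then {some none} else if e l = su.l0 then {none} else ∅ with hsig
  have hY : ∀ x, x ∈ (mkTwrN p dir (fun l => basU su (e l)) jl f sig b).Y
      (cd.gridN p dir) m ↔ cd.TypEqN dir (rxN p dir x) p := by
    intro x
    constructor
    · rintro ⟨hx, ht⟩
      refine ⟨(mem_XsN x).1 hx, FN_rxN hS hc hd hx, ?_⟩
      rw [← typN_iff hS hc hd hm had' h1 h2 h3 h4 h5 hx]
      intro l
      obtain ⟨Psi, hPsi⟩ := ht l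
      exact ⟨Psi, (isTowN_iff hS hc hd hΓ hx l Psi).1 hPsi⟩
    · rintro ⟨hx, -, ht⟩
      have hx' := (mem_XsN x).2 hx
      refine ⟨hx', fun l => ?_⟩
      obtain ⟨Psi, hPsi⟩ := (typN_iff hS hc hd hm had' h1 h2 h3 h4 h5 hx').2 ht l
      exact ⟨Psi, (isTowN_iff hS hc hd hΓ hx' l Psi).2 hPsi⟩
  have hjl0 : jl 0 = m := by
    apply h6
    change basU su (e 0) ∈ _
    rw [← mem_LflN_iff_tw hS hc (hUp p) hp hm]
    change su.c (e 0) ∈ _
    rw [he, su.c_l1]
    exact ha
  have hbdir : ∀ i, b.2 (dir i) = ∑ l, su.β l • (su.c l).2 (dir i) := by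
    intro i
    conv_lhs => rw [su.b_eq]
    rw [Prod.snd_sum, Finset.sum_apply]
    rfl
  have hperp : ∀ x, cd.TypEqN dir (rxN p dir x) p →
      cd.PerpN (cd.LamN (rxN p dir x)) (m - 1) b := by
    intro x hx h0 y hy
    rw [hx.2.2 (m - 1) h0 (by omega)] at hy
    exact hP h0 y hy
  have hbU : b ∈ cd.VF p := FN_le (hUp p) hb
  refine ⟨n, mkTwrN p dir (fun l => basU su (e l)) jl f sig b, hn, ?_, ?_, ?_, ?_, ?_, hY, ?_⟩
  · have hx0 := xpN_mem (p := p) (dir := dir)
    refine ⟨fun l => ?_, ?_, h1, h2, hjl0, fun l => ?_, fun l i hi => ?_, fun x hx Psi hPsi => ?_⟩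
    · change gcodeN p dir (su.c (e l)) ∈ _
      rw [gcodeN_mem_FF hS hc hΓ hd hx0 (su.mem _).1, rxN_xp]
      exact su.mem _
    · change gcodeN p dir b ∈ _
      rw [gcodeN_mem_FF hS hc hΓ hd hx0 hb.1, rxN_xp]
      exact hb
    · change (sig l).card ≤ 1
      rw [hsig]
      beta_reduce
      split_ifs
      · exact (card_singleton _).le
      · exact (card_singleton _).le
      · exact (card_empty).le.trans (Nat.zero_le 1)
    · change i ∉ sig l at hi
      change (su.c (e l)).2 (dir i) = 0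
      rw [hsig] at hi
      beta_reduce at hi
      rcases i with _ | _ | i
      · rw [su.suppb, if_neg]
        intro hl
        have hl0 : l ≠ 0 := by
          rintro rfl
          rw [he] at hl
          exact su.ne hl.symm
        rw [if_neg hl0, if_pos hl] at hi
        exact hi (mem_singleton_self _)
      · rw [su.suppa, if_neg]
        intro hl
        have hl0 : l = 0 := by
          apply e.injective
          rw [he, hl]
        rw [if_pos hl0] at hi
        exact hi (mem_singleton_self _)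
      · exact su.supp0 _ i
    · have hT := (hY x).1 hx
      rw [chi_gridN] at hPsi ⊢
      change S.CT _ Psi ((cd.gridN p dir).ch (gcodeN p dir b) x) = 0
      rw [ch_gridN]
      exact (perpN_iff_CT hS hc (hUx hc hd x) (pvec_rxN hd x) (m - 1) ⟨b, hbU⟩
        (by rw [hT.2.1]; exact hb)).1 (hperp x hT) Psi hPsi
  · change sig 0 = _
    rw [hsig]
    exact if_pos rfl
  · change (su.c (e 0)).2 (dir (some none)) = su.e
    rw [he, su.suppa, if_pos rfl]
  · intro i hi
    change b.2 (dir i) = 0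
    rw [hbdir]
    refine sum_eq_zero fun l _ => ?_
    rcases i with _ | _ | i
    · exact absurd rfl hi
    · rw [su.suppa]
      by_cases hl : l = su.l1
      · rw [hl, su.β_l1, zero_smul]
      · rw [if_neg hl, smul_zero]
    · rw [su.supp0, smul_zero]
  · change b.2 (dir none) = su.e'
    rw [hbdir, sum_eq_single su.l0]
    · rw [su.suppb, if_pos rfl, su.β_l0, one_smul]
    · intro l _ hl
      rw [su.suppb, if_neg hl, smul_zero]
    · intro hh
      exact absurd (mem_univ _) hh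
  · intro x hx
    have hT := (hY x).1 hx
    have h7 := (isTowN_iff hS hc hd hΓ hx.1 0 _).1 (psi_spec hx 0)
    have h8 := h7.1
    rw [hjl0] at h8
    change cd.AbvN (rxN p dir x) m (su.c (e 0)) _ at h8
    rw [he, su.c_l1] at h8
    have haU : a ∈ cd.VF p := FN_le (hUp p) (LflN_sub_FN hS hc (hUp p) hp hm ha)
    rw [FFN_eq hS hc (hUx hc hd x) (pvec_rxN hd x) hm ⟨a, haU⟩ ⟨b, hbU⟩
      (by rw [hT.2.1]; exact hb) (hperp x hT) h8]
    unfold Twr.Fab
    rw [chi_gridN]
    change S.CT _ _ ((cd.gridN p dir).ch (gcodeN p dir b) x) = _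
    rw [ch_gridN]

end Pool.Agent.SmN.CData
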