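import Pool.Agent.Lib.SmN.I.GridThmN
import Pool.Agent.Lib.SmN.I.LastN
import Pool.Agent.Lib.SmN.I.ChebN
import Pool.Agent.Lib.SmN.I.TypeN

/-!
SMITH-U (SmN), block I: Theorem I from Chebotarev.
-/

set_option autoImplicit false

open Finset

namespace Pool.Agent.SmN.FrN

variable {G V V1 Pl : Type} [Group G] [AddCommGroup V] [DistribMulAction G V]
  [AddCommGroup V1] [Module (ZMod 2) V1] {S : Sys G V V1 Pl} {X : PSys} {cd : CData S X}

/-- The data of the last direction (`LastN`). -/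
theorem exists_hasLast (hS : S.Ok) (hc : cd.Ok) (hX : ∀ d, Finite (X.Of d))
    (hpos : ∀ P, 1 ≤ X.deg P) (hNf : ∀ N ∈ S.NN, N.index ≠ 0) (m : ℕ) :
    ∃ K1 B1, HasLast cd m K1 B1 := by
  obtain ⟨K1, h⟩ := CData.lastN hS hc hX hpos hNf
  set v := Nat.card V1
  refine ⟨K1, 1 + v * v, fun J _ p dir hd => ?_⟩
  obtain ⟨M, Q, E, B0, hL⟩ := h J _ m p dir hd
  refine ⟨M, _, Q, E, B0, _, ?_, ?_, hL⟩
  · have h1 : 2 * v ^ v ≤ 2 ^ (1 + v * v) := by
      rw [pow_add, pow_one, pow_mul]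
      exact Nat.mul_le_mul_left 2 (Nat.pow_le_pow_left (Nat.lt_two_pow_self).le v)
    rw [pow_mul]
    exact Nat.mul_le_mul_left _ (Nat.pow_le_pow_left h1 _)
  · exact Nat.mul_le_mul_right _ (by norm_num)

/-- The type data (`TypeN`). -/
theorem hasTwr (hS : S.Ok) (hc : cd.Ok) {m : ℕ} (hm : 1 ≤ m) : HasTwr cd m := by
  intro J _ p dir a b hd ha hb hP su
  obtain ⟨n, τ, h1, h2, h3, h4, h5, h6, h7, h8⟩ :=
    CData.exists_twrN hS hc hd (gridN_ok hS hc hd) hm ha hb hP su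
  exact ⟨CData.suppN_r_le hS hc su, n, τ, h1, h2, h3, h4, h5, h6, h7, h8, fun x hx =>
    ⟨(CData.sel_cardN hS hc hd hx.1).1, (CData.sel_cardN hS hc hd hx.1).2.le⟩⟩

/-- **Theorem I** (SMITH-U) from Chebotarev. -/
theorem gridThmN (hS : S.Ok) (hc : cd.Ok) {q : ℕ} (hX : X.Ok q)
    (hNf : ∀ N ∈ S.NN, N.index ≠ 0) {Geo : Subgroup G} {fr : G} (hG : CData.GeoOk (S := S) Geo fr)
    {a C : ℕ} (hC : cd.Cheb Geo fr q a C) {m : ℕ} (hm : 1 ≤ m) : cd.GridThmN q m := by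
  obtain ⟨K1, B1, hL⟩ := exists_hasLast hS hc hX.fin hX.pos hNf m
  exact gridThmN_of hS hc hX.fin hX.two_le (CData.chebU cd hS hc hX.fin hNf hG hC) hm hL
    (hasTwr hS hc hm)

end Pool.Agent.SmN.FrN
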