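import Pool.Agent.Lib.SmN.I.FrB

/-!
SMITH-U (SmN), block I: `FrameThm`.
-/

set_option autoImplicit false

open Finset

namespace Pool.Agent.SmN.FrN

variable {G V V1 Pl : Type} [Group G] [AddCommGroup V] [DistribMulAction G V]
  [AddCommGroup V1] [Module (ZMod 2) V1] {S : Sys G V V1 Pl} {X : PSys} {cd : CData S X}
variable {J : Type} {m : ℕ} {p : J → cd.Mk} {dir : Dir m ↪ J}

theorem repl_dir (x : Dir m → cd.Mk) (i : Dir m) : cd.replN p dir x (dir i) = x i := by
  have h : ∃ i', dir i' = dir i := ⟨i, rfl⟩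
  rw [CData.replN, dif_pos h]
  congr 1
  exact dir.injective h.choose_spec

theorem repl_off (x : Dir m → cd.Mk) {j : J} (h : ∀ i, dir i ≠ j) :
    cd.replN p dir x j = p j := by
  rw [CData.replN, dif_neg]
  rintro ⟨i, hi⟩
  exact h i hi

theorem deg_repl (x : (i : Dir m) → cd.XB p dir i) (j : J) :
    X.deg (cd.replN p dir (fun i => (x i).1) j).1 = X.deg (p j).1 := by
  by_cases hj : ∃ i, dir i = j
  · obtain ⟨i, rfl⟩ := hj
    rw [repl_dir]
    exact (x i).2.1
  · push Not at hj
    rw [repl_off _ hj]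

/-- The vectors of the points of the grid have distinct primes. -/
theorem pvec_repl (hv : cd.PVecN p) (hd : ∀ i j, X.deg (p j).1 = X.deg (p (dir i)).1 → j = dir i)
    (x : (i : Dir m) → cd.XB p dir i) : cd.PVecN (cd.replN p dir fun i => (x i).1) := by
  intro j j' hjj
  have hdeg : X.deg (p j).1 = X.deg (p j').1 := by
    rw [← deg_repl x j, ← deg_repl x j']
    exact congrArg X.deg hjj
  by_cases hj : ∃ i, dir i = j
  · obtain ⟨i, rfl⟩ := hj
    exact (hd i j' hdeg.symm).symm
  · by_cases hj' : ∃ i, dir i = j'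
    · obtain ⟨i, rfl⟩ := hj'
      exact hd i j hdeg
    · push Not at hj hj'
      simp only [repl_off _ hj, repl_off _ hj'] at hjj
      exact hv hjj

theorem split_repl (hc : cd.Ok) {i : Dir m} (hs : cd.Split (p (dir i)))
    (x : cd.XB p dir i) : cd.Split x.1 := by
  change S.ac (cd.phx x.1) = 1
  rw [hc.kf_ac _ _ x.2.2.1]
  exact hs

variable [Fintype J]

/-- Two points of the grid with the same direction symbols. -/
theorem cmp_repl (hc : cd.Ok) (h : cd.DirOk p dir) (x y : (i : Dir m) → cd.XB p dir i)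
    (hxy : cd.DirEq dir (cd.replN p dir fun i => (x i).1) (cd.replN p dir fun i => (y i).1)) :
    Cmp (cd.replN p dir fun i => (x i).1) (cd.replN p dir fun i => (y i).1) dir where
  vec := pvec_repl h.vec h.dist x
  vec' := pvec_repl h.vec h.dist y
  off j hj := by rw [repl_off _ hj, repl_off _ hj]
  split i := by rw [repl_dir]; exact split_repl hc (h.split i) (x i)
  split' i := by rw [repl_dir]; exact split_repl hc (h.split i) (y i)
  kf i := by
    rw [repl_dir, repl_dir]
    exact (x i).2.2.1.trans (y i).2.2.1.symm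
  ch i j hj := by
    rw [repl_dir, repl_dir, repl_off _ hj]
    exact ((x i).2.2.2 j hj).1.trans ((y i).2.2.2 j hj).1.symm
  be i j hj w hw := by
    rw [repl_off _ hj] at hw
    rw [repl_dir, repl_dir, repl_off _ hj]
    exact (((x i).2.2.2 j hj).2 w hw).trans (((y i).2.2.2 j hj).2 w hw).symm
  eq := hxy

/-- **Frame theorem.** -/
theorem frameThm (hS : S.Ok) (hc : cd.Ok) : cd.FrameThm := by
  intro J _ m p dir h x y hxy
  exact (cmp_repl hc h x y hxy).FN_eq hS hc

end Pool.Agent.SmN.FrN
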