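import Pool.Agent.Lib.SmN.I.Tools

/-!
SmN, block I, section I1 (frame): values of the twist and of the codes at the places, the frame.
-/

set_option autoImplicit false

open Finset

namespace Pool.Agent.SmN.Grid

open Pool.Agent.SmN.IT

variable {G V V1 Pl : Type*} [Group G] [AddCommGroup V] [DistribMulAction G V]
  [AddCommGroup V1] [Module (ZMod 2) V1] {S : Sys G V V1 Pl}
variable {ι : Type*} {X : ι → Type*} {Γ : Grid S X}

/-! ### The places of the grid -/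

theorem pl_good (hΓ : Γ.Ok) (i : ι) (x : X i) : Γ.pl i x ∈ S.good :=
  hΓ.bad_good _ (hΓ.pl_bad i x)

theorem ac_sg_pl (hS : S.Ok) (hΓ : Γ.Ok) (i : ι) (x : X i) : S.ac (S.sg (Γ.pl i x)) = 1 :=
  Sys.ac_sg hS (pl_good hΓ i x)

theorem ac_sgx (hS : S.Ok) (hΓ : Γ.Ok) (i : ι) (x : X i) : S.ac (Γ.sgx i x) = 1 :=
  Sys.ac_conj_eq_one.2 (ac_sg_pl hS hΓ i x)

theorem ac_phx (hΓ : Γ.Ok) (i : ι) (x : X i) : S.ac (Γ.phx i x) = 1 :=
  Sys.ac_conj_eq_one.2 (hΓ.split i x)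

/-- The values of a cocycle at `sg` and `sgx`. -/
theorem coc_sgx (hS : S.Ok) (hΓ : Γ.Ok) {b : G → V1} (hb : S.CocG b) (i : ι) (x : X i) :
    b (Γ.sgx i x) = S.ac (Γ.cj i x) (b (S.sg (Γ.pl i x))) :=
  cocG_conj hb.2 _ (ac_sg_pl hS hΓ i x)

theorem coc_phx (hΓ : Γ.Ok) {b : G → V1} (hb : S.CocG b) (i : ι) (x : X i) :
    b (Γ.phx i x) = S.ac (Γ.cj i x) (b (S.phi (Γ.pl i x))) :=
  cocG_conj hb.2 _ (hΓ.split i x)

theorem coc_sgx_zero (hS : S.Ok) (hΓ : Γ.Ok) {b : G → V1} (hb : S.CocG b) (i : ι) (x : X i) :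
    b (Γ.sgx i x) = 0 ↔ b (S.sg (Γ.pl i x)) = 0 := by
  rw [coc_sgx hS hΓ hb, ac_eq_zero]

theorem coc_phx_zero (hΓ : Γ.Ok) {b : G → V1} (hb : S.CocG b) (i : ι) (x : X i) :
    b (Γ.phx i x) = 0 ↔ b (S.phi (Γ.pl i x)) = 0 := by
  rw [coc_phx hΓ hb, ac_eq_zero]

/-- A cocycle which vanishes at `sgx` and `phx` vanishes on the decomposition groups of all the
places of `Ω` above the place. -/
theorem coc_D (hS : S.Ok) (hΓ : Γ.Ok) {b : G → V1} (hb : S.CocG b) (i : ι) (x : X i)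
    (h1 : b (Γ.sgx i x) = 0) (h2 : b (Γ.phx i x) = 0) (g : Pl → G) :
    ∀ s ∈ (S.conj g).D (Γ.pl i x), b s = 0 := by
  rw [coc_sgx_zero hS hΓ hb] at h1
  rw [coc_phx_zero hΓ hb] at h2
  refine cocG_D (hS.conj g) hb _ ?_ ?_
  · change b (g (Γ.pl i x) * S.sg (Γ.pl i x) * (g (Γ.pl i x))⁻¹) = 0
    rw [cocG_conj hb.2 _ (ac_sg_pl hS hΓ i x), h1, map_zero]
  · change b (g (Γ.pl i x) * S.phi (Γ.pl i x) * (g (Γ.pl i x))⁻¹) = 0
    rw [cocG_conj hb.2 _ (hΓ.split i x), h2, map_zero]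

theorem hom_D (hS : S.Ok) {c : G → ZMod 2} (hc : S.HomG c) (i : ι) (x : X i)
    (h1 : c (Γ.sgx i x) = 0) (h2 : c (Γ.phx i x) = 0) (g : Pl → G) :
    ∀ s ∈ (S.conj g).D (Γ.pl i x), c s = 0 := by
  have e1 : c (S.sg (Γ.pl i x)) = 0 := by
    rw [← h1]
    exact (homG_conj hc.2 _ _).symm
  have e2 : c (S.phi (Γ.pl i x)) = 0 := by
    rw [← h2]
    exact (homG_conj hc.2 _ _).symm
  refine homG_D (hS.conj g) hc _ ?_ ?_
  · change c (g (Γ.pl i x) * S.sg (Γ.pl i x) * (g (Γ.pl i x))⁻¹) = 0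
    rw [homG_conj hc.2, e1]
  · change c (g (Γ.pl i x) * S.phi (Γ.pl i x) * (g (Γ.pl i x))⁻¹) = 0
    rw [homG_conj hc.2, e2]

/-! ### The characters and cocycles of the grid -/

theorem be_zero (hΓ : Γ.Ok) (i : ι) (x : X i) (s : G) : Γ.be i x 0 s = 0 := by
  have h1 := hΓ.be_add i x 0 0 s
  rw [add_zero] at h1
  exact left_eq_add.mp h1

/-- The character `th l a` is not ramified at the place of another point. -/
theorem th_sg (hΓ : Γ.Ok) {l m : ι} {a : X l} {p : X m} (h : Γ.pl m p ≠ Γ.pl l a) :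
    Γ.th l a (S.sg (Γ.pl m p)) = 0 :=
  hΓ.th_unr l a _ (hΓ.pl_bad m p) h

theorem th_sgx (hΓ : Γ.Ok) {l m : ι} {a : X l} {p : X m} (h : Γ.pl m p ≠ Γ.pl l a) :
    Γ.th l a (Γ.sgx m p) = 0 := by
  rw [← th_sg hΓ h]
  exact homG_conj (hΓ.th_hom l a).2 _ _

theorem th_sgx_self (hΓ : Γ.Ok) (l : ι) (a : X l) : Γ.th l a (Γ.sgx l a) = 1 := by
  rw [← hΓ.th_self l a]
  exact homG_conj (hΓ.th_hom l a).2 _ _

theorem ne_dir (hΓ : Γ.Ok) {l m : ι} (hlm : l ≠ m) (a : X l) (p : X m) :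
    Γ.pl m p ≠ Γ.pl l a := fun h => hlm (hΓ.pl_dir m p l a h).symm

theorem be_sgx (hS : S.Ok) (hΓ : Γ.Ok) {l m : ι} {a : X l} {p : X m}
    (h : Γ.pl m p ≠ Γ.pl l a) (w : V1) : Γ.be l a w (Γ.sgx m p) = 0 := by
  rw [coc_sgx_zero hS hΓ (hΓ.be_coc l a w)]
  exact hΓ.be_unr l a w _ (hΓ.pl_bad m p) h

/-- Two characters of the direction `l` with the same symbol agree on the decomposition groups. -/
theorem th_D (hS : S.Ok) (hΓ : Γ.Ok) {l m : ι} (hlm : l ≠ m) (a b : X l) (p : X m)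
    (h : Γ.th l a (Γ.phx m p) = Γ.th l b (Γ.phx m p)) (g : Pl → G) :
    ∀ s ∈ (S.conj g).D (Γ.pl m p), Γ.th l a s = Γ.th l b s := by
  intro s hs
  have h1 := hom_D hS (homG_sub hS (hΓ.th_hom l a) (hΓ.th_hom l b)) m p
    (by rw [th_sgx hΓ (ne_dir hΓ hlm a p), th_sgx hΓ (ne_dir hΓ hlm b p), sub_zero])
    (by rw [h, sub_self]) g s hs
  exact sub_eq_zero.mp h1

/-- Two cocycles of the direction `l` with the same symbol agree on the decomposition groups. -/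
theorem be_D (hS : S.Ok) (hΓ : Γ.Ok) {l m : ι} (hlm : l ≠ m) (a b : X l) (p : X m) (w : V1)
    (h : Γ.be l a w (Γ.phx m p) = Γ.be l b w (Γ.phx m p)) (g : Pl → G) :
    ∀ s ∈ (S.conj g).D (Γ.pl m p), Γ.be l a w s = Γ.be l b w s := by
  intro s hs
  have h1 := coc_D hS hΓ (cocG_sub hS (hΓ.be_coc l a w) (hΓ.be_coc l b w)) m p
    (by rw [be_sgx hS hΓ (ne_dir hΓ hlm a p), be_sgx hS hΓ (ne_dir hΓ hlm b p), sub_zero])
    (by rw [h, sub_self]) g s hs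
  exact sub_eq_zero.mp h1

variable [Fintype ι]

theorem chi_hom (hS : S.Ok) (hΓ : Γ.Ok) (x : ∀ i, X i) : S.HomG (Γ.chi x) :=
  homG_add hS hΓ.chi0_hom (homG_sum hS univ (fun i => Γ.th i (x i)) fun i _ => hΓ.th_hom i (x i))

theorem ch_coc (hS : S.Ok) (hΓ : Γ.Ok) {c : GCode G V1 ι} (hc : Γ.IsC c) (x : ∀ i, X i) :
    S.CocG (Γ.ch c x) :=
  cocG_add hS hc.1 (cocG_sum hS univ (fun i => Γ.be i (x i) (c.2 i))
    fun i _ => hΓ.be_coc i (x i) (c.2 i))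

/-- The values of the twist at conjugate elements. -/
theorem chi_conj (hS : S.Ok) (hΓ : Γ.Ok) (x : ∀ i, X i) (a s : G) :
    Γ.chi x (a * s * a⁻¹) = Γ.chi x s :=
  homG_conj (chi_hom hS hΓ x).2 a s

theorem chi_sg_pl (hΓ : Γ.Ok) (x : ∀ i, X i) (i : ι) : Γ.chi x (S.sg (Γ.pl i (x i))) = 1 := by
  classical
  unfold chi
  rw [hΓ.chi0_unr _ (hΓ.pl_bad i (x i)), zero_add, sum_eq_single i, hΓ.th_self]
  · intro l _ hl
    exact th_sg hΓ (ne_dir hΓ hl _ _)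
  · intro h
    exact absurd (mem_univ i) h

theorem chi_sg_off (hΓ : Γ.Ok) (x : ∀ i, X i) {v : Pl} (hv : v ∉ Γ.bad)
    (h : ∀ i, v ≠ Γ.pl i (x i)) : Γ.chi x (S.sg v) = 0 := by
  unfold chi
  rw [hΓ.chi0_unr _ hv, zero_add]
  exact sum_eq_zero fun i _ => hΓ.th_unr i (x i) v hv (h i)

theorem ch_sgx (hS : S.Ok) (hΓ : Γ.Ok) {c : GCode G V1 ι} (hc : Γ.IsC c) (x : ∀ i, X i) (i : ι) :
    Γ.ch c x (Γ.sgx i (x i)) = c.2 i := by
  classical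
  unfold ch
  rw [(coc_sgx_zero hS hΓ hc.1 i (x i)).2 (hc.2 _ (hΓ.pl_bad i (x i))), zero_add,
    sum_eq_single i, hΓ.be_self]
  · intro l _ hl
    exact be_sgx hS hΓ (ne_dir hΓ hl _ _) _
  · intro h
    exact absurd (mem_univ i) h

theorem ch_sg_off (hΓ : Γ.Ok) {c : GCode G V1 ι} (hc : Γ.IsC c) (x : ∀ i, X i) {v : Pl}
    (hv : v ∉ Γ.bad) (h : ∀ i, v ≠ Γ.pl i (x i)) : Γ.ch c x (S.sg v) = 0 := by
  unfold ch
  rw [hc.2 _ hv, zero_add]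
  exact sum_eq_zero fun i _ => hΓ.be_unr i (x i) _ v hv (h i)

theorem chi_bad (hΓ : Γ.Ok) (x y : ∀ i, X i) {v : Pl} (hv : v ∈ Γ.bad) :
    ∀ s ∈ S.D v, Γ.chi x s = Γ.chi y s := fun s hs => by
  unfold chi
  rw [sum_congr rfl fun i _ => hΓ.th_bad v hv i (x i) (y i) s hs]

/-- On the decomposition group of a bad place the cocycles of a code at two points differ by a
coboundary. -/
theorem ch_bad (hΓ : Γ.Ok) (c : GCode G V1 ι) (x y : ∀ i, X i) {v : Pl} (hv : v ∈ Γ.bad) :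
    ∃ z, ∀ s ∈ S.D v, Γ.ch c x s - Γ.ch c y s = S.ac s z - z := by
  choose z hz using fun i => hΓ.be_bad v hv i (x i) (y i) (c.2 i)
  refine ⟨∑ i, z i, fun s hs => ?_⟩
  unfold ch
  rw [add_sub_add_left_eq_sub, ← sum_sub_distrib, sum_congr rfl fun i _ => hz i s hs,
    sum_sub_distrib, map_sum]

/-- At the place of `x m` the twists of all the points of `X^*` with the same coordinate agree. -/
theorem chi_D (hS : S.Ok) (hΓ : Γ.Ok) {x y : ∀ i, X i} (hx : x ∈ Γ.Xs) (hy : y ∈ Γ.Xs) {m : ι}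
    (hm : x m = y m) (g : Pl → G) :
    ∀ s ∈ (S.conj g).D (Γ.pl m (x m)), Γ.chi x s = Γ.chi y s := by
  intro s hs
  unfold chi
  congr 1
  refine sum_congr rfl fun l _ => ?_
  by_cases hlm : l = m
  · subst hlm
    rw [hm]
  · refine th_D hS hΓ hlm _ _ _ ?_ g s hs
    rw [hx.1 l m hlm, hm, hy.1 l m hlm]

theorem ch_D (hS : S.Ok) (hΓ : Γ.Ok) (c : GCode G V1 ι) {x y : ∀ i, X i} (hx : x ∈ Γ.Xs)
    (hy : y ∈ Γ.Xs) {m : ι} (hm : x m = y m) (g : Pl → G) :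
    ∀ s ∈ (S.conj g).D (Γ.pl m (x m)), Γ.ch c x s = Γ.ch c y s := by
  intro s hs
  unfold ch
  congr 1
  refine sum_congr rfl fun l _ => ?_
  by_cases hlm : l = m
  · subst hlm
    rw [hm]
  · refine be_D hS hΓ hlm (x l) (y l) (x m) (c.2 l) ?_ g s hs
    rw [hx.2.1 l m hlm, hm, hy.2.1 l m hlm]

/-- The local condition of a cocycle at the place of `x i`, `κ` as in `exists_kap`. -/
theorem cond_iff (hS : S.Ok) (hΓ : Γ.Ok) {b : G → V1} (hb : S.CocG b) (x : ∀ i, X i) (i : ι)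
    {w : V1} (hw : b (Γ.sgx i (x i)) = w) {κ : G → V1}
    (hκ : ∀ (g : Pl → G) (chi : G → ZMod 2), ∀ v ∈ S.good, S.ac (S.phi v) = 1 →
      chi ((S.conj g).sg v) = 1 → ∀ y : V1, ((w, y) ∈ (S.conj g).Wl chi v ↔
        y = κ ((S.conj g).phi v) + chi ((S.conj g).phi v) • w)) :
    S.loc (Γ.pl i (x i)) b ∈ S.Wl (Γ.chi x) (Γ.pl i (x i)) ↔
      b (Γ.phx i (x i)) = κ (Γ.phx i (x i)) + Γ.chi x (Γ.phx i (x i)) • w := by
  rw [← loc_conj_iff hS (chi_hom hS hΓ x) hb (fun _ => Γ.cj i (x i))]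
  have h1 : (S.conj fun _ => Γ.cj i (x i)).loc (Γ.pl i (x i)) b = (w, b (Γ.phx i (x i))) :=
    Prod.ext hw rfl
  rw [h1, hκ _ _ _ (pl_good hΓ i (x i)) (hΓ.split i (x i))]
  · rfl
  · rw [← chi_sg_pl hΓ x i]
    exact chi_conj hS hΓ x _ _

/-- The local condition of the code `c` at the place of `x i`; it does not depend on the point `x`
of `X^*`. -/
theorem cond_pl (hS : S.Ok) (hΓ : Γ.Ok) {c : GCode G V1 ι} (hc : Γ.IsC c) {x y : ∀ i, X i}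
    (hx : x ∈ Γ.Xs) (hy : y ∈ Γ.Xs) (i : ι)
    (h : S.loc (Γ.pl i (x i)) (Γ.ch c x) ∈ S.Wl (Γ.chi x) (Γ.pl i (x i))) :
    S.loc (Γ.pl i (y i)) (Γ.ch c y) ∈ S.Wl (Γ.chi y) (Γ.pl i (y i)) := by
  classical
  obtain ⟨κ, hκ1, -, hκ2⟩ := exists_kap hS (c.2 i)
  rw [cond_iff hS hΓ (ch_coc hS hΓ hc x) x i (ch_sgx hS hΓ hc x i) hκ2] at h
  rw [cond_iff hS hΓ (ch_coc hS hΓ hc y) y i (ch_sgx hS hΓ hc y i) hκ2]
  have e1 : ∀ z ∈ Γ.Xs, Γ.ch c z (Γ.phx i (z i)) + Γ.th i (z i) (Γ.phx i (z i)) • c.2 i =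
      c.1 (Γ.phx i (z i)) + ((∑ l ∈ univ.erase i, Γ.sb l i (c.2 l)) + Γ.ss i (c.2 i)) := by
    intro z hz
    unfold ch
    rw [← sum_erase_add univ _ (mem_univ i), ← hz.2.2 i (c.2 i), add_assoc, add_assoc]
    congr 2
    exact sum_congr rfl fun l hl => hz.2.1 l i (ne_of_mem_erase hl) (c.2 l)
  have e2 : ∀ z ∈ Γ.Xs, Γ.chi z (Γ.phx i (z i)) = (Γ.chi0 (Γ.phx i (z i)) +
      ∑ l ∈ univ.erase i, Γ.sm l i) + Γ.th i (z i) (Γ.phx i (z i)) := by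
    intro z hz
    unfold chi
    rw [← sum_erase_add univ _ (mem_univ i), ← add_assoc]
    congr 2
    exact sum_congr rfl fun l hl => hz.1 l i (ne_of_mem_erase hl)
  have key : ∀ z ∈ Γ.Xs, (Γ.ch c z (Γ.phx i (z i)) =
      κ (Γ.phx i (z i)) + Γ.chi z (Γ.phx i (z i)) • c.2 i ↔
      c.1 (Γ.phx i (z i)) + ((∑ l ∈ univ.erase i, Γ.sb l i (c.2 l)) + Γ.ss i (c.2 i)) =
      κ (Γ.phx i (z i)) + (Γ.chi0 (Γ.phx i (z i)) + ∑ l ∈ univ.erase i, Γ.sm l i) • c.2 i) := by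
    intro z hz
    rw [← e1 z hz, e2 z hz, add_smul, ← add_assoc]
    constructor
    · intro h1
      rw [h1, v1_add_cancel]
    · intro h1
      rw [← h1, v1_add_cancel]
  rw [key x hx] at h
  rw [key y hy, ← hΓ.unif_coc _ hc.1 hc.2 i (x i) (y i), ← hΓ.unif_chi i (x i) (y i),
    ← hκ1 (Γ.phx i (x i)) (Γ.phx i (y i)) fun Q hQ => hΓ.unif_four Q hQ i (x i) (y i)]
  exact h

/-! ### Codes and cocycles -/

theorem code_exists (hS : S.Ok) (hΓ : Γ.Ok) (x : ∀ i, X i) {b : G → V1} (hb : S.CocG b)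
    (h : ∀ v, v ∉ Γ.bad → (∀ i, v ≠ Γ.pl i (x i)) → b (S.sg v) = 0) :
    ∃ c, Γ.IsC c ∧ Γ.ch c x = b := by
  classical
  have hcoc : S.CocG (fun s => b s - ∑ i, Γ.be i (x i) (b (Γ.sgx i (x i))) s) :=
    cocG_sub hS hb (cocG_sum hS univ (fun i s => Γ.be i (x i) (b (Γ.sgx i (x i))) s)
      fun i _ => hΓ.be_coc i (x i) _)
  refine ⟨(fun s => b s - ∑ i, Γ.be i (x i) (b (Γ.sgx i (x i))) s,
    fun i => b (Γ.sgx i (x i))), ⟨hcoc, ?_⟩, ?_⟩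
  · intro v hv
    by_cases hvi : ∃ i, v = Γ.pl i (x i)
    · obtain ⟨i, rfl⟩ := hvi
      rw [← coc_sgx_zero hS hΓ hcoc i (x i)]
      change b (Γ.sgx i (x i)) - ∑ l, Γ.be l (x l) (b (Γ.sgx l (x l))) (Γ.sgx i (x i)) = 0
      rw [sum_eq_single i, hΓ.be_self, sub_self]
      · intro l _ hl
        exact be_sgx hS hΓ (ne_dir hΓ hl _ _) _
      · intro h
        exact absurd (mem_univ i) h
    · have hvi' : ∀ i, v ≠ Γ.pl i (x i) := fun i hi => hvi ⟨i, hi⟩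
      change b (S.sg v) - ∑ l, Γ.be l (x l) (b (Γ.sgx l (x l))) (S.sg v) = 0
      rw [h v hv hvi', zero_sub, neg_eq_zero]
      exact sum_eq_zero fun i _ => hΓ.be_unr i (x i) _ v hv (hvi' i)
  · funext s
    change b s - ∑ i, Γ.be i (x i) (b (Γ.sgx i (x i))) s +
      ∑ i, Γ.be i (x i) (b (Γ.sgx i (x i))) s = b s
    rw [sub_add_cancel]

theorem ch_inj (hS : S.Ok) (hΓ : Γ.Ok) (x : ∀ i, X i) {c d : GCode G V1 ι} (hc : Γ.IsC c)
    (hd : Γ.IsC d) (h : Γ.ch c x = Γ.ch d x) : c = d := by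
  have h2 : c.2 = d.2 := by
    funext i
    rw [← ch_sgx hS hΓ hc x i, ← ch_sgx hS hΓ hd x i, h]
  refine Prod.ext ?_ h2
  funext s
  have h3 := congrFun h s
  unfold ch at h3
  rw [h2] at h3
  exact add_right_cancel h3

/-- The frame theorem: it is enough to check one point of `X^*`. -/
theorem sel1_transfer (hS : S.Ok) (hΓ : Γ.Ok) {c : GCode G V1 ι} (hc : Γ.IsC c) {x y : ∀ i, X i}
    (hx : x ∈ Γ.Xs) (hy : y ∈ Γ.Xs) (h : S.IsSel1 (Γ.chi x) (Γ.ch c x)) :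
    S.IsSel1 (Γ.chi y) (Γ.ch c y) := by
  refine ⟨ch_coc hS hΓ hc y, fun v => ?_⟩
  by_cases hv : v ∈ Γ.bad
  · have h1 := h.2 v
    rw [wl_congr_iff hS (chi_bad hΓ x y hv)] at h1
    obtain ⟨z, hz⟩ := ch_bad hΓ c y x hv
    have h2 : S.loc v (Γ.ch c y) = S.loc v (Γ.ch c x) + S.cob v z := by
      apply Prod.ext
      · change Γ.ch c y (S.sg v) = Γ.ch c x (S.sg v) + (S.ac (S.sg v) z - z)
        rw [← hz _ (hS.sg_mem v), add_sub_cancel]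
      · change Γ.ch c y (S.phi v) = Γ.ch c x (S.phi v) + (S.ac (S.phi v) z - z)
        rw [← hz _ (hS.phi_mem v), add_sub_cancel]
    rw [h2]
    exact (S.W (Γ.chi y) v).add_mem h1 (Sys.cob_mem_Wl hS (Γ.chi y) v z)
  · by_cases hvi : ∃ i, v = Γ.pl i (y i)
    · obtain ⟨i, rfl⟩ := hvi
      exact cond_pl hS hΓ hc hx hy i (h.2 _)
    · have hvi' : ∀ i, v ≠ Γ.pl i (y i) := fun i hi => hvi ⟨i, hi⟩
      rw [Sys.mem_Wl_good hS (chi_hom hS hΓ y) (hΓ.bad_good v hv) (chi_sg_off hΓ y hv hvi')]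
      exact ch_sg_off hΓ hc y hv hvi'

theorem mem_FF (hS : S.Ok) (hΓ : Γ.Ok) {x : ∀ i, X i} (hx : x ∈ Γ.Xs) (c : GCode G V1 ι) :
    c ∈ Γ.FF ↔ Γ.IsC c ∧ S.IsSel1 (Γ.chi x) (Γ.ch c x) :=
  ⟨fun h => ⟨h.1, h.2 x hx⟩, fun h => ⟨h.1, fun _ hy => sel1_transfer hS hΓ h.1 hx hy h.2⟩⟩

/-- The elements of the Selmer group are unramified outside of the bad places and of the places of
the point. -/
theorem sel1_unr (hS : S.Ok) (hΓ : Γ.Ok) {x : ∀ i, X i} {b : G → V1}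
    (hb : S.IsSel1 (Γ.chi x) b) : ∀ v, v ∉ Γ.bad → (∀ i, v ≠ Γ.pl i (x i)) → b (S.sg v) = 0 := by
  intro v hv hvi
  have h1 := hb.2 v
  rw [Sys.mem_Wl_good hS (chi_hom hS hΓ x) (hΓ.bad_good v hv) (chi_sg_off hΓ x hv hvi)] at h1
  exact h1

/-- `c ↦ c (x)` is a bijection from the frame to the Selmer group of the point `x` of `X^*`. -/
theorem bijOn_ch (hS : S.Ok) (hΓ : Γ.Ok) {x : ∀ i, X i} (hx : x ∈ Γ.Xs) :
    Set.BijOn (fun c => Γ.ch c x) Γ.FF {b | S.IsSel1 (Γ.chi x) b} := by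
  refine ⟨fun c hc => hc.2 x hx, fun c hc d hd h => ch_inj hS hΓ x hc.1 hd.1 h, fun b hb => ?_⟩
  obtain ⟨c, hc, hcb⟩ := code_exists hS hΓ x hb.1 (sel1_unr hS hΓ hb)
  refine ⟨c, (mem_FF hS hΓ hx c).2 ⟨hc, ?_⟩, hcb⟩
  rw [hcb]
  exact hb

theorem ncard_FF (hS : S.Ok) (hΓ : Γ.Ok) {x : ∀ i, X i} (hx : x ∈ Γ.Xs) :
    Set.ncard {b | S.IsSel1 (Γ.chi x) b} = Set.ncard Γ.FF := by
  rw [← (bijOn_ch hS hΓ hx).image_eq, (bijOn_ch hS hΓ hx).injOn.ncard_image]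

end Pool.Agent.SmN.Grid
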