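import Pool.Agent.Lib.SmN.I.GridDefs
import Pool.Agent.Lib.SmN.I.FrC

/-!
SMITH-U (SmN), block I: the grid of the big classes satisfies the hypotheses `Grid.Ok`.
-/

set_option autoImplicit false

open Finset

namespace Pool.Agent.SmN.FrN

open Pool.Agent.SmN.IT

variable {G V V1 Pl : Type} [Group G] [AddCommGroup V] [DistribMulAction G V]
  [AddCommGroup V1] [Module (ZMod 2) V1] {S : Sys G V V1 Pl} {X : PSys} {cd : CData S X}
variable {J : Type} [Fintype J] {m : ℕ} {p : J → cd.Mk} {dir : Dir m ↪ J}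

theorem mem_offD {j : J} : j ∈ CData.offD dir ↔ ∀ i, dir i ≠ j := by
  classical
  simp [CData.offD]

omit [Fintype J] in
theorem xb_ne_off (hd : ∀ i j, X.deg (p j).1 = X.deg (p (dir i)).1 → j = dir i) {i : Dir m}
    (x : cd.XB p dir i) {j : J} (hj : ∀ i, dir i ≠ j) : (p j).1 ≠ x.1.1 := by
  intro h
  refine hj i (hd i j ?_).symm
  rw [h]
  exact x.2.1

omit [Fintype J] in
/-- The characters of two elements of a class agree at the entries off the directions. -/
theorem ch_off (hc : cd.Ok) (hd : ∀ i j, X.deg (p j).1 = X.deg (p (dir i)).1 → j = dir i)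
    {i : Dir m} (x y : cd.XB p dir i) {j : J} (hj : ∀ i, dir i ≠ j) :
    cd.ch x.1.1 (cd.phx (p j)) = cd.ch y.1.1 (cd.phx (p j)) := by
  obtain ⟨Rr, hR⟩ := hc.ch_rec
  have e1 := hR x.1 (p j) (xb_ne_off hd x hj).symm
  have e2 := hR y.1 (p j) (xb_ne_off hd y hj).symm
  rw [x.2.2.1, (x.2.2.2 j hj).1] at e1
  rw [y.2.2.1, (y.2.2.2 j hj).1, ← e1] at e2
  exact (add_right_cancel e2).symm

/-- A place which is not bad. -/
theorem not_bad {v : Pl} (hv : v ∉ (cd.gridN p dir).bad) :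
    ∃ Q, v = cd.pl Q ∧ ∀ j, (∀ i, dir i ≠ j) → Q ≠ (p j).1 := by
  change v ∉ (Set.range cd.pl)ᶜ ∪ {v | ∃ j, (∀ i, dir i ≠ j) ∧ cd.pl (p j).1 = v} at hv
  rw [Set.mem_union, not_or, Set.mem_compl_iff, not_not] at hv
  obtain ⟨⟨Q, rfl⟩, h2⟩ := hv
  exact ⟨Q, rfl, fun j hj h => h2 ⟨j, hj, by rw [← h]⟩⟩

theorem bad_cases {v : Pl} (hv : v ∈ (cd.gridN p dir).bad) :
    v ∉ Set.range cd.pl ∨ ∃ j, (∀ i, dir i ≠ j) ∧ v = cd.pl (p j).1 := by
  change v ∈ (Set.range cd.pl)ᶜ ∪ {v | ∃ j, (∀ i, dir i ≠ j) ∧ cd.pl (p j).1 = v} at hv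
  rcases hv with hv | ⟨j, hj, rfl⟩
  · exact Or.inl hv
  · exact Or.inr ⟨j, hj, rfl⟩

omit [Fintype J] in
theorem hb_kf (hc : cd.Ok) (hs : ∀ i, cd.Split (p (dir i))) {i : Dir m} (x y : cd.XB p dir i)
    (c : Fin cd.h → ZMod 2) : cd.hb c (cd.phx x.1) = cd.hb c (cd.phx y.1) := by
  obtain ⟨z, hz⟩ := hc.kf_coc _ (CData.hb_coc hc c) (CData.hb_unr hc c) _ _
    (x.2.2.1.trans y.2.2.1.symm)
  rw [split_ac (split_repl hc (hs i) x)] at hz
  change cd.hb c (cd.phx x.1) - cd.hb c (cd.phx y.1) = z - z at hz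
  rw [sub_self, sub_eq_zero] at hz
  exact hz

/-- The expansion of the cocycles unramified outside of the bad places of the grid. -/
theorem expand_N (hS : S.Ok) (hc : cd.Ok) (hv : cd.PVecN p) {c : G → V1} (hcc : S.CocG c)
    (hun : ∀ v, v ∉ (cd.gridN p dir).bad → c (S.sg v) = 0) :
    ∃ (b : Fin cd.h → ZMod 2) (w : J → V1), (∀ j, cd.Fx (p j) (w j)) ∧
      ∀ s, c s = cd.hb b s + ∑ j ∈ CData.offD dir, cd.bex (p j) (w j) s := by
  classical
  set w : J → V1 := fun j => S.ac (p j).2.1 (c (S.sg (cd.pl (p j).1))) with hw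
  have hval : ∀ j, cd.Fx (p j) (w j) := by
    intro j
    rw [CData.fx_iff, hw]
    simp only [Sys.ac_cancel_inv]
    exact Sys.cp_fix hS (hc.pl_good _) (Sys.loc_mem_CP hcc (cd.pl (p j).1))
  have hsum : S.CocG (fun s => ∑ j ∈ CData.offD dir, cd.bex (p j) (w j) s) :=
    cocG_sum hS _ _ fun j _ => CData.bex_coc hc (hval j)
  have hd : S.CocG (fun s => c s - ∑ j ∈ CData.offD dir, cd.bex (p j) (w j) s) :=
    cocG_sub hS hcc hsum
  have hunr : cd.Unr (fun s => c s - ∑ j ∈ CData.offD dir, cd.bex (p j) (w j) s) := by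
    intro Q
    change c (S.sg (cd.pl Q)) - ∑ j ∈ CData.offD dir, cd.bex (p j) (w j) (S.sg (cd.pl Q)) = 0
    by_cases hQ : ∃ j, (∀ i, dir i ≠ j) ∧ (p j).1 = Q
    · obtain ⟨j, hj, rfl⟩ := hQ
      rw [sum_eq_single j]
      · rw [CData.bex_self hc (hval j), hw]
        simp only [Sys.ac_cancel_inv]
        exact sub_self _
      · intro l _ hl
        exact CData.bex_unr hc (hval l) fun h => hl (hv h.symm)
      · intro h
        exact absurd (mem_offD.2 hj) h
    · push Not at hQ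
      have h1 : c (S.sg (cd.pl Q)) = 0 := by
        apply hun
        intro hb
        rcases bad_cases hb with h | ⟨j, hj, h⟩
        · exact h ⟨Q, rfl⟩
        · exact hQ j hj (hc.pl_inj h).symm
      rw [h1, sum_eq_zero, sub_zero]
      intro l hl
      exact CData.bex_unr hc (hval l) fun h => hQ l (mem_offD.1 hl) h.symm
  obtain ⟨b, hb⟩ := (hc.hb_range _).2 ⟨hd, hunr⟩
  refine ⟨b, w, hval, fun s => ?_⟩
  rw [congrFun hb s]
  abel

/-- **The grid is ok.** -/
theorem gridN_ok (hS : S.Ok) (hc : cd.Ok) (h : cd.DirOk p dir) : (cd.gridN p dir).Ok where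
  bad_good v hv := by
    obtain ⟨Q, rfl, -⟩ := not_bad hv
    exact hc.pl_good Q
  pl_bad i x hb := by
    rcases bad_cases hb with h1 | ⟨j, hj, h1⟩
    · exact h1 ⟨x.1.1, rfl⟩
    · exact xb_ne_off h.dist x hj (hc.pl_inj h1).symm
  split i x := split_phi (split_repl hc (h.split i) x)
  pl_dir i x j y hxy := by
    have h1 : x.1.1 = y.1.1 := hc.pl_inj hxy
    have h2 : X.deg (p (dir i)).1 = X.deg (p (dir j)).1 := by
      rw [← x.2.1, ← y.2.1, h1]
    exact dir.injective (h.dist j (dir i) h2)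
  pl_inj i x y h1 h2 := Subtype.ext (Prod.ext (hc.pl_inj h1) (Subtype.ext h2))
  cj_mem i x := x.1.2.2
  th_hom i x := hc.ch_hom _
  th_self i x := hc.ch_self _
  th_unr i x v hv hne := by
    obtain ⟨Q, rfl, -⟩ := not_bad hv
    exact hc.ch_unr _ _ fun hQ => hne (by rw [hQ]; rfl)
  th_bad v hv i x y := by
    rcases bad_cases hv with h1 | ⟨j, hj, rfl⟩
    · exact (hc.kf_bad x.1 y.1 (x.2.2.1.trans y.2.2.1.symm) v h1).1
    · have hd : S.HomG (fun s => cd.ch x.1.1 s - cd.ch y.1.1 s) :=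
        homG_sub hS (hc.ch_hom _) (hc.ch_hom _)
      have e1 := homG_D hS hd (cd.pl (p j).1) (by
        rw [hc.ch_unr _ _ (xb_ne_off h.dist x hj), hc.ch_unr _ _ (xb_ne_off h.dist y hj),
          sub_self]) (by
        have e3 : ∀ P, cd.ch P (S.phi (cd.pl (p j).1)) = cd.ch P (cd.phx (p j)) := fun P => by
          rw [CData.phx, homG_conj (hc.ch_hom P).2]
        rw [e3, e3, ch_off hc h.dist x y hj, sub_self])
      exact fun s hs => sub_eq_zero.1 (e1 s hs)
  be_coc i x w := CData.bex_coc hc (split_fx (split_repl hc (h.split i) x) w)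
  be_add i x w w' s := congrFun (CData.bex_add hc (split_fx (split_repl hc (h.split i) x) w)
    (split_fx (split_repl hc (h.split i) x) w')) s
  be_self i x w := by
    have hf := split_fx (split_repl hc (h.split i) x) w
    change cd.bex x.1 w (x.1.2.1 * S.sg (cd.pl x.1.1) * x.1.2.1⁻¹) = w
    rw [cocG_conj (CData.bex_coc hc hf).2 _ (Sys.ac_sg hS (hc.pl_good _)), CData.bex_self hc hf,
      Sys.ac_inv_cancel]
  be_unr i x w v hv hne := by
    obtain ⟨Q, rfl, -⟩ := not_bad hv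
    exact CData.bex_unr hc (split_fx (split_repl hc (h.split i) x) w)
      fun hQ => hne (by rw [hQ]; rfl)
  be_bad v hv i x y w := by
    have hfx := split_fx (split_repl hc (h.split i) x) w
    have hfy := split_fx (split_repl hc (h.split i) y) w
    rcases bad_cases hv with h1 | ⟨j, hj, rfl⟩
    · exact (hc.kf_bad x.1 y.1 (x.2.2.1.trans y.2.2.1.symm) v h1).2 w hfx
    · obtain ⟨u, hu⟩ := rec_off hS hc (split_repl hc (h.split i) x) (split_repl hc (h.split i) y)
        (xb_ne_off h.dist x hj) (xb_ne_off h.dist y hj) (x.2.2.1.trans y.2.2.1.symm)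
        (fun w' hw' => ((x.2.2.2 j hj).2 w' hw').trans ((y.2.2.2 j hj).2 w' hw').symm) w
      refine ⟨u, ?_⟩
      have hcob : S.CocG (fun s => S.ac s u - u) := by
        obtain ⟨c, hcu⟩ : ∃ c, cd.hb c = fun s => S.ac s u - u :=
          ⟨cd.kb u, funext fun s => hc.kb_eq u s⟩
        rw [← hcu]
        exact CData.hb_coc hc c
      have hd : S.CocG (fun s => (cd.bex x.1 w s - cd.bex y.1 w s) - (S.ac s u - u)) :=
        cocG_sub hS (cocG_sub hS (CData.bex_coc hc hfx) (CData.bex_coc hc hfy)) hcob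
      have e1 := cocG_D hS hd (cd.pl (p j).1) (sub_eq_zero.2 (congrArg Prod.fst hu))
        (sub_eq_zero.2 (congrArg Prod.snd hu))
      exact fun s hs => sub_eq_zero.1 (e1 s hs)
  chi0_hom := homG_add hS hc.chi0_hom (homG_sum hS _ _ fun j _ => hc.ch_hom _)
  chi0_unr v hv := by
    obtain ⟨Q, rfl, hQ⟩ := not_bad hv
    change cd.chi0 _ + ∑ j ∈ CData.offD dir, cd.ch (p j).1 _ = 0
    rw [hc.chi0_unr, zero_add]
    exact sum_eq_zero fun j hj => hc.ch_unr _ _ (hQ j (mem_offD.1 hj))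
  unif_coc c hcc hun i x y := by
    obtain ⟨b, w, hw, hcs⟩ := expand_N hS hc h.vec hcc hun
    change c (cd.phx x.1) = c (cd.phx y.1)
    rw [hcs, hcs, hb_kf hc h.split x y]
    congr 1
    refine sum_congr rfl fun j hj => ?_
    rw [(x.2.2.2 j (mem_offD.1 hj)).2 _ (hw j), (y.2.2.2 j (mem_offD.1 hj)).2 _ (hw j)]
  unif_chi i x y := by
    change cd.chi0 (cd.phx x.1) + ∑ j ∈ CData.offD dir, cd.ch (p j).1 (cd.phx x.1) =
      cd.chi0 (cd.phx y.1) + ∑ j ∈ CData.offD dir, cd.ch (p j).1 (cd.phx y.1)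
    rw [hc.kf_hom _ hc.chi0_hom hc.chi0_unr _ _ (x.2.2.1.trans y.2.2.1.symm)]
    congr 1
    refine sum_congr rfl fun j hj => ?_
    rw [(x.2.2.2 j (mem_offD.1 hj)).1, (y.2.2.2 j (mem_offD.1 hj)).1]
  unif_four Q hQ i x y := by
    obtain ⟨w, hw⟩ := hS.iota_range ((2 : ℕ) • Q) (by rw [← mul_nsmul]; exact hQ)
    obtain ⟨u, hu⟩ := hc.kf_four _ _ (x.2.2.1.trans y.2.2.1.symm) Q hQ (by
      rw [← hw, hS.iota_ac]
      exact congrArg S.iota (split_fx (split_repl hc (h.split i) x) w))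
    have hu0 : S.ac (cd.phx x.1) u - u = 0 := by
      rw [split_ac (split_repl hc (h.split i) x)]
      exact sub_self _
    rw [hu0, map_zero, sub_eq_zero] at hu
    exact hu

end Pool.Agent.SmN.FrN
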