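import Pool.Agent.Lib.SmN.I.Face
import Pool.Agent.Lib.SmN.H.Last

/-!
SmN, block I, section I5 (part 1): the cube of two points of a grid. Block H is applied to the system
`S.conj (Γ.cg x0 x)`, whose elements `sg`, `phi` at the places of the cube are `sgx`, `phx`.
-/

set_option autoImplicit false

open Finset

namespace Pool.Agent.SmN.Grid

open Pool.Agent.SmN.IT Pool.Agent.SmA

variable {G V V1 Pl : Type*} [Group G] [AddCommGroup V] [DistribMulAction G V]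
  [AddCommGroup V1] [Module (ZMod 2) V1] {S : Sys G V V1 Pl}
variable {ι : Type*} {X : ι → Type*}

/-- The two ends of the direction `i`. -/
def pt (x0 x : ∀ i, X i) (i : ι) (e : Bool) : X i := if e then x i else x0 i

/-- The places of the cube `(x0, x)`. -/
def plc (Γ : Grid S X) (x0 x : ∀ i, X i) (i : ι) (e : Bool) : Pl := Γ.pl i (pt x0 x i e)

open Classical in
/-- The representatives at the places of the cube `(x0, x)`. -/
noncomputable def cg (Γ : Grid S X) (x0 x : ∀ i, X i) (v : Pl) : G :=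
  if h : ∃ p : ι × Bool, v = Γ.plc x0 x p.1 p.2 then Γ.cj h.choose.1 (pt x0 x h.choose.1 h.choose.2)
  else 1

/-- The symbols between all the places of the cube `(x0, x)` are the prescribed ones. -/
structure SymOk (Γ : Grid S X) (x0 x : ∀ i, X i) : Prop where
  th : ∀ i j, i ≠ j → ∀ e e' : Bool,
    Γ.th i (pt x0 x i e) (Γ.phx j (pt x0 x j e')) = Γ.sm i j
  be : ∀ i j, i ≠ j → ∀ (e e' : Bool) (w : V1),
    Γ.be i (pt x0 x i e) w (Γ.phx j (pt x0 x j e')) = Γ.sb i j w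
  self : ∀ i (e : Bool) (w : V1), Γ.be i (pt x0 x i e) w (Γ.phx i (pt x0 x i e)) +
    Γ.th i (pt x0 x i e) (Γ.phx i (pt x0 x i e)) • w = Γ.ss i w

variable {Γ : Grid S X}

theorem plc_ne {x0 x : ∀ i, X i} {i : ι} (hne : Γ.pl i (x0 i) ≠ Γ.pl i (x i)) :
    Γ.plc x0 x i true ≠ Γ.plc x0 x i false := fun h => hne h.symm

theorem plc_dir (hΓ : Γ.Ok) {x0 x : ∀ i, X i} {i j : ι} {e e' : Bool}
    (h : Γ.plc x0 x i e = Γ.plc x0 x j e') : i = j :=
  hΓ.pl_dir _ _ _ _ h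

theorem plc_bad (hΓ : Γ.Ok) (x0 x : ∀ i, X i) (i : ι) (e : Bool) : Γ.plc x0 x i e ∉ Γ.bad :=
  hΓ.pl_bad _ _

theorem plc_good (hΓ : Γ.Ok) (x0 x : ∀ i, X i) (i : ι) (e : Bool) : Γ.plc x0 x i e ∈ S.good :=
  hΓ.bad_good _ (hΓ.pl_bad _ _)

/-- The two ends of every direction are different places or equal. -/
def Sep (Γ : Grid S X) (x0 x : ∀ i, X i) : Prop :=
  ∀ i, Γ.pl i (x0 i) ≠ Γ.pl i (x i) ∨ x0 i = x i

theorem Sep.of_ne {x0 x : ∀ i, X i} (hne : ∀ i, Γ.pl i (x0 i) ≠ Γ.pl i (x i)) :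
    Γ.Sep x0 x := fun i => Or.inl (hne i)

theorem cg_plc (hΓ : Γ.Ok) {x0 x : ∀ i, X i} (hne : Γ.Sep x0 x) (i : ι)
    (e : Bool) : Γ.cg x0 x (Γ.plc x0 x i e) = Γ.cj i (pt x0 x i e) := by
  have h : ∃ p : ι × Bool, Γ.plc x0 x i e = Γ.plc x0 x p.1 p.2 := ⟨(i, e), rfl⟩
  have h1 := h.choose_spec
  have h2 : Γ.cg x0 x (Γ.plc x0 x i e) = Γ.cj h.choose.1 (pt x0 x h.choose.1 h.choose.2) :=
    dif_pos h
  rw [h2]
  generalize h.choose = p at h1
  obtain ⟨j, e'⟩ := p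
  have hij : i = j := plc_dir hΓ h1
  subst hij
  change Γ.cj i (pt x0 x i e') = Γ.cj i (pt x0 x i e)
  rcases hne i with hi | hi
  · have he : e = e' := by
      cases e <;> cases e'
      · rfl
      · exact absurd h1.symm (plc_ne hi)
      · exact absurd h1 (plc_ne hi)
      · rfl
    rw [he]
  · have he : ∀ e, pt x0 x i e = x i := by
      intro e
      cases e
      · exact hi
      · rfl
    rw [he, he]

theorem cg_off {x0 x : ∀ i, X i} {v : Pl} (h : ∀ i e, v ≠ Γ.plc x0 x i e) :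
    Γ.cg x0 x v = 1 := by
  unfold cg
  rw [dif_neg]
  rintro ⟨p, hp⟩
  exact h _ _ hp

/-- The tame generators and the Frobenius elements of the conjugated system. -/
theorem cg_sg (hΓ : Γ.Ok) {x0 x : ∀ i, X i} (hne : Γ.Sep x0 x) (i : ι)
    (e : Bool) : (S.conj (Γ.cg x0 x)).sg (Γ.plc x0 x i e) = Γ.sgx i (pt x0 x i e) := by
  change Γ.cg x0 x _ * _ * (Γ.cg x0 x _)⁻¹ = _
  rw [cg_plc hΓ hne]
  rfl

theorem cg_phi (hΓ : Γ.Ok) {x0 x : ∀ i, X i} (hne : Γ.Sep x0 x) (i : ι)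
    (e : Bool) : (S.conj (Γ.cg x0 x)).phi (Γ.plc x0 x i e) = Γ.phx i (pt x0 x i e) := by
  change Γ.cg x0 x _ * _ * (Γ.cg x0 x _)⁻¹ = _
  rw [cg_plc hΓ hne]
  rfl

theorem cg_sg_off {x0 x : ∀ i, X i} {v : Pl} (h : ∀ i e, v ≠ Γ.plc x0 x i e) :
    (S.conj (Γ.cg x0 x)).sg v = S.sg v := by
  change Γ.cg x0 x _ * _ * (Γ.cg x0 x _)⁻¹ = _
  rw [cg_off h, inv_one, mul_one, one_mul]

theorem cg_D_off {x0 x : ∀ i, X i} {v : Pl} (h : ∀ i e, v ≠ Γ.plc x0 x i e) {s : G}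
    (hs : s ∈ (S.conj (Γ.cg x0 x)).D v) : s ∈ S.D v := by
  rw [Sys.mem_conj_D, cg_off h, inv_one, one_mul, mul_one] at hs
  exact hs

theorem del_sg_self (hΓ : Γ.Ok) {x0 x : ∀ i, X i} {i : ι}
    (hne : Γ.pl i (x0 i) ≠ Γ.pl i (x i)) (e : Bool) :
    Γ.del x0 x i (S.sg (Γ.plc x0 x i e)) = 1 := by
  unfold del
  cases e with
  | true =>
    have h1 : Γ.th i (x0 i) (S.sg (Γ.plc x0 x i true)) = 0 :=
      hΓ.th_unr i (x0 i) _ (plc_bad hΓ x0 x i true) (plc_ne hne)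
    have h2 : Γ.th i (x i) (S.sg (Γ.plc x0 x i true)) = 1 := hΓ.th_self i (x i)
    rw [h1, h2, zero_add]
  | false =>
    have h1 : Γ.th i (x0 i) (S.sg (Γ.plc x0 x i false)) = 1 := hΓ.th_self i (x0 i)
    have h2 : Γ.th i (x i) (S.sg (Γ.plc x0 x i false)) = 0 :=
      hΓ.th_unr i (x i) _ (plc_bad hΓ x0 x i false) (Ne.symm (plc_ne hne))
    rw [h1, h2, add_zero]

/-- The characters of the cube vanish on the inertia elements of the places off the cube. -/
theorem del_sg_off (hΓ : Γ.Ok) {x0 x : ∀ i, X i} {i : ι} {v : Pl} (hv : v ∉ Γ.bad)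
    (h : ∀ e, v ≠ Γ.plc x0 x i e) : Γ.del x0 x i (S.sg v) = 0 := by
  unfold del
  rw [hΓ.th_unr i (x0 i) v hv (h false), hΓ.th_unr i (x i) v hv (h true), add_zero]

theorem del_D (hS : S.Ok) (hΓ : Γ.Ok) {x0 x : ∀ i, X i} {l i : ι} (hli : l ≠ i) (e : Bool)
    (hsym : ∀ e' : Bool, Γ.th l (pt x0 x l e') (Γ.phx i (pt x0 x i e)) = Γ.sm l i)
    (g : Pl → G) : ∀ s ∈ (S.conj g).D (Γ.plc x0 x i e), Γ.del x0 x l s = 0 := by
  intro s hs
  unfold del
  have h3 := th_D hS hΓ hli (x0 l) (x l) (pt x0 x i e) ((hsym false).trans (hsym true).symm) g s hs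
  rw [h3, z2_add_self]

theorem del_bad (hΓ : Γ.Ok) (x0 x : ∀ i, X i) (i : ι) {v : Pl} (hv : v ∈ Γ.bad) :
    ∀ s ∈ S.D v, Γ.del x0 x i s = 0 := by
  intro s hs
  unfold del
  rw [hΓ.th_bad v hv i (x0 i) (x i) s hs, z2_add_self]

theorem dbe_D (hS : S.Ok) (hΓ : Γ.Ok) (w : ι → V1) {x0 x : ∀ i, X i} {l i : ι} (hli : l ≠ i)
    (e : Bool)
    (hsym : ∀ e' : Bool, Γ.be l (pt x0 x l e') (w l) (Γ.phx i (pt x0 x i e)) = Γ.sb l i (w l))
    (g : Pl → G) : ∀ s ∈ (S.conj g).D (Γ.plc x0 x i e), Γ.dbe w x0 x l s = 0 := by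
  intro s hs
  unfold dbe
  have h3 := be_D hS hΓ hli (x0 l) (x l) (pt x0 x i e) (w l)
    ((hsym false).trans (hsym true).symm) g s hs
  rw [h3, V1_add_self]

theorem dbe_bad (hΓ : Γ.Ok) (w : ι → V1) (x0 x : ∀ i, X i) (i : ι) {v : Pl} (hv : v ∈ Γ.bad) :
    ∃ z, ∀ s ∈ S.D v, Γ.dbe w x0 x i s = S.ac s z - z := by
  obtain ⟨z, hz⟩ := hΓ.be_bad v hv i (x0 i) (x i) (w i)
  refine ⟨z, fun s hs => ?_⟩
  rw [← hz s hs, v1_sub]
  rfl

theorem dbe_sg_off (hΓ : Γ.Ok) (w : ι → V1) {x0 x : ∀ i, X i} {i : ι} {v : Pl} (hv : v ∉ Γ.bad)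
    (h : ∀ e, v ≠ Γ.plc x0 x i e) : Γ.dbe w x0 x i (S.sg v) = 0 := by
  unfold dbe
  rw [hΓ.be_unr i (x0 i) _ v hv (h false), hΓ.be_unr i (x i) _ v hv (h true), add_zero]

/-- The value at the tame generators of the two ends of the direction. -/
theorem dbe_sgx (hS : S.Ok) (hΓ : Γ.Ok) (w : ι → V1) {x0 x : ∀ i, X i} {i : ι}
    (hne : Γ.pl i (x0 i) ≠ Γ.pl i (x i)) (e : Bool) :
    Γ.dbe w x0 x i (Γ.sgx i (pt x0 x i e)) = w i := by
  unfold dbe
  cases e with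
  | true =>
    change Γ.be i (x0 i) (w i) (Γ.sgx i (x i)) + Γ.be i (x i) (w i) (Γ.sgx i (x i)) = w i
    rw [be_sgx hS hΓ (Ne.symm hne), hΓ.be_self, zero_add]
  | false =>
    change Γ.be i (x0 i) (w i) (Γ.sgx i (x0 i)) + Γ.be i (x i) (w i) (Γ.sgx i (x0 i)) = w i
    rw [be_sgx hS hΓ hne, hΓ.be_self, add_zero]

variable [Fintype ι]

/-- The assumptions of block H hold for the cube of two points. -/
theorem cubeOk (hS : S.Ok) (hΓ : Γ.Ok) {x0 x : ∀ i, X i}
    (hne : ∀ i, Γ.pl i (x0 i) ≠ Γ.pl i (x i)) (hsym : Γ.SymOk x0 x) :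
    CubeOk (S.conj (Γ.cg x0 x)) (Γ.chi x0) (Γ.del x0 x) (Γ.plc x0 x) where
  chi0_hom := chi_hom hS hΓ x0
  del_hom := del_hom hS hΓ x0 x
  good := plc_good hΓ x0 x
  split := fun i e => Sys.ac_conj_eq_one.2 (hΓ.split i (pt x0 x i e))
  chi0_sg := by
    intro i e
    have h0 : Γ.chi x0 ((S.conj (Γ.cg x0 x)).sg (Γ.plc x0 x i e)) =
        Γ.chi x0 (S.sg (Γ.plc x0 x i e)) := chi_conj hS hΓ x0 _ _
    rw [h0]
    cases e with
    | true =>
      simp only [if_true]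
      refine chi_sg_off hΓ x0 (plc_bad hΓ x0 x i true) fun j hj => ?_
      have hji : i = j := hΓ.pl_dir i (x i) j (x0 j) hj
      subst hji
      exact hne i hj.symm
    | false => exact chi_sg_pl hΓ x0 i
  del_sg := fun i e => by
    have h0 : Γ.del x0 x i ((S.conj (Γ.cg x0 x)).sg (Γ.plc x0 x i e)) =
        Γ.del x0 x i (S.sg (Γ.plc x0 x i e)) := homG_conj (del_hom hS hΓ x0 x i).2 _ _
    rw [h0]
    exact del_sg_self hΓ (hne i) e
  del_D := fun i e l hl => del_D hS hΓ hl e (fun e' => hsym.th l i hl e' e) _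
  other := by
    intro v hv
    by_cases hb : v ∈ Γ.bad
    · exact Or.inl fun i s hs => del_bad hΓ x0 x i hb s (cg_D_off hv hs)
    · refine Or.inr ⟨hΓ.bad_good v hb, ?_, fun i => ?_⟩
      · rw [cg_sg_off hv]
        exact chi_sg_off hΓ x0 hb fun i => hv i false
      · rw [cg_sg_off hv]
        exact del_sg_off hΓ hb (hv i)

omit [Fintype ι] in
/-- The cocycles of a code satisfy the assumptions of block H. -/
theorem betOk [Fintype ι] (hS : S.Ok) (hΓ : Γ.Ok) (w : ι → V1) {x0 x : ∀ i, X i}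
    (hsym : Γ.SymOk x0 x) :
    BetOk (S.conj (Γ.cg x0 x)) (Γ.chi x0) (Γ.del x0 x) (Γ.plc x0 x) (Γ.dbe w x0 x) where
  coc := fun i => cocG_add hS (hΓ.be_coc i (x0 i) (w i)) (hΓ.be_coc i (x i) (w i))
  D := fun i e l hl => dbe_D hS hΓ w hl e (fun e' => hsym.be l i hl e' e (w l)) _
  other := by
    intro v hv
    by_cases hb : v ∈ Γ.bad
    · refine Or.inl ⟨fun i s hs => del_bad hΓ x0 x i hb s (cg_D_off hv hs), fun i => ?_⟩
      obtain ⟨z, hz⟩ := dbe_bad hΓ w x0 x i hb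
      exact ⟨z, fun s hs => hz s (cg_D_off hv hs)⟩
    · refine Or.inr ⟨hΓ.bad_good v hb, ?_, fun i => ?_, fun i => ?_⟩
      · rw [cg_sg_off hv]
        exact chi_sg_off hΓ x0 hb fun i => hv i false
      · rw [cg_sg_off hv]
        exact del_sg_off hΓ hb (hv i)
      · rw [cg_sg_off hv]
        exact dbe_sg_off hΓ w hb (hv i)

variable [DecidableEq ι]

theorem mix_univ (x0 x : ∀ i, X i) : mix univ x0 x = x := by
  funext j
  simp [mix]

omit [Fintype ι] in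
/-- The vertices inside a face depend only on the coordinates of the face. -/
theorem mix_congr {U T : Finset ι} (hT : T ⊆ U) {x0 x y : ∀ i, X i} (h : ∀ i ∈ U, x i = y i) :
    mix T x0 x = mix T x0 y := by
  funext j
  unfold mix
  by_cases hj : j ∈ T
  · rw [if_pos hj, if_pos hj, h j (hT hj)]
  · rw [if_neg hj, if_neg hj]

omit [Fintype ι] in
theorem mix_eq_pt (T : Finset ι) (x0 x : ∀ i, X i) (i : ι) :
    mix T x0 x i = pt x0 x i (decide (i ∈ T)) := by
  unfold mix pt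
  simp only [decide_eq_true_eq]

/-- All the vertices but the last one are in `X^*`: the symbols are the prescribed ones. -/
theorem symOk_of_mix (hcard : 3 ≤ Fintype.card ι) {x0 x : ∀ i, X i}
    (h : ∀ T, T ≠ univ → mix T x0 x ∈ Γ.Xs) : Γ.SymOk x0 x := by
  -- a vertex with given coordinates in at most two directions
  have key : ∀ i j, i ≠ j → ∀ e e' : Bool, ∃ T : Finset ι, T ≠ univ ∧
      mix T x0 x i = pt x0 x i e ∧ mix T x0 x j = pt x0 x j e' := by
    intro i j hij e e'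
    refine ⟨(if e then {i} else ∅) ∪ (if e' then {j} else ∅), ?_, ?_, ?_⟩
    · intro hu
      have hT2 : (if e then {i} else ∅) ∪ (if e' then {j} else ∅) ⊆ ({i, j} : Finset ι) := by
        intro a ha
        rw [mem_union] at ha
        rcases ha with ha | ha
        · cases e with
          | true => simp only [if_true, mem_singleton] at ha; simp [ha]
          | false => simp at ha
        · cases e' with
          | true => simp only [if_true, mem_singleton] at ha; simp [ha]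
          | false => simp at ha
      have h1 := (card_le_card hT2).trans card_le_two
      rw [hu, card_univ] at h1
      omega
    · rw [mix_eq_pt]
      congr 1
      cases e <;> cases e' <;> simp [hij]
    · rw [mix_eq_pt]
      congr 1
      cases e <;> cases e' <;> simp [hij.symm]
  refine ⟨fun i j hij e e' => ?_, fun i j hij e e' w => ?_, fun i e w => ?_⟩
  · obtain ⟨T, hT, h1, h2⟩ := key i j hij e e'
    have h3 := (h T hT).1 i j hij
    rwa [h1, h2] at h3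
  · obtain ⟨T, hT, h1, h2⟩ := key i j hij e e'
    have h3 := (h T hT).2.1 i j hij w
    rwa [h1, h2] at h3
  · obtain ⟨j, hj⟩ := Fintype.exists_ne_of_one_lt_card (by omega : 1 < Fintype.card ι) i
    obtain ⟨T, hT, h1, -⟩ := key i j hj.symm e e
    have h3 := (h T hT).2.2 i w
    rwa [h1] at h3

omit [Fintype ι] in
theorem mem_Xs_of_symOk {x0 x : ∀ i, X i} (h : Γ.SymOk x0 x) (T : Finset ι) :
    mix T x0 x ∈ Γ.Xs := by
  refine ⟨fun i j hij => ?_, fun i j hij w => ?_, fun i w => ?_⟩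
  · rw [mix_eq_pt, mix_eq_pt]
    exact h.th i j hij _ _
  · rw [mix_eq_pt, mix_eq_pt]
    exact h.be i j hij _ _ w
  · rw [mix_eq_pt]
    exact h.self i _ w

end Pool.Agent.SmN.Grid
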