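import Pool.Agent.Lib.SmN.I.Defs

/-!
SmN, block I: small tools (2-finite functions, homomorphisms, cocycles, `ZMod 2`).
-/

set_option autoImplicit false

open Finset

namespace Pool.Agent.SmN.IT

variable {G V V1 Pl : Type*} [Group G] [AddCommGroup V] [DistribMulAction G V]
  [AddCommGroup V1] [Module (ZMod 2) V1] {S : Sys G V V1 Pl}

theorem z2_cases (a : ZMod 2) : a = 0 ∨ a = 1 := by
  revert a
  decide

theorem z2_add_self (a : ZMod 2) : a + a = 0 := by
  revert a
  decide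

theorem z2_sub (a b : ZMod 2) : a - b = a + b := by
  revert a b
  decide

section v1

variable {V1 : Type*} [AddCommGroup V1] [Module (ZMod 2) V1]

theorem v1_sub (a b : V1) : a - b = a + b := by
  rw [sub_eq_add_neg, V1_neg]

theorem v1_add_cancel (a b : V1) : a + b + b = a := by
  rw [add_assoc, V1_add_self, add_zero]

theorem v1_eq_of_add {a b : V1} (h : a + b = 0) : a = b := by
  rw [← v1_sub, sub_eq_zero] at h
  exact h

end v1

/-! ### 2-finite functions -/

theorem tf_const (hS : S.Ok) {α : Type*} (a : α) : S.TF (fun _ : G => a) :=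
  ⟨⊤, hS.top_mem, fun _ _ _ => rfl⟩

theorem tf_comp {α β : Type*} {f : G → α} (hf : S.TF f) (F : α → β) : S.TF (fun s => F (f s)) := by
  obtain ⟨N, hN, h⟩ := hf
  exact ⟨N, hN, fun s n hn => congrArg F (h s n hn)⟩

theorem tf_comp2 (hS : S.Ok) {α β γ : Type*} {f : G → α} {g : G → β} (hf : S.TF f) (hg : S.TF g)
    (F : α → β → γ) : S.TF (fun s => F (f s) (g s)) := by
  obtain ⟨N, hN, h⟩ := hf
  obtain ⟨N', hN', h'⟩ := hg
  exact ⟨N ⊓ N', hS.inf_mem N hN N' hN', fun s n hn => congrArg₂ F (h s n hn.1) (h' s n hn.2)⟩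

theorem tf_sum (hS : S.Ok) {α M : Type*} [AddCommMonoid M] (T : Finset α) (f : α → G → M)
    (hf : ∀ a ∈ T, S.TF (f a)) : S.TF (fun s => ∑ a ∈ T, f a s) := by
  classical
  induction T using Finset.induction_on with
  | empty =>
    simp only [sum_empty]
    exact tf_const hS 0
  | insert a T ha ih =>
    simp only [sum_insert ha]
    exact tf_comp2 hS (hf a (mem_insert_self a T)) (ih fun b hb => hf b (mem_insert_of_mem hb))
      (fun x y => x + y)

/-! ### Homomorphisms -/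

section hom

variable {A : Type*} [AddCommGroup A]

theorem homG_zero (hS : S.Ok) : S.HomG (fun _ : G => (0 : A)) :=
  ⟨tf_const hS 0, fun _ _ => (add_zero 0).symm⟩

theorem homG_add (hS : S.Ok) {c d : G → A} (hc : S.HomG c) (hd : S.HomG d) :
    S.HomG (fun s => c s + d s) :=
  ⟨tf_comp2 hS hc.1 hd.1 (fun x y => x + y), fun s t => by beta_reduce; rw [hc.2, hd.2]; abel⟩

theorem homG_sub (hS : S.Ok) {c d : G → A} (hc : S.HomG c) (hd : S.HomG d) :
    S.HomG (fun s => c s - d s) :=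
  ⟨tf_comp2 hS hc.1 hd.1 (fun x y => x - y), fun s t => by beta_reduce; rw [hc.2, hd.2]; abel⟩

theorem homG_sum (hS : S.Ok) {α : Type*} (T : Finset α) (f : α → G → A)
    (hf : ∀ a ∈ T, S.HomG (f a)) : S.HomG (fun s => ∑ a ∈ T, f a s) :=
  ⟨tf_sum hS T f fun a ha => (hf a ha).1, fun s t => by
    rw [← sum_add_distrib]
    exact sum_congr rfl fun a ha => (hf a ha).2 s t⟩

theorem homG_one {c : G → A} (hc : ∀ s t, c (s * t) = c s + c t) : c 1 = 0 := by
  have := hc 1 1
  rw [mul_one] at this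
  exact left_eq_add.mp this

theorem homG_inv {c : G → A} (hc : ∀ s t, c (s * t) = c s + c t) (s : G) : c s⁻¹ = - c s := by
  have := hc s s⁻¹
  rw [mul_inv_cancel, homG_one hc] at this
  exact (neg_eq_of_add_eq_zero_right this.symm).symm

/-- A homomorphism to an abelian group has the same values at conjugate elements. -/
theorem homG_conj {c : G → A} (hc : ∀ s t, c (s * t) = c s + c t) (a s : G) :
    c (a * s * a⁻¹) = c s := by
  rw [hc, hc, homG_inv hc]
  abel

/-- A homomorphism to `ZMod 2` which vanishes at `sg v` and `phi v` vanishes on `D v`. -/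
theorem homG_D (hS : S.Ok) {c : G → A} (hc : S.HomG c) (v : Pl) (h1 : c (S.sg v) = 0)
    (h2 : c (S.phi v) = 0) : ∀ s ∈ S.D v, c s = 0 := by
  intro s hs
  obtain ⟨N, hN, hcN⟩ := hc.1
  obtain ⟨t, ht, hts⟩ := hS.gen v N hN s hs
  have h3 := hcN t _ hts
  rw [mul_inv_cancel_left] at h3
  rw [h3]
  refine Subgroup.closure_induction (p := fun x _ => c x = 0) ?_ (homG_one hc.2) ?_ ?_ ht
  · rintro y (rfl | rfl)
    · exact h2
    · exact h1
  · intro a b _ _ ha hb
    rw [hc.2, ha, hb, add_zero]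
  · intro a _ ha
    rw [homG_inv hc.2, ha, neg_zero]

end hom

/-! ### Cocycles with values in `V1` -/

theorem cocG_zero (hS : S.Ok) : S.CocG (fun _ : G => (0 : V1)) :=
  ⟨tf_const hS 0, fun s _ => by beta_reduce; rw [map_zero, add_zero]⟩

theorem cocG_add (hS : S.Ok) {c d : G → V1} (hc : S.CocG c) (hd : S.CocG d) :
    S.CocG (fun s => c s + d s) :=
  ⟨tf_comp2 hS hc.1 hd.1 (fun x y => x + y), fun s t => by
    beta_reduce
    rw [hc.2, hd.2, map_add]
    abel⟩

theorem cocG_sub (hS : S.Ok) {c d : G → V1} (hc : S.CocG c) (hd : S.CocG d) :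
    S.CocG (fun s => c s - d s) :=
  ⟨tf_comp2 hS hc.1 hd.1 (fun x y => x - y), fun s t => by
    beta_reduce
    rw [hc.2, hd.2, map_sub]
    abel⟩

theorem cocG_sum (hS : S.Ok) {α : Type*} (T : Finset α) (f : α → G → V1)
    (hf : ∀ a ∈ T, S.CocG (f a)) : S.CocG (fun s => ∑ a ∈ T, f a s) :=
  ⟨tf_sum hS T f fun a ha => (hf a ha).1, fun s t => by
    beta_reduce
    rw [map_sum, ← sum_add_distrib]
    exact sum_congr rfl fun a ha => (hf a ha).2 s t⟩

/-- The value at a conjugate of an element which acts trivially. -/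
theorem cocG_conj {b : G → V1} (hb : ∀ s t, b (s * t) = b s + S.ac s (b t)) (a : G) {s : G}
    (hs : S.ac s = 1) : b (a * s * a⁻¹) = S.ac a (b s) := by
  rw [Sys.coc_conj hb, hs]
  simp

theorem ac_eq_zero {a : G} {w : V1} : S.ac a w = 0 ↔ w = 0 := (S.ac a).map_eq_zero_iff

/-- A cocycle which vanishes at `sg v` and `phi v` vanishes on `D v`. -/
theorem cocG_D (hS : S.Ok) {b : G → V1} (hb : S.CocG b) (v : Pl) (h1 : b (S.sg v) = 0)
    (h2 : b (S.phi v) = 0) : ∀ s ∈ S.D v, b s = 0 := by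
  intro s hs
  obtain ⟨N, hN, hbN⟩ := hb.1
  obtain ⟨t, ht, hts⟩ := hS.gen v N hN s hs
  have h3 := hbN t _ hts
  rw [mul_inv_cancel_left] at h3
  rw [h3]
  refine Subgroup.closure_induction (p := fun x _ => b x = 0) ?_ (Sys.cocG_one hb.2) ?_ ?_ ht
  · rintro y (rfl | rfl)
    · exact h2
    · exact h1
  · intro a c _ _ ha hc
    rw [hb.2, ha, hc, map_zero, add_zero]
  · intro a _ ha
    have h4 := hb.2 a⁻¹ a
    rw [inv_mul_cancel, Sys.cocG_one hb.2, ha, map_zero, add_zero] at h4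
    exact h4.symm

/-! ### Dependence of the local conditions on the twist -/

theorem zv_congr {chi chi' : G → ZMod 2} {v : Pl} (h : ∀ s ∈ S.D v, chi s = chi' s) {c : G → V}
    (hc : S.Zv chi v c) : S.Zv chi' v c := by
  obtain ⟨Q, hQ⟩ := hc
  refine ⟨Q, fun s hs => ?_⟩
  rw [hQ s hs]
  unfold dl tw
  rw [h s hs]

theorem wl_congr {chi chi' : G → ZMod 2} {v : Pl} (hS : S.Ok) (h : ∀ s ∈ S.D v, chi s = chi' s)
    {x : V1 × V1} (hx : x ∈ S.Wl chi v) : x ∈ S.Wl chi' v := by
  obtain ⟨Q, h1, h2, h3⟩ := hx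
  have e : ∀ s ∈ S.D v, dl chi' Q s = dl chi Q s := fun s hs => by
    unfold dl tw
    rw [h s hs]
  exact ⟨Q, fun s hs => by rw [e s hs, h1 s hs], by rw [e _ (hS.sg_mem v), h2],
    by rw [e _ (hS.phi_mem v), h3]⟩

theorem wl_congr_iff {chi chi' : G → ZMod 2} {v : Pl} (hS : S.Ok)
    (h : ∀ s ∈ S.D v, chi s = chi' s) {x : V1 × V1} : x ∈ S.Wl chi v ↔ x ∈ S.Wl chi' v :=
  ⟨wl_congr hS h, wl_congr hS fun s hs => (h s hs).symm⟩

theorem mem_D_conj_one {v : Pl} {s : G} (hs : s ∈ S.D v) :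
    s ∈ (S.conj fun _ => (1 : G)).D v := by
  rw [Sys.mem_conj_D, inv_one, one_mul, mul_one]
  exact hs

/-- The local condition of a global cocycle does not depend on the place of `Ω` above `v`. -/
theorem loc_conj_iff (hS : S.Ok) {chi : G → ZMod 2} (hchi : S.HomG chi) {b : G → V1}
    (hb : S.CocG b) (g : Pl → G) (v : Pl) :
    (S.conj g).loc v b ∈ (S.conj g).Wl chi v ↔ S.loc v b ∈ S.Wl chi v := by
  rw [Sys.mem_conj_Wl hS hchi, Sys.conj_loc hb]
  constructor
  · intro h
    have h1 := (S.W chi v).sub_mem h (Sys.cob_mem_Wl hS chi v (S.ac (g v)⁻¹ (b (g v))))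
    rwa [add_sub_cancel_right] at h1
  · intro h
    exact (S.W chi v).add_mem h (Sys.cob_mem_Wl hS chi v _)

/-! ### The torsion cocycles -/

/-- For `w ∈ V1` there is a function `κ : G → V1` such that at a good split place where `chi` is
ramified the local Kummer group consists of the `(w, κ (phi v) + chi (phi v) w)`, for all the places
of `Ω` above `v`. -/
theorem exists_kap (hS : S.Ok) (w : V1) : ∃ κ : G → V1,
    (∀ s t, (∀ Q : V, (4 : ℕ) • Q = 0 → s • Q = t • Q) → κ s = κ t) ∧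
    (∃ z : V, (2 : ℕ) • z = S.iota w ∧
      ∀ (chi : G → ZMod 2) (s : G), S.ac s = 1 → dl chi z s = S.iota (κ s + chi s • w)) ∧
    ∀ (g : Pl → G) (chi : G → ZMod 2), ∀ v ∈ S.good, S.ac (S.phi v) = 1 →
      chi ((S.conj g).sg v) = 1 → ∀ y : V1, ((w, y) ∈ (S.conj g).Wl chi v ↔
        y = κ ((S.conj g).phi v) + chi ((S.conj g).phi v) • w) := by
  obtain ⟨z, hz⟩ := hS.half (S.iota w)
  have h4 : (4 : ℕ) • z = 0 := by
    rw [show (4 : ℕ) = 2 * 2 from rfl, mul_nsmul, hz, Sys.two_iota]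
  have hs2 : ∀ s : G, S.ac s = 1 → (2 : ℕ) • (s • z - z) = 0 := by
    intro s hs
    rw [smul_sub, ← smul_comm s (2 : ℕ) z, hz, hS.iota_ac, hs]
    exact sub_self _
  have hκ : ∀ s : G, S.ac s = 1 → S.iota (S.un (s • z - z)) = s • z - z := fun s hs =>
    Sys.iota_un hS (hs2 s hs)
  have hdl : ∀ (chi : G → ZMod 2) (s : G), S.ac s = 1 →
      dl chi z s = S.iota (S.un (s • z - z) + chi s • w) := by
    intro chi s hs
    unfold dl tw
    rcases z2_cases (chi s) with h | h
    · rw [h, show sgn 0 = 1 from rfl, one_smul, zero_smul, add_zero, hκ s hs]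
    · rw [h, show sgn 1 = -1 from rfl, neg_smul, one_smul, one_smul, map_add, hκ s hs,
        ← Sys.neg_iota S w, ← hz]
      have h7 : s • z - z = -(s • z - z) := by
        rw [← hκ s hs, Sys.neg_iota]
      rw [h7, two_nsmul]
      abel
  refine ⟨fun s => S.un (s • z - z), fun s t hst => ?_, ⟨z, hz, hdl⟩, ?_⟩
  · beta_reduce
    rw [hst z h4]
  · intro g chi v hv hsp hchi y
    have hsp' : S.ac ((S.conj g).phi v) = 1 := Sys.ac_conj_eq_one.2 hsp
    have h1 := Sys.mem_Wl_ram (hS.conj g) (chi := chi) (v := v) hv hsp' hchi (w, y) (z := z) hz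
    rw [h1, hdl chi _ hsp']
    change S.iota _ = S.iota y ↔ _
    rw [hS.iota_inj.eq_iff]
    exact eq_comm

end Pool.Agent.SmN.IT
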