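import Pool.Agent.Lib.SmN.G6.Codes
import Pool.Agent.Lib.SmN.G.ConjOk
import Pool.Agent.Lib.SmN.I.Tools

/-!
SMITH-U (SmN), block I, `FrameThm`, part A: the local conditions at the marked places and the
reciprocity argument.
-/

set_option autoImplicit false

open Finset

namespace Pool.Agent.SmN.FrN

open Pool.Agent.SmN.IT

/-! ### Linear algebra -/

section lin

variable {V1 : Type} [AddCommGroup V1] [Module (ZMod 2) V1]

/-- `(ker (φ - 1))^⊥ = im (φ - 1)`. -/
theorem exists_sub_eq [Finite V1] {e : V1 →ₗ[ZMod 2] V1 →ₗ[ZMod 2] ZMod 2}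
    (hnd : ∀ w, (∀ w', e w w' = 0) → w = 0) (halt : ∀ w, e w w = 0) (φ : V1 ≃ₗ[ZMod 2] V1)
    (hinv : ∀ w w', e (φ w) (φ w') = e w w') (d : V1)
    (hd : ∀ w', φ w' = w' → e d w' = 0) : ∃ u, φ u - u = d := by
  by_contra hcon
  set R : Submodule (ZMod 2) V1 := LinearMap.range (φ.toLinearMap - LinearMap.id) with hR
  have hdR : d ∉ R := by
    rintro ⟨u, hu⟩
    exact hcon ⟨u, hu⟩
  have : Module.Finite (ZMod 2) V1 := Module.Finite.of_finite
  obtain ⟨f, hf1, hf2⟩ := Submodule.exists_le_ker_of_notMem hdR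
  -- `f` is represented by the form
  have hinj : Function.Injective e := by
    intro w w' h
    have h1 : ∀ y, e (w - w') y = 0 := fun y => by
      rw [map_sub, LinearMap.sub_apply, h, sub_self]
    exact sub_eq_zero.1 (hnd _ h1)
  have hsurj : Function.Surjective e :=
    (LinearMap.injective_iff_surjective_of_finrank_eq_finrank
      (Subspace.dual_finrank_eq (K := ZMod 2) (V := V1)).symm).1 hinj
  obtain ⟨w', hw'⟩ := hsurj f
  have hf : ∀ y, f y = e y w' := fun y => by rw [← hw', e_comm halt]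
  have hfix : φ w' = w' := by
    have h1 : ∀ u, e (φ u) w' = e u w' := by
      intro u
      have h2 : f (φ u - u) = 0 := hf2 ⟨u, rfl⟩
      rw [hf, map_sub, LinearMap.sub_apply, sub_eq_zero] at h2
      exact h2
    have h3 : ∀ y, e (w' - φ w') y = 0 := by
      intro y
      obtain ⟨u, rfl⟩ := φ.surjective y
      rw [map_sub, LinearMap.sub_apply, hinv, e_comm halt w' (φ u), h1, e_comm halt w' u, sub_self]
    exact (sub_eq_zero.1 (hnd _ h3)).symm
  apply hf1
  rw [hf]
  exact hd w' hfix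

end lin

section

variable {G V V1 Pl : Type} [Group G] [AddCommGroup V] [DistribMulAction G V]
  [AddCommGroup V1] [Module (ZMod 2) V1] {S : Sys G V V1 Pl} {X : PSys} {cd : CData S X}

/-- The Kummer group is stable under the coboundaries. -/
theorem wl_add_cob (hS : S.Ok) {chi : G → ZMod 2} (v : Pl) (x : V1 × V1) (z : V1) :
    x + S.cob v z ∈ S.Wl chi v ↔ x ∈ S.Wl chi v := by
  rw [← Sys.mem_W, ← Sys.mem_W]
  exact (S.W chi v).add_mem_cancel_right (Sys.cob_mem_Wl hS chi v z)

theorem split_ac {x : cd.Mk} (hx : cd.Split x) : S.ac (cd.phx x) = 1 := hx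

theorem split_fx {x : cd.Mk} (hx : cd.Split x) (w : V1) : cd.Fx x w := by
  change S.ac (cd.phx x) w = w
  rw [split_ac hx]
  rfl

theorem split_phi {x : cd.Mk} (hx : cd.Split x) : S.ac (S.phi (cd.pl x.1)) = 1 := by
  have h := split_ac hx
  rw [CData.phx] at h
  exact Sys.ac_conj_eq_one.1 h

/-- The condition at a split marked place. -/
theorem cond_split (hS : S.Ok) (hc : cd.Ok) {chi : G → ZMod 2} (hchi : S.HomG chi) {x : cd.Mk}
    (hx : cd.Split x) (h1 : chi (S.sg (cd.pl x.1)) = 1) {b : G → V1} (hb : S.CocG b) {w : V1}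
    (hw : b (S.sg (cd.pl x.1)) = S.ac x.2.1⁻¹ w) {z : V} (hz : (2 : ℕ) • z = S.iota w) :
    S.loc (cd.pl x.1) b ∈ S.Wl chi (cd.pl x.1) ↔
      dl chi z (cd.phx x) = S.iota (b (cd.phx x)) := by
  set v := cd.pl x.1 with hv
  set g : Pl → G := fun _ => x.2.1 with hg
  have hS' := hS.conj g
  have e1 : (S.conj g).loc v b ∈ (S.conj g).Wl chi v ↔ S.loc v b ∈ S.Wl chi v := by
    rw [Sys.mem_conj_Wl hS hchi, Sys.conj_loc hb, wl_add_cob hS]
  rw [← e1]
  have hsg : b (x.2.1 * S.sg v * x.2.1⁻¹) = w := by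
    rw [cocG_conj hb.2 _ (Sys.ac_sg hS (hc.pl_good _)), hw, Sys.ac_inv_cancel]
  refine Sys.mem_Wl_ram hS' (hc.pl_good _) hx ?_ _ (z := z) ?_
  · change chi (x.2.1 * S.sg v * x.2.1⁻¹) = 1
    rw [homG_conj hchi.2]
    exact h1
  · change (2 : ℕ) • z = S.iota (b (x.2.1 * S.sg v * x.2.1⁻¹))
    rw [hsg, hz]

/-- The twisted coboundary of a quarter point. -/
theorem dl_fix (hS : S.Ok) {chi : G → ZMod 2} {s : G} {w : V1} (hs : S.ac s w = w) {z : V}
    (hz : (2 : ℕ) • z = S.iota w) : dl chi z s = (s • z - z) + S.iota (chi s • w) := by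
  rcases z2_cases (chi s) with h0 | h0
  · rw [h0, zero_smul, map_zero, add_zero, dl, tw_of_zero chi h0]
  · rw [h0, one_smul, dl, tw_of_one chi h0]
    have h2 : s • z + s • z = S.iota w := by
      rw [← smul_add, ← two_nsmul, hz, hS.iota_ac, hs]
    rw [← Sys.neg_iota S w, ← h2]
    abel

/-- The local conditions at two split marked places with the same symbols. -/
theorem cond_congr (hS : S.Ok) (hc : cd.Ok) {chi chi' : G → ZMod 2} (hchi : S.HomG chi)
    (hchi' : S.HomG chi') {x y : cd.Mk} (hx : cd.Split x) (hy : cd.Split y)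
    (hkf : cd.kf (cd.phx x) = cd.kf (cd.phx y))
    (h1 : chi (S.sg (cd.pl x.1)) = 1) (h1' : chi' (S.sg (cd.pl y.1)) = 1)
    {b b' : G → V1} (hb : S.CocG b) (hb' : S.CocG b') {w : V1}
    (hw : b (S.sg (cd.pl x.1)) = S.ac x.2.1⁻¹ w) (hw' : b' (S.sg (cd.pl y.1)) = S.ac y.2.1⁻¹ w)
    (hsym : b (cd.phx x) + chi (cd.phx x) • w = b' (cd.phx y) + chi' (cd.phx y) • w) :
    S.loc (cd.pl x.1) b ∈ S.Wl chi (cd.pl x.1) ↔ S.loc (cd.pl y.1) b' ∈ S.Wl chi' (cd.pl y.1) := by
  obtain ⟨z, hz⟩ := hS.half (S.iota w)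
  rw [cond_split hS hc hchi hx h1 hb hw hz, cond_split hS hc hchi' hy h1' hb' hw' hz,
    dl_fix hS (split_fx hx w) hz, dl_fix hS (split_fx hy w) hz]
  -- the action on `z`
  have h4 : (4 : ℕ) • z = 0 := by
    rw [show (4 : ℕ) = 2 * 2 from rfl, mul_nsmul, hz, Sys.two_iota]
  obtain ⟨u, hu⟩ := hc.kf_four _ _ hkf z h4 (by
    rw [hz, hS.iota_ac]
    exact congrArg S.iota (split_fx hx w))
  have hu0 : S.ac (cd.phx x) u - u = 0 := by
    rw [split_ac hx]
    exact sub_self _
  rw [hu0, map_zero, sub_eq_zero] at hu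
  rw [hu]
  have e1 : b (cd.phx x) = b' (cd.phx y) + chi' (cd.phx y) • w + chi (cd.phx x) • w := by
    rw [← hsym, v1_add_cancel]
  rw [e1, map_add, map_add]
  constructor
  · intro h
    have h2 : cd.phx y • z - z + S.iota (chi (cd.phx x) • w) + S.iota (chi (cd.phx x) • w) =
        S.iota (b' (cd.phx y)) + S.iota (chi' (cd.phx y) • w) := by
      rw [h, add_assoc _ (S.iota (chi (cd.phx x) • w)), ← two_nsmul, Sys.two_iota, add_zero]
    rw [add_assoc, ← two_nsmul, Sys.two_iota, add_zero] at h2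
    rw [h2, add_assoc, ← two_nsmul, Sys.two_iota, add_zero]
  · intro h
    have h2 : cd.phx y • z - z + S.iota (chi' (cd.phx y) • w) + S.iota (chi' (cd.phx y) • w) =
        S.iota (b' (cd.phx y)) + S.iota (chi' (cd.phx y) • w) := by
      rw [h]
    rw [add_assoc, ← two_nsmul, Sys.two_iota, add_zero] at h2
    rw [h2]

/-- Reciprocity: the cocycles of two marked primes with the same class and the same symbols agree
at `z` up to a coboundary. -/
theorem rec_off (hS : S.Ok) (hc : cd.Ok) {x y z : cd.Mk} (hx : cd.Split x) (hy : cd.Split y)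
    (hxz : z.1 ≠ x.1) (hyz : z.1 ≠ y.1) (hkf : cd.kf (cd.phx x) = cd.kf (cd.phx y))
    (hsym : ∀ w', cd.Fx z w' → cd.bex z w' (cd.phx x) = cd.bex z w' (cd.phx y)) (w : V1) :
    ∃ u, S.loc (cd.pl z.1) (cd.bex x w) - S.loc (cd.pl z.1) (cd.bex y w) =
      S.cob (cd.pl z.1) u := by
  classical
  have : Finite V1 := hS.fin1
  have hfx := split_fx hx w
  have hfy := split_fx hy w
  have hcx := CData.bex_coc hc hfx
  have hcy := CData.bex_coc hc hfy
  set d : G → V1 := fun s => cd.bex x w s - cd.bex y w s with hd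
  have hdc : S.CocG d := cocG_sub hS hcx hcy
  have hdz : d (S.sg (cd.pl z.1)) = 0 := by
    rw [hd]
    simp only
    rw [CData.bex_unr hc hfx hxz, CData.bex_unr hc hfy hyz, sub_zero]
  obtain ⟨u, hu⟩ := exists_sub_eq hS.e_nondeg hS.e_alt (S.ac (S.phi (cd.pl z.1)))
    (hS.e_inv _) (d (S.phi (cd.pl z.1))) (fun w' hw' => by
      set W := S.ac z.2.1 w' with hW
      have hWf : cd.Fx z W := by
        rw [CData.fx_iff, hW, Sys.ac_cancel_inv, hw']
      have hβ := CData.bex_coc hc hWf
      have hβs : cd.bex z W (S.sg (cd.pl z.1)) = w' := by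
        rw [CData.bex_self hc hWf, hW, Sys.ac_cancel_inv]
      have hβxy : cd.bex z W (cd.phx x) = cd.bex z W (cd.phx y) := hsym W hWf
      set β := cd.bex z W with hβd
      set α : ZMod 2 := S.e (β (cd.phx x)) w with hα
      set γ : ZMod 2 := S.e (d (S.phi (cd.pl z.1))) w' with hγ
      have hterm : ∀ t : Pl, S.sy t (S.loc t d) (S.loc t β) =
          ((if t = cd.pl x.1 then α else 0) + (if t = cd.pl y.1 then α else 0)) +
            (if t = cd.pl z.1 then γ else 0) := by
        intro t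
        by_cases ht : t ∈ Set.range cd.pl
        · obtain ⟨Q, rfl⟩ := ht
          simp only [hc.pl_inj.eq_iff]
          by_cases hQz : Q = z.1
          · subst hQz
            rw [if_neg hxz, if_neg hyz, if_pos rfl, add_zero, zero_add,
              hS.sy_unr _ (hc.pl_good _) _ (Sys.loc_mem_CP hdc _) _ (Sys.loc_mem_CP hβ _) hdz]
            change S.e (d (S.phi (cd.pl z.1))) (β (S.sg (cd.pl z.1))) = γ
            rw [hβs]
          · have hβ0 : β (S.sg (cd.pl Q)) = 0 := CData.bex_unr hc hWf hQz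
            rw [if_neg hQz, add_zero, hS.sy_comm _ _ (Sys.loc_mem_CP hdc _) _
              (Sys.loc_mem_CP hβ _), hS.sy_unr _ (hc.pl_good _) _ (Sys.loc_mem_CP hβ _) _
              (Sys.loc_mem_CP hdc _) hβ0]
            change S.e (β (S.phi (cd.pl Q))) (cd.bex x w (S.sg (cd.pl Q)) -
              cd.bex y w (S.sg (cd.pl Q))) = _
            rw [v1_sub, map_add]
            congr 1
            · by_cases hQx : Q = x.1
              · subst hQx
                rw [if_pos rfl, CData.bex_self hc hfx, hα, CData.phx,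
                  cocG_conj hβ.2 _ (split_phi hx), ← hS.e_inv x.2.1, Sys.ac_inv_cancel]
              · rw [if_neg hQx, CData.bex_unr hc hfx hQx, map_zero]
            · by_cases hQy : Q = y.1
              · subst hQy
                rw [if_pos rfl, CData.bex_self hc hfy, hα, hβxy, CData.phx,
                  cocG_conj hβ.2 _ (split_phi hy), ← hS.e_inv y.2.1, Sys.ac_inv_cancel]
              · rw [if_neg hQy, CData.bex_unr hc hfy hQy, map_zero]
        · have hne : ∀ P, t ≠ cd.pl P := fun P h => ht ⟨P, h.symm⟩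
          rw [if_neg (hne _), if_neg (hne _), if_neg (hne _), add_zero, add_zero]
          obtain ⟨z', hz'⟩ := (hc.kf_bad x y hkf t ht).2 w hfx
          have h1 : S.loc t d = S.cob t z' :=
            Prod.ext (hz' _ (hS.sg_mem t)) (hz' _ (hS.phi_mem t))
          rw [h1, Sys.sy_cob_left hS t (Sys.loc_mem_CP hβ t)]
      have hsum := hS.recip d β hdc hβ
      rw [finsum_congr hterm] at hsum
      have hfin : ∀ (a : Pl) (c : ZMod 2), (Function.support fun t => if t = a then c else 0).Finite :=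
        fun a c => (Set.finite_singleton a).subset fun t ht => by
          by_contra h
          exact ht (if_neg h)
      have hone : ∀ (a : Pl) (c : ZMod 2), ∑ᶠ t, (if t = a then c else 0) = c := fun a c => by
        rw [finsum_eq_single _ a (fun t ht => if_neg ht), if_pos rfl]
      rw [finsum_add_distrib (((hfin _ _).union (hfin _ _)).subset
        (Function.support_add _ _)) (hfin _ _),
        finsum_add_distrib (hfin _ _) (hfin _ _), hone, hone, hone, z2_add_self, zero_add] at hsum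
      exact hsum)
  refine ⟨u, Prod.ext ?_ ?_⟩
  · change cd.bex x w (S.sg (cd.pl z.1)) - cd.bex y w (S.sg (cd.pl z.1)) =
      S.ac (S.sg (cd.pl z.1)) u - u
    rw [Sys.ac_sg hS (hc.pl_good _)]
    change d (S.sg (cd.pl z.1)) = u - u
    rw [hdz, sub_self]
  · exact hu.symm

end

end Pool.Agent.SmN.FrN
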