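import Pool.Agent.Lib.Sm.I.BoxI
import Pool.Agent.Lib.SmA.Cover

/-!
SMITH without rational 2-torsion (SmN), block I: the abstract form of Theorem I, with a relation
`r i` (the same prime) with fibres of at most `g0` elements in the place of the equality.
-/

set_option autoImplicit false

open Finset Pool.Agent.SmA Pool.Agent.Sm

namespace Pool.Agent.SmN

variable {κ : Type*} [Fintype κ] [DecidableEq κ] {X : Option κ → Type*} [∀ i, Fintype (X i)]

open Classical in
private theorem card_rel {Y : κ → Type*} [∀ i, Fintype (Y i)] [∀ i, Nonempty (Y i)] (i : κ)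
    (r : Y i → Prop) (g0 : ℕ) (hg0 : #{b : Y i | r b} ≤ g0) :
    ((#{b : ∀ i, Y i | r (b i)} : ℕ) : ℝ) ≤
      g0 * (Fintype.card (∀ i, Y i) / (Fintype.card (Y i) : ℝ)) := by
  have h3 : (0 : ℝ) < Fintype.card (Y i) := by exact_mod_cast Fintype.card_pos
  have h1 : ({b : ∀ i, Y i | r (b i)} : Finset (∀ i, Y i)) =
      ({c : Y i | r c} : Finset (Y i)).biUnion fun c => ({b : ∀ i, Y i | b i = c} : Finset _) := by
    ext b
    simp
  have h2 : #{b : ∀ i, Y i | r (b i)} ≤ ∑ c ∈ ({c : Y i | r c} : Finset (Y i)),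
      #{b : ∀ i, Y i | b i = c} := by
    rw [h1]
    exact card_biUnion_le
  calc ((#{b : ∀ i, Y i | r (b i)} : ℕ) : ℝ)
      ≤ ((∑ c ∈ ({c : Y i | r c} : Finset (Y i)), #{b : ∀ i, Y i | b i = c} : ℕ) : ℝ) := by
        exact_mod_cast h2
    _ = ∑ _c ∈ ({c : Y i | r c} : Finset (Y i)),
        (Fintype.card (∀ i, Y i) / (Fintype.card (Y i) : ℝ)) := by
        rw [Nat.cast_sum]
        refine sum_congr rfl fun c _ => ?_
        have h4 := card_coord (Y := Y) i c
        rw [eq_div_iff h3.ne', mul_comm]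
        convert h4 using 3
    _ = (#{c : Y i | r c} : ℝ) * (Fintype.card (∀ i, Y i) / (Fintype.card (Y i) : ℝ)) := by
        rw [sum_const, nsmul_eq_mul]
    _ ≤ _ := by
        have : (#{c : Y i | r c} : ℝ) ≤ g0 := by exact_mod_cast hg0
        gcongr

open Classical in
/-- The box norm bound. -/
theorem gamma_bound [∀ i, Nonempty (X i)] (r : ∀ i : κ, X (some i) → X (some i) → Prop)
    (hrs : ∀ i a b, r i a b → r i b a) (g0 : ℕ)
    (hg0 : ∀ i c, #{b : X (some i) | r i b c} ≤ g0)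
    (x0 : ∀ i : κ, X (some i))
    (h : (∀ i : κ, X (some i)) → X none → ℝ)
    (hh : ∀ x P, |h x P| ≤ 1) (Bd : ℝ)
    (hBd : ∀ a b : ∀ i : κ, X (some i),
      (∀ i, ¬ r i (a i) (b i) ∧ ¬ r i (a i) (x0 i) ∧ ¬ r i (b i) (x0 i)) →
      |∑ P, ∏ V : Finset κ, h (mix V a b) P| ≤ Bd) (γ : ℝ) (hγ0 : 0 ≤ γ)
    (hγ : Bd ^ 2 / (Fintype.card (X none) : ℝ) ^ 2 +
      3 * g0 * ∑ i : κ, 1 / (Fintype.card (X (some i)) : ℝ) ≤ γ ^ 2 ^ (Fintype.card κ + 1))
    (g : Option κ → (∀ i, X i) → ℝ) (hg : ∀ j, Misses j (g j)) :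
    |∑ x, h (fun i => x (some i)) (x none) * ∏ j, g j x| ≤
      γ * Fintype.card (∀ i, X i) := by
  set S : ℝ := ∑ x, h (fun i => x (some i)) (x none) * ∏ j, g j x with hS
  have h1 := box_norm (fun x : ∀ i, X i => h (fun i => x (some i)) (x none)) g hg
  rw [box_split h, ← hS, Fintype.card_option] at h1
  set M : ℝ := (Fintype.card (∀ i, X i) : ℝ) with hM
  set M' : ℝ := (Fintype.card (∀ i : κ, X (some i)) : ℝ) with hM'
  set m : ℝ := (Fintype.card (X none) : ℝ) with hm
  have hMm : M = m * M' := by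
    rw [hM, hM', hm, Fintype.card_congr (Equiv.piOptionEquivProd (β := X)), Fintype.card_prod]
    push_cast
    rfl
  have hm0 : 0 < m := by
    rw [hm]
    exact_mod_cast Fintype.card_pos
  have hM'0 : 0 < M' := by
    rw [hM']
    exact_mod_cast Fintype.card_pos
  have hM0 : 0 < M := by rw [hMm]; positivity
  have hbad : ∀ (i : κ) (c : X (some i)),
      ((#{b : ∀ i : κ, X (some i) | r i (b i) c} : ℕ) : ℝ) ≤
        g0 * (M' / (Fintype.card (X (some i)) : ℝ)) := fun i c =>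
    card_rel (Y := fun i : κ => X (some i)) i (fun b => r i b c) g0 (hg0 i c)
  have hQ : ∀ a b : ∀ i : κ, X (some i), ∀ P, |∏ V : Finset κ, h (mix V a b) P| ≤ 1 := by
    intro a b P
    rw [abs_prod]
    exact prod_le_one (fun _ _ => abs_nonneg _) (fun _ _ => hh _ _)
  have hQ2 : ∀ a b : ∀ i : κ, X (some i),
      (∑ P, ∏ V : Finset κ, h (mix V a b) P) ^ 2 ≤ m ^ 2 := by
    intro a b
    rw [← sq_abs]
    have h2 : |∑ P, ∏ V : Finset κ, h (mix V a b) P| ≤ m := by
      refine (abs_sum_le_sum_abs _ _).trans ?_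
      refine (sum_le_sum fun P _ => hQ a b P).trans (le_of_eq ?_)
      rw [sum_const, card_univ, nsmul_eq_mul, mul_one, hm]
    gcongr
  have hpair : ∀ a b : ∀ i : κ, X (some i),
      (∑ P, ∏ V : Finset κ, h (mix V a b) P) ^ 2 ≤
        Bd ^ 2 + m ^ 2 * ∑ i : κ, ((if r i (b i) (a i) then 1 else 0) +
          (if r i (a i) (x0 i) then 1 else 0) + (if r i (b i) (x0 i) then 1 else 0)) := by
    intro a b
    have hnn : ∀ i : κ, (0 : ℝ) ≤ (if r i (b i) (a i) then 1 else 0) +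
        (if r i (a i) (x0 i) then 1 else 0) + (if r i (b i) (x0 i) then 1 else 0) := by
      intro i
      split_ifs <;> norm_num
    by_cases hnd : ∀ i, ¬ r i (a i) (b i) ∧ ¬ r i (a i) (x0 i) ∧ ¬ r i (b i) (x0 i)
    · have h2 := hBd a b hnd
      have h3 : (∑ P, ∏ V : Finset κ, h (mix V a b) P) ^ 2 ≤ Bd ^ 2 := by
        rw [← sq_abs]
        have := abs_nonneg (∑ P, ∏ V : Finset κ, h (mix V a b) P)
        gcongr
      refine h3.trans (le_add_of_nonneg_right ?_)
      exact mul_nonneg (sq_nonneg _) (sum_nonneg fun i _ => hnn i)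
    · rw [not_forall] at hnd
      obtain ⟨i, hi⟩ := hnd
      have h4 : (1 : ℝ) ≤ ∑ i : κ, ((if r i (b i) (a i) then 1 else 0) +
          (if r i (a i) (x0 i) then 1 else 0) + (if r i (b i) (x0 i) then 1 else 0)) := by
        refine le_trans ?_ (single_le_sum (fun i _ => hnn i) (mem_univ i))
        by_cases e1 : r i (a i) (b i)
        · rw [if_pos (hrs i _ _ e1)]
          split_ifs <;> norm_num
        · by_cases e2 : r i (a i) (x0 i)
          · rw [if_pos e2]
            split_ifs <;> norm_num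
          · have e3 : r i (b i) (x0 i) := by
              by_contra e3
              exact hi ⟨e1, e2, e3⟩
            rw [if_pos e3]
            split_ifs <;> norm_num
      calc (∑ P, ∏ V : Finset κ, h (mix V a b) P) ^ 2 ≤ m ^ 2 := hQ2 a b
        _ = 0 + m ^ 2 * 1 := by ring
        _ ≤ _ := by gcongr; positivity
  have htot : ∑ a : ∀ i : κ, X (some i), ∑ b : ∀ i : κ, X (some i),
      (∑ P : X none, ∏ V : Finset κ, h (mix V a b) P) ^ 2 ≤
      M ^ 2 * (Bd ^ 2 / m ^ 2 + 3 * g0 * ∑ i : κ, 1 / (Fintype.card (X (some i)) : ℝ)) := by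
    refine (sum_le_sum fun a _ => sum_le_sum fun b _ => hpair a b).trans ?_
    have c1 : ∀ i : κ, ∑ a : ∀ i : κ, X (some i), ∑ b : ∀ i : κ, X (some i),
        (if r i (b i) (a i) then (1 : ℝ) else 0) ≤
          M' * (g0 * (M' / (Fintype.card (X (some i)) : ℝ))) := by
      intro i
      calc ∑ a : ∀ i : κ, X (some i), ∑ b : ∀ i : κ, X (some i),
            (if r i (b i) (a i) then (1 : ℝ) else 0)
          ≤ ∑ _a : ∀ i : κ, X (some i), (g0 * (M' / (Fintype.card (X (some i)) : ℝ))) := by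
            refine sum_le_sum fun a _ => ?_
            rw [sum_boole]
            exact hbad i (a i)
        _ = _ := by
            rw [sum_const, card_univ, nsmul_eq_mul]
    have c2 : ∀ i : κ, ∑ a : ∀ i : κ, X (some i), ∑ _b : ∀ i : κ, X (some i),
        (if r i (a i) (x0 i) then (1 : ℝ) else 0) ≤
          M' * (g0 * (M' / (Fintype.card (X (some i)) : ℝ))) := by
      intro i
      rw [sum_comm]
      calc ∑ _b : ∀ i : κ, X (some i), ∑ a : ∀ i : κ, X (some i),
            (if r i (a i) (x0 i) then (1 : ℝ) else 0)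
          ≤ ∑ _a : ∀ i : κ, X (some i), (g0 * (M' / (Fintype.card (X (some i)) : ℝ))) := by
            refine sum_le_sum fun a _ => ?_
            rw [sum_boole]
            exact hbad i (x0 i)
        _ = _ := by
            rw [sum_const, card_univ, nsmul_eq_mul]
    have c3 : ∀ i : κ, ∑ _a : ∀ i : κ, X (some i), ∑ b : ∀ i : κ, X (some i),
        (if r i (b i) (x0 i) then (1 : ℝ) else 0) ≤
          M' * (g0 * (M' / (Fintype.card (X (some i)) : ℝ))) := by
      intro i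
      calc ∑ _b : ∀ i : κ, X (some i), ∑ a : ∀ i : κ, X (some i),
            (if r i (a i) (x0 i) then (1 : ℝ) else 0)
          ≤ ∑ _a : ∀ i : κ, X (some i), (g0 * (M' / (Fintype.card (X (some i)) : ℝ))) := by
            refine sum_le_sum fun a _ => ?_
            rw [sum_boole]
            exact hbad i (x0 i)
        _ = _ := by
            rw [sum_const, card_univ, nsmul_eq_mul]
    have c4 : ∑ a : ∀ i : κ, X (some i), ∑ b : ∀ i : κ, X (some i),
        ∑ i : κ, ((if r i (b i) (a i) then (1 : ℝ) else 0) + (if r i (a i) (x0 i) then 1 else 0) +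
          (if r i (b i) (x0 i) then 1 else 0)) ≤
        ∑ i : κ, 3 * (M' * (g0 * (M' / (Fintype.card (X (some i)) : ℝ)))) := by
      have : ∀ a : ∀ i : κ, X (some i), ∑ b : ∀ i : κ, X (some i),
          ∑ i : κ, ((if r i (b i) (a i) then (1 : ℝ) else 0) +
            (if r i (a i) (x0 i) then 1 else 0) + (if r i (b i) (x0 i) then 1 else 0)) =
          ∑ i : κ, ∑ b : ∀ i : κ, X (some i), ((if r i (b i) (a i) then (1 : ℝ) else 0) +
            (if r i (a i) (x0 i) then 1 else 0) + (if r i (b i) (x0 i) then 1 else 0)) :=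
        fun a => sum_comm
      rw [sum_congr rfl fun a _ => this a, sum_comm]
      refine sum_le_sum fun i _ => ?_
      simp only [sum_add_distrib]
      have d1 := c1 i
      have d2 := c2 i
      have d3 := c3 i
      linarith
    have c5 : ∑ a : ∀ i : κ, X (some i), ∑ b : ∀ i : κ, X (some i), (Bd ^ 2 + m ^ 2 *
        ∑ i : κ, ((if r i (b i) (a i) then (1 : ℝ) else 0) + (if r i (a i) (x0 i) then 1 else 0) +
          (if r i (b i) (x0 i) then 1 else 0))) ≤
        M' * (M' * Bd ^ 2) +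
          m ^ 2 * ∑ i : κ, 3 * (M' * (g0 * (M' / (Fintype.card (X (some i)) : ℝ)))) := by
      have d4 : ∑ a : ∀ i : κ, X (some i), ∑ b : ∀ i : κ, X (some i), (Bd ^ 2 + m ^ 2 *
          ∑ i : κ, ((if r i (b i) (a i) then (1 : ℝ) else 0) +
            (if r i (a i) (x0 i) then 1 else 0) + (if r i (b i) (x0 i) then 1 else 0))) =
          M' * (M' * Bd ^ 2) + m ^ 2 * ∑ a : ∀ i : κ, X (some i), ∑ b : ∀ i : κ, X (some i),
            ∑ i : κ, ((if r i (b i) (a i) then (1 : ℝ) else 0) +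
              (if r i (a i) (x0 i) then 1 else 0) + (if r i (b i) (x0 i) then 1 else 0)) := by
        have d5 : ∀ a : ∀ i : κ, X (some i), ∑ b : ∀ i : κ, X (some i), (Bd ^ 2 + m ^ 2 *
            ∑ i : κ, ((if r i (b i) (a i) then (1 : ℝ) else 0) +
              (if r i (a i) (x0 i) then 1 else 0) + (if r i (b i) (x0 i) then 1 else 0))) =
            M' * Bd ^ 2 + m ^ 2 * ∑ b : ∀ i : κ, X (some i),
              ∑ i : κ, ((if r i (b i) (a i) then (1 : ℝ) else 0) +
                (if r i (a i) (x0 i) then 1 else 0) + (if r i (b i) (x0 i) then 1 else 0)) := by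
          intro a
          rw [sum_add_distrib, sum_const, card_univ, nsmul_eq_mul, ← mul_sum]
        rw [sum_congr rfl fun a _ => d5 a, sum_add_distrib, sum_const, card_univ, nsmul_eq_mul,
          ← mul_sum]
      rw [d4]
      gcongr
    refine c5.trans (le_of_eq ?_)
    rw [hMm]
    have c6 : ∑ i : κ, 3 * (M' * (g0 * (M' / (Fintype.card (X (some i)) : ℝ)))) =
        M' ^ 2 * (3 * g0 * ∑ i : κ, 1 / (Fintype.card (X (some i)) : ℝ)) := by
      rw [mul_sum, mul_sum]
      refine sum_congr rfl fun i _ => ?_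
      ring
    rw [c6]
    field_simp
  have h2 : S ^ 2 ^ (Fintype.card κ + 1) ≤ (γ * M) ^ 2 ^ (Fintype.card κ + 1) := by
    have h3 : M ^ 2 * S ^ 2 ^ (Fintype.card κ + 1) ≤
        M ^ 2 * (γ * M) ^ 2 ^ (Fintype.card κ + 1) := by
      refine h1.trans ?_
      calc M ^ 2 ^ (Fintype.card κ + 1) * ∑ a : ∀ i : κ, X (some i),
            ∑ b : ∀ i : κ, X (some i), (∑ P : X none, ∏ V : Finset κ, h (mix V a b) P) ^ 2
          ≤ M ^ 2 ^ (Fintype.card κ + 1) * (M ^ 2 * (Bd ^ 2 / m ^ 2 +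
            3 * g0 * ∑ i : κ, 1 / (Fintype.card (X (some i)) : ℝ))) := by gcongr
        _ ≤ M ^ 2 ^ (Fintype.card κ + 1) * (M ^ 2 * γ ^ 2 ^ (Fintype.card κ + 1)) := by gcongr
        _ = _ := by rw [mul_pow]; ring
    exact le_of_mul_le_mul_left h3 (by positivity)
  have heven : Even (2 ^ (Fintype.card κ + 1)) := by
    rw [pow_succ]
    exact even_two.mul_left _
  rw [← heven.pow_abs S] at h2
  exact le_of_pow_le_pow_left₀ (by positivity) (by positivity) h2

open Classical in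
/-- Theorem I, abstract form: from the factorisation of `F` at the good pairs, the cancellation
over the last coordinate and the density of good pairs. -/
theorem grid_abs {κ : Type*} [Fintype κ] [DecidableEq κ] {X : Option κ → Type*}
    [∀ i, Fintype (X i)] [∀ i, Nonempty (X i)]
    (r : ∀ i : κ, X (some i) → X (some i) → Prop)
    (hrs : ∀ i a b, r i a b → r i b a) (g0 : ℕ)
    (hg0 : ∀ i c, #{b : X (some i) | r i b c} ≤ g0)
    (Y : Finset (∀ i, X i)) (F : (∀ i, X i) → ℝ) (hF : ∀ x, |F x| ≤ 1)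
    (Good : (∀ i, X i) → (∀ i, X i) → Prop) (hY : ∀ x0 x, Good x0 x → x ∈ Y)
    (hfac : ∀ x0, ∃ φ : Option κ → (∀ i, X i) → ℝ, (∀ j, Misses j (φ j)) ∧
      ∀ x, (if Good x0 x then (1 : ℝ) else 0) = ∏ j, φ j x)
    (h : (∀ i, X i) → (∀ i : κ, X (some i)) → X none → ℝ) (hh : ∀ x0 x P, |h x0 x P| ≤ 1)
    (hform : ∀ x0, ∃ ψ : Option κ → (∀ i, X i) → ℝ, (∀ j, Misses j (ψ j)) ∧
      ∀ x, Good x0 x → F x = h x0 (fun i => x (some i)) (x none) * ∏ j, ψ j x)
    (Bd : ℝ)
    (hBd : ∀ x0 : ∀ i, X i, ∀ a b : ∀ i : κ, X (some i),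
      (∀ i, ¬ r i (a i) (b i) ∧ ¬ r i (a i) (x0 (some i)) ∧ ¬ r i (b i) (x0 (some i))) →
      |∑ P, ∏ V : Finset κ, h x0 (mix V a b) P| ≤ Bd)
    (γ : ℝ) (hγ0 : 0 ≤ γ)
    (hγ : Bd ^ 2 / (Fintype.card (X none) : ℝ) ^ 2 +
      3 * g0 * ∑ i : κ, 1 / (Fintype.card (X (some i)) : ℝ) ≤ γ ^ 2 ^ (Fintype.card κ + 1))
    (δ c : ℝ) (hδ : 0 ≤ δ)
    (hB : ∀ B ⊆ Y, δ * Fintype.card (∀ i, X i) ≤ #B →
      c * (Fintype.card (∀ i, X i) : ℝ) ^ 2 ≤
        #{p : (∀ i, X i) × (∀ i, X i) | p.1 ∈ B ∧ p.2 ∈ B ∧ Good p.1 p.2} +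
          ∑ i, (Fintype.card (∀ i, X i) : ℝ) ^ 2 / (Fintype.card (X i) : ℝ))
    (hc : ∑ i, 1 / (Fintype.card (X i) : ℝ) ≤ c / 2) (N : ℕ) (hN : 2 ≤ c * N) :
    |∑ x ∈ Y, F x| ≤ (δ + 2 ^ N * γ) * Fintype.card (∀ i, X i) := by
  refine covering Y F hF Good hY hfac γ ?_ δ (c / 2) hδ ?_ N (by linarith)
  · intro x0 g hg
    obtain ⟨φ, hφ1, hφ2⟩ := hfac x0
    obtain ⟨ψ, hψ1, hψ2⟩ := hform x0
    have h1 : ∀ x, (if Good x0 x then (1 : ℝ) else 0) * F x * ∏ j, g j x =
        h x0 (fun i => x (some i)) (x none) * ∏ j, (φ j x * ψ j x * g j x) := by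
      intro x
      rw [prod_mul_distrib, prod_mul_distrib, ← hφ2 x]
      by_cases hx : Good x0 x
      · rw [if_pos hx, hψ2 x hx]
        ring
      · rw [if_neg hx]
        ring
    rw [sum_congr rfl fun x _ => h1 x]
    refine gamma_bound r hrs g0 hg0 (fun i => x0 (some i)) (h x0) (hh x0) Bd (hBd x0) γ hγ0 hγ
      (fun j x => φ j x * ψ j x * g j x) (fun j => ⟨fun x => ?_, fun x z => ?_⟩)
    · rw [abs_mul, abs_mul]
      have e1 := (hφ1 j).1 x
      have e2 := (hψ1 j).1 x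
      have e3 := (hg j).1 x
      exact mul_le_one₀ (mul_le_one₀ e1 (abs_nonneg _) e2) (abs_nonneg _) e3
    · change φ j _ * ψ j _ * g j _ = _
      rw [(hφ1 j).2 x z, (hψ1 j).2 x z, (hg j).2 x z]
  · intro B hBY hBδ
    have h2 := hB B hBY hBδ
    have h3 : ∑ i, (Fintype.card (∀ i, X i) : ℝ) ^ 2 / (Fintype.card (X i) : ℝ) ≤
        c / 2 * (Fintype.card (∀ i, X i) : ℝ) ^ 2 := by
      have : ∑ i, (Fintype.card (∀ i, X i) : ℝ) ^ 2 / (Fintype.card (X i) : ℝ) =
          (∑ i, 1 / (Fintype.card (X i) : ℝ)) * (Fintype.card (∀ i, X i) : ℝ) ^ 2 := by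
        rw [sum_mul]
        exact sum_congr rfl fun i _ => by ring
      rw [this]
      gcongr
    linarith

end Pool.Agent.SmN
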