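import Pool.Agent.Lib.SmN.I.GridEnd
import Pool.Agent.Lib.SmN.I.GridOkN
import Pool.Agent.Lib.SmN.I.NumN

/-!
SMITH-U (SmN), block I: Theorem I from the type data and the data of the last direction.
-/

set_option autoImplicit false

open Finset

namespace Pool.Agent.SmN.FrN

variable {G V V1 Pl : Type} [Group G] [AddCommGroup V] [DistribMulAction G V]
  [AddCommGroup V1] [Module (ZMod 2) V1] {S : Sys G V V1 Pl} {X : PSys} {cd : CData S X}

/-- The data of the last direction, with bounds. -/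
def HasLast (cd : CData S X) (m K1 B1 : ℕ) : Prop :=
  ∀ (J : Type) (_ : Fintype J) (p : J → cd.Mk) (dir : Dir m ↪ J), cd.DirOk p dir →
    ∃ (M : Subgroup G) (K0 : ℕ) (Q : G → Prop) (E B0 : Finset X.Pr) (rr : ℕ),
      K0 ≤ K1 * 2 ^ (B1 * Nat.card J) ∧ rr ≤ 4 * cd.degN p ∧
      LastOk (cd.gridN p dir) cd.pl X.deg (fun _ x => x.1.1) M K0 Q (X.deg (p (dir none)).1) E B0 rr

open Classical in
/-- The type data. -/
def HasTwr (cd : CData S X) (m : ℕ) : Prop :=
  ∀ (J : Type) (_ : Fintype J) (p : J → cd.Mk) (dir : Dir m ↪ J) (a b : cd.CodeN J),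
    cd.DirOk p dir → a ∈ cd.LflN (cd.FN p) (cd.LamN p) m → b ∈ cd.FN p →
    cd.PerpN (cd.LamN p) (m - 1) b →
    ∀ su : cd.SuppN (cd.FN p) (cd.LflN (cd.FN p) (cd.LamN p)) m a b dir,
    2 ^ su.r ≤ Nat.card (cd.FN p) ∧
    ∃ (n : ℕ) (τ : Twr G V1 (Dir m) n), n + 1 = su.r ∧ τ.Ok (cd.gridN p dir) m ∧
      τ.sig 0 = {some none} ∧ (τ.c 0).2 (some none) = su.e ∧ (∀ i, i ≠ none → τ.b.2 i = 0) ∧
      τ.b.2 none = su.e' ∧
      (∀ x, x ∈ τ.Y (cd.gridN p dir) m ↔
        cd.TypEqN dir (cd.replN p dir fun i => (x i).1) p) ∧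
      (∀ x ∈ τ.Y (cd.gridN p dir) m, τ.Fab (cd.gridN p dir) m x =
        cd.FFN (cd.replN p dir fun i => (x i).1) m a b) ∧
      ∀ x ∈ τ.Y (cd.gridN p dir) m, {b | S.IsSel1 ((cd.gridN p dir).chi x) b}.Finite ∧
        {b | S.IsSel1 ((cd.gridN p dir).chi x) b}.ncard ≤ Nat.card (cd.FN p)

private theorem sign_eq (x : ZMod 2) : (-1 : ℝ) ^ x.val = if x = 0 then 1 else -1 := by
  have key : x = 0 ∨ x = 1 := by
    revert x
    decide
  rcases key with rfl | rfl
  · simp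
  · have : (1 : ZMod 2).val = 1 := rfl
    rw [this, pow_one, if_neg (by decide)]

/-- The classes are finite. -/
theorem finite_XB (hX : ∀ d, Finite (X.Of d)) {J : Type} {m : ℕ} (p : J → cd.Mk)
    (dir : Dir m ↪ J) (i : Dir m) : Finite (cd.XB p dir i) := by
  have h1 := hX (X.deg (p (dir i)).1)
  exact Finite.of_injective (β := X.Of (X.deg (p (dir i)).1) × {g : G // g ∈ cd.R})
    (fun x => (⟨x.1.1, x.2.1⟩, x.1.2)) fun x y h => by
      simp only [Prod.mk.injEq, Subtype.mk.injEq] at h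
      exact Subtype.ext (Prod.ext h.1 h.2)

/-- **Theorem I.** -/
theorem gridThmN_of (hS : S.Ok) (hc : cd.Ok) (hX : ∀ d, Finite (X.Of d)) {q a C : ℕ}
    (hq : 2 ≤ q)
    (hC : ChebU S.NN S.ac.ker cd.R X.deg (fun P => S.sg (cd.pl P)) (fun P => S.phi (cd.pl P))
      q a C) {m K1 B1 : ℕ} (hm : 1 ≤ m) (hL : HasLast cd m K1 B1) (hT : HasTwr cd m) :
    cd.GridThmN q m := by
  classical
  intro R η hη
  have hV : Finite V1 := hS.fin1
  have hV0 : 0 < Nat.card V1 := Nat.card_pos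
  have hR0 : 0 < cd.R.card := by
    obtain ⟨h, h1, -⟩ := hc.rep 1
    exact card_pos.2 ⟨h, h1.1⟩
  set g0 := cd.R.card with hg0
  obtain ⟨n₀, N, γ, δ, c, ε, hγ0, hδ0, hcN, hcf, hδγ, hε1, hε2, hn⟩ :=
    INum.grid_num B1 a C (K1 * (2 ^ m * Nat.card V1 ^ 2 ^ m) ^ 2 ^ (m + 1)) 4 q m R g0 hq
      (fun r δ => cGr (Nat.card V1) g0 m r (2 ^ R) δ) (fun r δ hδ => by
        unfold cGr nCol nCls
        positivity) η hη
  refine ⟨n₀, fun J _ p a' b' dir hd hn0 hF ha hb hperp hsu hXB => ?_⟩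
  obtain ⟨su⟩ := hsu
  obtain ⟨hn3, hN4, hbig⟩ := hn _ hn0
  obtain ⟨hr2, r, τ, hr, hτ, hσ, he, hbz, he', hY, hFab, hsel⟩ :=
    hT J _ p dir a' b' hd ha hb hperp su
  obtain ⟨M, K0, Q, E, B0, rr, hK0, hrr, hLO⟩ := hL J _ p dir hd
  have hfin : ∀ i, Finite (cd.XB p dir i) := finite_XB hX p dir
  let _ : ∀ i, Fintype (cd.XB p dir i) := fun i => Fintype.ofFinite _
  -- the lower bounds
  have hb1 : ∀ i, 0 < (Fintype.card (cd.XB p dir i) : ℝ) ∧
      1 / (Fintype.card (cd.XB p dir i) : ℝ) ≤ ε ∧ ∀ rr : ℕ, rr ≤ 4 * cd.degN p →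
        (C * ((2 : ℝ) ^ (B1 * Nat.card J) *
          ((K1 * (2 ^ m * Nat.card V1 ^ 2 ^ m) ^ 2 ^ (m + 1) : ℕ) : ℝ) * (rr + 1)) ^ a *
          √((q : ℝ) ^ X.deg (p (dir i)).1)) ^ 2 / (Fintype.card (cd.XB p dir i) : ℝ) ^ 2 ≤ ε :=
    fun i => hbig (Nat.card J) hd.few _ le_rfl _ (hd.large i) _ (by
      have h1 := hXB i
      rwa [Nat.card_eq_fintype_card] at h1)
  have hneX : ∀ i, Nonempty (cd.XB p dir i) := fun i => by
    have h1 := (hb1 i).1
    exact Fintype.card_pos_iff.1 (by exact_mod_cast h1)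
  have hd1 : 1 ≤ X.deg (p (dir none)).1 := by
    have h1 := hd.large none
    have h2 : N0 (cd.degN p) = ⌊(Real.log (cd.degN p)) ^ 3⌋₊ := rfl
    omega
  -- the left-hand side
  have hLHS : ∑ᶠ x : (i : Dir m) → cd.XB p dir i,
        (if cd.TypEqN dir (cd.replN p dir fun i => (x i).1) p then
          (-1 : ℝ) ^ (cd.FFN (cd.replN p dir fun i => (x i).1) m a' b').val else 0) =
      ∑ x ∈ univ with x ∈ τ.Y (cd.gridN p dir) m,
        (if τ.Fab (cd.gridN p dir) m x = 0 then (1 : ℝ) else -1) := by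
    rw [finsum_eq_sum_of_fintype, ← sum_filter]
    refine sum_congr (filter_congr fun x _ => (hY x).symm) fun x hx => ?_
    rw [sign_eq, ← hFab x (mem_filter.1 hx).2]
  rw [hLHS]
  have hprod : (∏ i, (Nat.card (cd.XB p dir i) : ℝ)) =
      Fintype.card (∀ i, cd.XB p dir i) := by
    rw [Fintype.card_pi]
    push_cast
    exact prod_congr rfl fun i _ => by rw [Nat.card_eq_fintype_card]
  rw [hprod]
  have hrR : r ≤ R := by
    have h2 : 2 ^ su.r ≤ 2 ^ R := hr2.trans hF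
    have h3 : su.r ≤ R := (Nat.pow_le_pow_iff_right (by norm_num)).1 h2
    omega
  have hend := grid_end' hS (gridN_ok hS hc hd) hτ hm hσ hbz (by rw [he, he']; exact su.pair)
    (2 ^ R) (by positivity) (fun x hx => ⟨(hsel x hx).1, (hsel x hx).2.trans hF⟩) hR0 cd.pl X.deg
    hC (fun _ x => x.1.1) M K0 Q (X.deg (p (dir none)).1) E B0 rr hLO γ hγ0 (by
      refine le_trans (add_le_add ?_ ?_) hε1
      · refine le_trans ?_ ((hb1 none).2.2 rr hrr)
        have hK0' : (K0 : ℝ) ≤ K1 * 2 ^ (B1 * Nat.card J) := by exact_mod_cast hK0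
        have hkey : (K0 : ℝ) * (2 ^ m * (Nat.card V1 : ℝ) ^ 2 ^ m) ^ 2 ^ (m + 1) ≤
            2 ^ (B1 * Nat.card J) *
              ((K1 * (2 ^ m * Nat.card V1 ^ 2 ^ m) ^ 2 ^ (m + 1) : ℕ) : ℝ) := by
          push_cast
          calc (K0 : ℝ) * (2 ^ m * (Nat.card V1 : ℝ) ^ 2 ^ m) ^ 2 ^ (m + 1)
              ≤ (K1 * 2 ^ (B1 * Nat.card J)) *
                  (2 ^ m * (Nat.card V1 : ℝ) ^ 2 ^ m) ^ 2 ^ (m + 1) := by gcongr
            _ = 2 ^ (B1 * Nat.card J) *
                (K1 * (2 ^ m * (Nat.card V1 : ℝ) ^ 2 ^ m) ^ 2 ^ (m + 1)) := by ring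
        have hb0 : 0 ≤ bGr (Nat.card V1) m K0 rr a q C (X.deg (p (dir none)).1) := by
          unfold bGr
          positivity
        refine div_le_div_of_nonneg_right (pow_le_pow_left₀ hb0 ?_ 2) (by positivity)
        unfold bGr
        exact mul_le_mul_of_nonneg_right (mul_le_mul_of_nonneg_left (pow_le_pow_left₀
          (by positivity) (mul_le_mul_of_nonneg_right hkey (by positivity)) a) (by positivity))
          (by positivity)
      · have h1 : (((cd.gridN p dir).R.card : ℕ) : ℝ) = g0 := rfl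
        rw [h1]
        gcongr
        calc ∑ i : Option (Fin m), 1 / (Fintype.card (cd.XB p dir (some i)) : ℝ)
            ≤ ∑ i : Option (Fin m), ε := sum_le_sum fun i _ => (hb1 (some i)).2.1
          _ = (m + 1 : ℕ) * ε := by
              rw [sum_const, card_univ, Fintype.card_option, Fintype.card_fin, nsmul_eq_mul])
    δ c hδ0 (hcf r hrR) (by
      refine le_trans ?_ hε2
      calc ∑ i : Dir m, 1 / (Fintype.card (cd.XB p dir i) : ℝ)
          ≤ ∑ i : Dir m, ε := sum_le_sum fun i _ => (hb1 i).2.1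
        _ = (m + 2 : ℕ) * ε := by
            rw [sum_const, card_univ, Fintype.card_option, Fintype.card_option,
              Fintype.card_fin, nsmul_eq_mul]) N hcN
  refine hend.trans ?_
  gcongr

end Pool.Agent.SmN.FrN
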